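import Mathlib

/-!
Connected sets of indices, separated families, the cluster functions and the truncated cluster sum.
-/

set_option autoImplicit false
set_option linter.unusedSectionVars false

open scoped BigOperators

namespace Pool.Agent.Hhelper68.CS

section defs

variable {I : Type} [Fintype I] [DecidableEq I] (nb : I → Finset I)

/-- connected sets -/
def ConnF (C : Finset I) : Prop :=
  C.Nonempty ∧ ∀ A ⊆ C, A.Nonempty → (∀ a ∈ A, ∀ b ∈ C, b ∈ nb a → b ∈ A) → A = C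

/-- separated families of connected sets -/
def SepF (D : Finset (Finset I)) : Prop :=
  (∀ C ∈ D, ConnF nb C) ∧ ∀ C ∈ D, ∀ C' ∈ D, C ≠ C' → ∀ a ∈ C, ∀ b ∈ C', b ∉ nb a

variable {𝔸 : Type} [NormedRing 𝔸] [NormedAlgebra ℂ 𝔸]

/-- the cluster function -/
noncomputable def clF (h : I → 𝔸) (t : ℝ) (X : Finset I) : 𝔸 :=
  ∑ Y ∈ X.powerset, ((-1 : ℂ) ^ (X \ Y).card) • NormedSpace.exp ((-(t : ℂ)) • ∑ i ∈ Y, h i)

open Classical in
/-- the truncated cluster sum -/
noncomputable def clS (h : I → 𝔸) (t : ℝ) (m : ℕ) (A : Finset I) : 𝔸 :=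
  ∑ D ∈ (Finset.univ : Finset (Finset (Finset I))).filter
    (fun D => SepF nb D ∧ (∀ C ∈ D, C ⊆ A) ∧ ∀ C ∈ D, C.card ≤ m), clF h t (D.biUnion id)

end defs

end Pool.Agent.Hhelper68.CS
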