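import Pool.Agent.Hhelper17.PE.Mat
import Pool.Agent.Hhelper68.CS.Defs

/-!
Matrix part of the cluster sum.
* `sandwich_of_close` : if `T exp (t H / 2)` is close to `1` in the operator norm then `T Tᴴ` is close to `exp (-t H)` as a
  quadratic form;
* `clF_herm`, `clS_herm` : the cluster functions of Hermitian terms are Hermitian.
-/

set_option autoImplicit false
set_option linter.unusedSectionVars false

open scoped BigOperators Matrix.Norms.L2Operator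
open Matrix Pool.Agent.Hhelper96.PEPS Pool.Agent.Hhelper17.PE

namespace Pool.Agent.Hhelper68.CS

section mats

variable {n : Type} [Fintype n] [DecidableEq n]

theorem exp_add_half (H : Matrix n n ℂ) (a b : ℝ) :
    NormedSpace.exp ((a : ℂ) • H) * NormedSpace.exp ((b : ℂ) • H) = NormedSpace.exp (((a + b : ℝ) : ℂ) • H) := by
  rw [← Matrix.exp_add_of_commute _ _ (((Commute.refl H).smul_left (a : ℂ)).smul_right (b : ℂ)), ← add_smul]
  congr 2
  push_cast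
  rfl

theorem one_sub_sq_ge {η : ℝ} (h0 : 0 ≤ η) (h1 : η ≤ 1 / 2) : Real.exp (-(4 * η)) ≤ (1 - η) ^ 2 := by
  have h2 : Real.exp (-(2 * η)) ≤ 1 - η := by
    have h3 : (1 : ℝ) + 2 * η ≤ Real.exp (2 * η) := by
      have := Real.add_one_le_exp (2 * η)
      linarith
    rw [Real.exp_neg]
    have h4 : (0 : ℝ) < 1 + 2 * η := by linarith
    refine (inv_anti₀ h4 h3).trans ?_
    rw [inv_le_iff_one_le_mul₀ h4]
    nlinarith
  have h5 : Real.exp (-(4 * η)) = Real.exp (-(2 * η)) ^ 2 := by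
    rw [← Real.exp_nat_mul]
    congr 1
    push_cast
    ring
  rw [h5]
  exact pow_le_pow_left₀ (Real.exp_pos _).le h2 2

theorem one_add_sq_le {η : ℝ} (h0 : 0 ≤ η) : (1 + η) ^ 2 ≤ Real.exp (4 * η) := by
  have h2 : 1 + η ≤ Real.exp η := by
    have := Real.add_one_le_exp η
    linarith
  calc (1 + η) ^ 2 ≤ Real.exp η ^ 2 := pow_le_pow_left₀ (by linarith) h2 2
    _ = Real.exp (2 * η) := by
      rw [← Real.exp_nat_mul]
      congr 1
    _ ≤ _ := Real.exp_le_exp.2 (by linarith)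

/-- **the two-sided bound from closeness in the operator norm** -/
theorem sandwich_of_close {H T : Matrix n n ℂ} (hH : H.IsHermitian) (hT : T.IsHermitian) {t η : ℝ} (h0 : 0 ≤ η)
    (h1 : η ≤ 1 / 2) (h : ‖T * NormedSpace.exp (((t / 2 : ℝ) : ℂ) • H) - 1‖ ≤ η) (φ : n → ℂ) :
    Real.exp (-(4 * η)) * ex (NormedSpace.exp ((-t) • H)) φ ≤ ex (T * Tᴴ) φ ∧
      ex (T * Tᴴ) φ ≤ Real.exp (4 * η) * ex (NormedSpace.exp ((-t) • H)) φ := by
  obtain ⟨E, hE⟩ : ∃ E : Matrix n n ℂ, E = NormedSpace.exp (((t / 2 : ℝ) : ℂ) • H) := ⟨_, rfl⟩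
  obtain ⟨F, hF⟩ : ∃ F : Matrix n n ℂ, F = NormedSpace.exp (((-(t / 2) : ℝ) : ℂ) • H) := ⟨_, rfl⟩
  obtain ⟨Δ, hΔ⟩ : ∃ Δ : Matrix n n ℂ, Δ = T * E - 1 := ⟨_, rfl⟩
  rw [← hE, ← hΔ] at h
  have hEF : E * F = 1 := by
    rw [hE, hF, exp_add_half, add_neg_cancel, Complex.ofReal_zero, zero_smul, NormedSpace.exp_zero]
  have hFF : NormedSpace.exp ((-t) • H) = F * Fᴴ := by
    have e1 : Fᴴ = F := by
      rw [hF]
      exact exp_herm hH _
    rw [e1, hF, exp_add_half]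
    congr 1
    ext i j
    rw [Matrix.smul_apply, Matrix.smul_apply, Complex.real_smul, smul_eq_mul]
    congr 2
    ring
  have hTF : T = F + Δ * F := by
    rw [hΔ, sub_mul, mul_assoc, hEF]
    simp
  have hmv : ∀ ψ : n → ℂ, T.mulVec ψ = F.mulVec ψ + Δ.mulVec (F.mulVec ψ) := by
    intro ψ
    nth_rw 1 [hTF]
    rw [Matrix.add_mulVec, Matrix.mulVec_mulVec]
  have hN : ∀ ψ χ : n → ℂ, √(sqn (ψ + χ)) ≤ √(sqn ψ) + √(sqn χ) := by
    intro ψ χ
    rw [← norm_toLp_eq, ← norm_toLp_eq, ← norm_toLp_eq]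
    exact norm_add_le (WithLp.toLp 2 ψ : EuclideanSpace ℂ n) (WithLp.toLp 2 χ)
  have hneg : ∀ ψ : n → ℂ, √(sqn (-ψ)) = √(sqn ψ) := by
    intro ψ
    rw [← norm_toLp_eq, ← norm_toLp_eq]
    exact norm_neg (WithLp.toLp 2 ψ : EuclideanSpace ℂ n)
  obtain ⟨a, ha⟩ : ∃ a : ℝ, a = √(sqn (F.mulVec φ)) := ⟨_, rfl⟩
  obtain ⟨b, hb⟩ : ∃ b : ℝ, b = √(sqn (T.mulVec φ)) := ⟨_, rfl⟩
  have ha0 : 0 ≤ a := by rw [ha]; exact Real.sqrt_nonneg _
  have hb0 : 0 ≤ b := by rw [hb]; exact Real.sqrt_nonneg _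
  have hD : √(sqn (Δ.mulVec (F.mulVec φ))) ≤ η * a := by
    rw [ha]
    exact (sqrt_sqn_mulVec_le Δ _).trans (mul_le_mul_of_nonneg_right h (Real.sqrt_nonneg _))
  have hup : b ≤ (1 + η) * a := by
    have h3 := hN (F.mulVec φ) (Δ.mulVec (F.mulVec φ))
    rw [← hmv φ, ← hb, ← ha] at h3
    linarith
  have hdn : (1 - η) * a ≤ b := by
    have h3 := hN (T.mulVec φ) (-(Δ.mulVec (F.mulVec φ)))
    have h4 : T.mulVec φ + -(Δ.mulVec (F.mulVec φ)) = F.mulVec φ := by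
      rw [hmv φ]
      abel
    rw [h4, hneg, ← hb, ← ha] at h3
    linarith
  have e1 : ex (T * Tᴴ) φ = b ^ 2 := by
    rw [ex_mul_conj, hT.eq, hb, Real.sq_sqrt (sqn_nonneg _)]
  have e2 : ex (NormedSpace.exp ((-t) • H)) φ = a ^ 2 := by
    have e3 : Fᴴ = F := by
      rw [hF]
      exact exp_herm hH _
    rw [hFF, ex_mul_conj, e3, ha, Real.sq_sqrt (sqn_nonneg _)]
  rw [e1, e2]
  constructor
  · calc Real.exp (-(4 * η)) * a ^ 2 ≤ (1 - η) ^ 2 * a ^ 2 :=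
          mul_le_mul_of_nonneg_right (one_sub_sq_ge h0 h1) (sq_nonneg a)
      _ = ((1 - η) * a) ^ 2 := by ring
      _ ≤ b ^ 2 := pow_le_pow_left₀ (mul_nonneg (by linarith) ha0) hdn 2
  · calc b ^ 2 ≤ ((1 + η) * a) ^ 2 := pow_le_pow_left₀ hb0 hup 2
      _ = (1 + η) ^ 2 * a ^ 2 := by ring
      _ ≤ Real.exp (4 * η) * a ^ 2 := mul_le_mul_of_nonneg_right (one_add_sq_le h0) (sq_nonneg a)

variable {I : Type} [Fintype I] [DecidableEq I]

theorem herm_sum {ι : Type*} {s : Finset ι} {f : ι → Matrix n n ℂ} (hf : ∀ i ∈ s, (f i).IsHermitian) :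
    (∑ i ∈ s, f i).IsHermitian := by
  unfold Matrix.IsHermitian
  rw [Matrix.conjTranspose_sum]
  exact Finset.sum_congr rfl fun i hi => (hf i hi).eq

/-- the cluster functions of Hermitian terms -/
theorem clF_herm {h : I → Matrix n n ℂ} (hh : ∀ i, (h i).IsHermitian) (t : ℝ) (X : Finset I) :
    (clF h t X).IsHermitian := by
  unfold clF
  refine herm_sum fun Y _ => ?_
  have h1 : (∑ i ∈ Y, h i).IsHermitian := herm_sum fun i _ => hh i
  have h2 := exp_herm h1 (-t)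
  have e : ((-t : ℝ) : ℂ) = -(t : ℂ) := by push_cast; rfl
  rw [e] at h2
  unfold Matrix.IsHermitian
  rw [Matrix.conjTranspose_smul, h2, star_pow, star_neg, star_one]

/-- **the truncated cluster sum of Hermitian terms** -/
theorem clS_herm {h : I → Matrix n n ℂ} (hh : ∀ i, (h i).IsHermitian) (nb : I → Finset I) (t : ℝ) (m : ℕ)
    (A : Finset I) : (clS nb h t m A).IsHermitian := by
  unfold clS
  exact herm_sum fun D _ => clF_herm hh t _

end mats

end Pool.Agent.Hhelper68.CS
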