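import Pool.Agent.Hhelper68.CS.FamNet
import Pool.Agent.Hhelper68.CS.Defs
import Pool.Agent.Hhelper96.UB.Gates
import Pool.Agent.Hhelper96.PEPS.Local
import Mathlib.Analysis.CStarAlgebra.Matrix

/-!
Glue between the cluster sum and the operator networks: the cluster function of a set of local terms
acts on the support of the set, and the cluster function of a separated family factorizes.
-/

set_option autoImplicit false
set_option linter.unusedSectionVars false

open scoped BigOperators
open Matrix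

namespace Pool.Agent.Hhelper68.CS

open Pool.Agent.Hhelper96.PEPS

/-! ## operators on a set of sites -/

section act

variable {V : Type} [Fintype V] [DecidableEq V] {d : ℕ}

/-- the matrix `M` acts on the sites of `S` -/
def ActOn (S : Finset V) (M : Matrix (V → Fin d) (V → Fin d) ℂ) : Prop :=
  ∃ p : Matrix (S → Fin d) (S → Fin d) ℂ, M = opAt (fun x : S => (x : V)) p

variable {S S' : Finset V} {M M' : Matrix (V → Fin d) (V → Fin d) ℂ}

theorem inc_inj (S : Finset V) : Function.Injective (fun x : S => (x : V)) :=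
  Subtype.val_injective

theorem ActOn.add (h : ActOn S M) (h' : ActOn S M') : ActOn S (M + M') := by
  obtain ⟨p, rfl⟩ := h
  obtain ⟨q, rfl⟩ := h'
  exact ⟨p + q, (opAt_add _ p q).symm⟩

theorem ActOn.smul (h : ActOn S M) (c : ℂ) : ActOn S (c • M) := by
  obtain ⟨p, rfl⟩ := h
  exact ⟨c • p, (opAt_smul _ c p).symm⟩

theorem ActOn.mul (h : ActOn S M) (h' : ActOn S M') : ActOn S (M * M') := by
  obtain ⟨p, rfl⟩ := h
  obtain ⟨q, rfl⟩ := h'
  exact ⟨p * q, (opAt_mul (inc_inj S) p q).symm⟩

theorem ActOn.one : ActOn S (1 : Matrix (V → Fin d) (V → Fin d) ℂ) := ⟨1, (opAt_one (inc_inj S)).symm⟩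

theorem ActOn.zero : ActOn S (0 : Matrix (V → Fin d) (V → Fin d) ℂ) := by
  have h := (ActOn.one (S := S) (V := V) (d := d)).smul 0
  rwa [zero_smul] at h

theorem ActOn.sum {α : Type} (s : Finset α) {f : α → Matrix (V → Fin d) (V → Fin d) ℂ}
    (h : ∀ a ∈ s, ActOn S (f a)) : ActOn S (∑ a ∈ s, f a) := by
  classical
  induction s using Finset.induction_on with
  | empty => rw [Finset.sum_empty]; exact ActOn.zero
  | insert a s ha ih =>
    rw [Finset.sum_insert ha]
    exact (h a (Finset.mem_insert_self a s)).add (ih fun b hb => h b (Finset.mem_insert_of_mem hb))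

theorem ActOn.exp (h : ActOn S M) : ActOn S (NormedSpace.exp M) := by
  obtain ⟨p, rfl⟩ := h
  exact ⟨NormedSpace.exp p, exp_opAt (inc_inj S) p⟩

/-- an operator on the sites `κ t` acts on every set which contains them -/
theorem actOn_opAt {T : Type} [Fintype T] [DecidableEq T] {κ : T → V}
    (q : Matrix (T → Fin d) (T → Fin d) ℂ) (h : ∀ t, κ t ∈ S) : ActOn S (opAt κ q) := by
  refine ⟨opAt (fun t => (⟨κ t, h t⟩ : S)) q, ?_⟩
  ext s s'
  unfold opAt
  by_cases h1 : ∀ u, (∀ t, κ t ≠ u) → s u = s' u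
  · rw [if_pos h1, if_pos, if_pos]
    · rfl
    · intro x hx
      exact h1 x fun t ht => hx t (Subtype.ext ht)
    · intro u hu
      exact h1 u fun t ht => hu ⟨κ t, h t⟩ ht
  · rw [if_neg h1]
    by_cases h2 : ∀ u, (∀ t : S, (t : V) ≠ u) → s u = s' u
    · rw [if_pos h2, if_neg]
      intro h3
      apply h1
      intro u hu
      by_cases hS : u ∈ S
      · exact h3 ⟨u, hS⟩ fun t ht => hu t (congrArg Subtype.val ht)
      · exact h2 u fun t ht => hS (ht ▸ t.2)
    · rw [if_neg h2]

theorem ActOn.mono (h : ActOn S M) (hS : S ⊆ S') : ActOn S' M := by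
  obtain ⟨p, rfl⟩ := h
  exact actOn_opAt p fun t => hS t.2

theorem ActOn.zero_of (h : ActOn S M) {s s' : V → Fin d} {u : V} (hu : u ∉ S) (hne : s u ≠ s' u) :
    M s s' = 0 := by
  obtain ⟨p, rfl⟩ := h
  unfold opAt
  rw [if_neg]
  intro h1
  exact hne (h1 u fun t ht => hu (ht ▸ t.2))

theorem ActOn.congr (h : ActOn S M) {s s' t t' : V → Fin d} (h0 : ∀ u ∈ S, s u = t u ∧ s' u = t' u)
    (h1 : ∀ u, u ∉ S → s u = s' u) (h2 : ∀ u, u ∉ S → t u = t' u) : M s s' = M t t' := by
  obtain ⟨p, rfl⟩ := h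
  unfold opAt
  rw [if_pos, if_pos]
  · congr 1
    · funext x
      exact (h0 x x.2).1
    · funext x
      exact (h0 x x.2).2
  · intro u hu
    exact h2 u fun hS => hu ⟨u, hS⟩ rfl
  · intro u hu
    exact h1 u fun hS => hu ⟨u, hS⟩ rfl

/-- the configuration `s` on `S`, `s'` outside -/
def ov (S : Finset V) (s s' : V → Fin d) : V → Fin d := fun u => if u ∈ S then s u else s' u

theorem ov_mem {s s' : V → Fin d} {u : V} (hu : u ∈ S) : ov S s s' u = s u := if_pos hu

theorem ov_notMem {s s' : V → Fin d} {u : V} (hu : u ∉ S) : ov S s s' u = s' u := if_neg hu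

/-- product of operators on disjoint sets -/
theorem ActOn.mul_apply (h : ActOn S M) (h' : ActOn S' M') (hd : Disjoint S S') (s s' : V → Fin d) :
    (M * M') s s' = if ∀ u, u ∉ S ∪ S' → s u = s' u then
      M (ov S s s') s' * M' (ov S' s s') s' else 0 := by
  classical
  rw [Matrix.mul_apply, Finset.sum_eq_single (ov S' s s')]
  · by_cases h1 : ∀ u, u ∉ S ∪ S' → s u = s' u
    · rw [if_pos h1]
      congr 1
      refine h.congr (fun u hu => ⟨(ov_mem hu).symm, ov_notMem (Finset.disjoint_left.1 hd hu)⟩) ?_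
        fun u hu => ov_notMem hu
      intro u hu
      by_cases hu' : u ∈ S'
      · exact (ov_mem hu').symm
      · rw [ov_notMem hu']
        exact h1 u fun h2 => (Finset.mem_union.1 h2).elim hu hu'
    · rw [if_neg h1]
      push Not at h1
      obtain ⟨u, hu, hne⟩ := h1
      rw [Finset.mem_union, not_or] at hu
      rw [h.zero_of hu.1 (by rwa [ov_notMem hu.2]), zero_mul]
  · intro t _ ht
    obtain ⟨u, hu⟩ := Function.ne_iff.1 ht
    by_cases hu' : u ∈ S'
    · rw [ov_mem hu'] at hu
      rw [h.zero_of (Finset.disjoint_right.1 hd hu') hu.symm, zero_mul]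
    · rw [ov_notMem hu'] at hu
      rw [h'.zero_of hu' hu, mul_zero]
  · intro hn
    exact absurd (Finset.mem_univ _) hn

theorem ActOn.commute (h : ActOn S M) (h' : ActOn S' M') (hd : Disjoint S S') : Commute M M' := by
  ext s s'
  rw [h.mul_apply h' hd, h'.mul_apply h hd.symm, Finset.union_comm, mul_comm]

end act

/-! ## the cluster function of a set of local terms -/

section cl

variable {n I : Type} [Fintype n] [DecidableEq n] [DecidableEq I]

/-- the cluster function, for matrices -/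
noncomputable def clM (h : I → Matrix n n ℂ) (t : ℝ) (X : Finset I) : Matrix n n ℂ :=
  ∑ Y ∈ X.powerset, ((-1 : ℂ) ^ (X \ Y).card) • NormedSpace.exp ((-(t : ℂ)) • ∑ i ∈ Y, h i)

theorem clM_empty (h : I → Matrix n n ℂ) (t : ℝ) : clM h t ∅ = 1 := by
  unfold clM
  rw [Finset.powerset_empty, Finset.sum_singleton, Finset.sdiff_self, Finset.card_empty, pow_zero,
    one_smul, Finset.sum_empty, smul_zero, NormedSpace.exp_zero]

/-- factorization -/
theorem clM_union (h : I → Matrix n n ℂ) (t : ℝ) {X Z : Finset I} (hd : Disjoint X Z)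
    (hc : ∀ i ∈ X, ∀ j ∈ Z, Commute (h i) (h j)) : clM h t (X ∪ Z) = clM h t X * clM h t Z := by
  unfold clM
  rw [Finset.sum_mul_sum, ← Finset.sum_product']
  symm
  refine Finset.sum_bij' (fun y _ => y.1 ∪ y.2) (fun Y _ => (Y ∩ X, Y ∩ Z)) ?_ ?_ ?_ ?_ ?_
  · intro y hy
    simp only [Finset.mem_product, Finset.mem_powerset] at hy ⊢
    exact Finset.union_subset_union hy.1 hy.2
  · intro Y hY
    simp only [Finset.mem_product, Finset.mem_powerset] at hY ⊢
    exact ⟨Finset.inter_subset_right, Finset.inter_subset_right⟩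
  · intro y hy
    simp only [Finset.mem_product, Finset.mem_powerset] at hy
    refine Prod.ext ?_ ?_
    · simp only
      ext a
      simp only [Finset.mem_inter, Finset.mem_union]
      constructor
      · rintro ⟨h1 | h1, h2⟩
        · exact h1
        · exact absurd (hy.2 h1) (Finset.disjoint_left.1 hd h2)
      · exact fun h1 => ⟨Or.inl h1, hy.1 h1⟩
    · simp only
      ext a
      simp only [Finset.mem_inter, Finset.mem_union]
      constructor
      · rintro ⟨h1 | h1, h2⟩
        · exact absurd h2 (Finset.disjoint_left.1 hd (hy.1 h1))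
        · exact h1
      · exact fun h1 => ⟨Or.inr h1, hy.2 h1⟩
  · intro Y hY
    simp only [Finset.mem_powerset] at hY
    simp only
    rw [← Finset.inter_union_distrib_left]
    exact Finset.inter_eq_left.2 hY
  · intro y hy
    simp only [Finset.mem_product, Finset.mem_powerset] at hy
    obtain ⟨h1, h2⟩ := hy
    have e1 : (X ∪ Z) \ (y.1 ∪ y.2) = (X \ y.1) ∪ (Z \ y.2) := by
      ext a
      simp only [Finset.mem_sdiff, Finset.mem_union, not_or]
      constructor
      · rintro ⟨h3 | h3, h4, h5⟩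
        · exact Or.inl ⟨h3, h4⟩
        · exact Or.inr ⟨h3, h5⟩
      · rintro (⟨h3, h4⟩ | ⟨h3, h4⟩)
        · exact ⟨Or.inl h3, h4, fun h5 => Finset.disjoint_left.1 hd h3 (h2 h5)⟩
        · exact ⟨Or.inr h3, fun h5 => Finset.disjoint_left.1 hd (h1 h5) h3, h4⟩
    have hd1 : Disjoint (X \ y.1) (Z \ y.2) :=
      Finset.disjoint_of_subset_left Finset.sdiff_subset
        (Finset.disjoint_of_subset_right Finset.sdiff_subset hd)
    have hd2 : Disjoint y.1 y.2 :=
      Finset.disjoint_of_subset_left h1 (Finset.disjoint_of_subset_right h2 hd)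
    have hcm : Commute ((-(t : ℂ)) • ∑ i ∈ y.1, h i) ((-(t : ℂ)) • ∑ i ∈ y.2, h i) := by
      refine Commute.smul_left (Commute.smul_right ?_ _) _
      exact Commute.sum_left _ _ _ fun i hi => Commute.sum_right _ _ _ fun j hj => hc i (h1 hi) j (h2 hj)
    rw [e1, Finset.card_union_of_disjoint hd1, Finset.sum_union hd2, smul_add,
      Matrix.exp_add_of_commute _ _ hcm, pow_add, smul_mul_smul_comm]

end cl

section fam

variable {V I : Type} [Fintype V] [DecidableEq V] [Fintype I] [DecidableEq I] {d : ℕ}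
  {nb : I → Finset I} {sp : I → Finset V} {h : I → Matrix (V → Fin d) (V → Fin d) ℂ}

/-- the support of a set of indices -/
def suppC (sp : I → Finset V) (C : Finset I) : Finset V := C.biUnion sp

theorem mem_suppC {C : Finset I} {u : V} : u ∈ suppC sp C ↔ ∃ i ∈ C, u ∈ sp i := Finset.mem_biUnion

/-- the cluster function acts on the support -/
theorem clM_act (hact : ∀ i, ActOn (sp i) (h i)) (t : ℝ) (C : Finset I) :
    ActOn (suppC sp C) (clM h t C) := by
  unfold clM
  refine ActOn.sum _ fun Y hY => (ActOn.exp (ActOn.smul (ActOn.sum _ fun i hi => ?_) _)).smul _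
  exact (hact i).mono fun u hu => mem_suppC.2 ⟨i, Finset.mem_powerset.1 hY hi, hu⟩

/-- the factor of a cluster -/
noncomputable def gC (sp : I → Finset V) (h : I → Matrix (V → Fin d) (V → Fin d) ℂ) (t : ℝ)
    (C : Finset I) (s s' : V → Fin d) : ℂ := clM h t C (ov (suppC sp C) s s') s'

/-- the factor of a cluster depends only on the configurations on its support -/
theorem gC_congr (hact : ∀ i, ActOn (sp i) (h i)) (t : ℝ) (C : Finset I) {s s' r r' : V → Fin d}
    (hs : ∀ u ∈ suppC sp C, s u = r u ∧ s' u = r' u) : gC sp h t C s s' = gC sp h t C r r' := by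
  unfold gC
  refine (clM_act hact t C).congr (fun u hu => ?_) (fun u hu => ov_notMem hu) fun u hu => ov_notMem hu
  rw [ov_mem hu, ov_mem hu]
  exact hs u hu

/-- supports of a separated family -/
theorem sep_disjoint (hnb : ∀ a b, b ∉ nb a → Disjoint (sp a) (sp b)) {D : Finset (Finset I)}
    (hD : SepF nb D) {C C' : Finset I} (hC : C ∈ D) (hC' : C' ∈ D) (hne : C ≠ C') :
    Disjoint (suppC sp C) (suppC sp C') := by
  rw [Finset.disjoint_left]
  intro u hu hu'
  obtain ⟨a, ha, hua⟩ := mem_suppC.1 hu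
  obtain ⟨b, hb, hub⟩ := mem_suppC.1 hu'
  exact Finset.disjoint_left.1 (hnb a b (hD.2 C hC C' hC' hne a ha b hb)) hua hub

/-- **the cluster function of a separated family** -/
theorem clM_fam (hself : ∀ i, i ∈ nb i) (hnb : ∀ a b, b ∉ nb a → Disjoint (sp a) (sp b))
    (hact : ∀ i, ActOn (sp i) (h i)) (t : ℝ) {D : Finset (Finset I)} (hD : SepF nb D)
    (s s' : V → Fin d) : clM h t (D.biUnion id) s s' =
      if ∀ u, (∀ C ∈ D, u ∉ suppC sp C) → s u = s' u then ∏ C ∈ D, gC sp h t C s s' else 0 := by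
  classical
  induction D using Finset.induction_on generalizing s with
  | empty =>
    rw [Finset.biUnion_empty, clM_empty, Finset.prod_empty]
    by_cases hs : s = s'
    · subst hs
      rw [Matrix.one_apply_eq, if_pos fun _ _ => rfl]
    · rw [Matrix.one_apply_ne hs, if_neg]
      exact fun h1 => hs (funext fun u => h1 u fun C hC => absurd hC (Finset.notMem_empty C))
  | insert C D hCD ih =>
    have hD' : SepF nb D := ⟨fun A hA => hD.1 A (Finset.mem_insert_of_mem hA),
      fun A hA B hB => hD.2 A (Finset.mem_insert_of_mem hA) B (Finset.mem_insert_of_mem hB)⟩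
    have hsep : ∀ a ∈ C, ∀ b ∈ D.biUnion id, b ∉ nb a := by
      intro a ha b hb
      obtain ⟨A, hA, hbA⟩ := Finset.mem_biUnion.1 hb
      refine hD.2 C (Finset.mem_insert_self C D) A (Finset.mem_insert_of_mem hA) ?_ a ha b hbA
      rintro rfl
      exact hCD hA
    have hdI : Disjoint C (D.biUnion id) :=
      Finset.disjoint_left.2 fun a ha hb => hsep a ha a hb (hself a)
    have hcm : ∀ i ∈ C, ∀ j ∈ D.biUnion id, Commute (h i) (h j) := fun i hi j hj =>
      (hact i).commute (hact j) (hnb i j (hsep i hi j hj))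
    have hdS : Disjoint (suppC sp C) (suppC sp (D.biUnion id)) := by
      rw [Finset.disjoint_left]
      intro u hu hu'
      obtain ⟨a, ha, hua⟩ := mem_suppC.1 hu
      obtain ⟨b, hb, hub⟩ := mem_suppC.1 hu'
      exact Finset.disjoint_left.1 (hnb a b (hsep a ha b hb)) hua hub
    have hsub : ∀ A ∈ D, suppC sp A ⊆ suppC sp (D.biUnion id) := by
      intro A hA u hu
      obtain ⟨a, ha, hua⟩ := mem_suppC.1 hu
      exact mem_suppC.2 ⟨a, Finset.mem_biUnion.2 ⟨A, hA, ha⟩, hua⟩
    rw [Finset.biUnion_insert, id, clM_union h t hdI hcm,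
      (clM_act hact t C).mul_apply (clM_act hact t _) hdS]
    have e1 : (∀ u, u ∉ suppC sp C ∪ suppC sp (D.biUnion id) → s u = s' u) ↔
        ∀ u, (∀ A ∈ insert C D, u ∉ suppC sp A) → s u = s' u := by
      refine forall_congr' fun u => ?_
      have e2 : u ∉ suppC sp C ∪ suppC sp (D.biUnion id) ↔ ∀ A ∈ insert C D, u ∉ suppC sp A := by
        rw [Finset.mem_union, not_or]
        constructor
        · rintro ⟨h1, h2⟩ A hA
          rcases Finset.mem_insert.1 hA with rfl | hA
          · exact h1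
          · exact fun h3 => h2 (hsub A hA h3)
        · intro h1
          refine ⟨h1 C (Finset.mem_insert_self C D), fun h2 => ?_⟩
          obtain ⟨a, ha, hua⟩ := mem_suppC.1 h2
          obtain ⟨A, hA, haA⟩ := Finset.mem_biUnion.1 ha
          exact h1 A (Finset.mem_insert_of_mem hA) (mem_suppC.2 ⟨a, haA, hua⟩)
      rw [e2]
    by_cases h1 : ∀ u, u ∉ suppC sp C ∪ suppC sp (D.biUnion id) → s u = s' u
    · rw [if_pos h1, if_pos (e1.1 h1), Finset.prod_insert hCD, ih hD' (ov (suppC sp (D.biUnion id)) s s'),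
        if_pos]
      · congr 1
        refine Finset.prod_congr rfl fun A hA => gC_congr hact t A fun u hu => ⟨?_, rfl⟩
        exact ov_mem (hsub A hA hu)
      · intro u hu
        refine ov_notMem fun h2 => ?_
        obtain ⟨a, ha, hua⟩ := mem_suppC.1 h2
        obtain ⟨A, hA, haA⟩ := Finset.mem_biUnion.1 ha
        exact hu A hA (mem_suppC.2 ⟨a, haA, hua⟩)
    · rw [if_neg h1, if_neg fun h2 => h1 (e1.2 h2)]

open Classical in
/-- the truncated cluster sum, for matrices -/
noncomputable def clSM (nb : I → Finset I) (h : I → Matrix (V → Fin d) (V → Fin d) ℂ) (t : ℝ) (m : ℕ)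
    (A : Finset I) : Matrix (V → Fin d) (V → Fin d) ℂ :=
  ∑ D ∈ (Finset.univ : Finset (Finset (Finset I))).filter
    (fun D => SepF nb D ∧ (∀ C ∈ D, C ⊆ A) ∧ ∀ C ∈ D, C.card ≤ m), clM h t (D.biUnion id)

open Classical in
/-- **the truncated cluster sum as a sum over families of clusters with disjoint supports** -/
theorem clSM_apply (hself : ∀ i, i ∈ nb i) (hnb : ∀ a b, b ∉ nb a ↔ Disjoint (sp a) (sp b))
    (hact : ∀ i, ActOn (sp i) (h i)) (t : ℝ) (m : ℕ) (A : Finset I) (s s' : V → Fin d) :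
    clSM nb h t m A s s' =
      ∑ D ∈ (Finset.univ : Finset (Finset {C : Finset I // ConnF nb C ∧ C ⊆ A ∧ C.card ≤ m})).filter
        (fun D => ∀ i ∈ D, ∀ j ∈ D, i ≠ j → Disjoint (suppC sp i.1) (suppC sp j.1)),
      if ∀ u, (∀ i ∈ D, u ∉ suppC sp i.1) → s u = s' u then ∏ i ∈ D, gC sp h t i.1 s s' else 0 := by
  unfold clSM
  rw [Matrix.sum_apply]
  symm
  refine Finset.sum_bij (fun D _ => D.map (Function.Embedding.subtype _)) ?_ ?_ ?_ ?_
  · intro D hD
    simp only [Finset.mem_filter, Finset.mem_univ, true_and] at hD ⊢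
    refine ⟨⟨?_, ?_⟩, ?_, ?_⟩
    · intro C hC
      obtain ⟨x, -, rfl⟩ := Finset.mem_map.1 hC
      exact x.2.1
    · intro C hC C' hC' hne a ha b hb hab
      obtain ⟨x, hx, rfl⟩ := Finset.mem_map.1 hC
      obtain ⟨x', hx', rfl⟩ := Finset.mem_map.1 hC'
      have h1 := hD x hx x' hx' fun e => hne (by rw [e])
      have h2 : Disjoint (sp a) (sp b) := by
        rw [Finset.disjoint_left] at h1 ⊢
        exact fun u hu hu' => h1 (mem_suppC.2 ⟨a, ha, hu⟩) (mem_suppC.2 ⟨b, hb, hu'⟩)
      exact (hnb a b).2 h2 hab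
    · intro C hC
      obtain ⟨x, -, rfl⟩ := Finset.mem_map.1 hC
      exact x.2.2.1
    · intro C hC
      obtain ⟨x, -, rfl⟩ := Finset.mem_map.1 hC
      exact x.2.2.2
  · intro D _ D' _ e
    exact Finset.map_injective _ e
  · intro D hD
    simp only [Finset.mem_filter, Finset.mem_univ, true_and] at hD
    obtain ⟨h1, h2, h3⟩ := hD
    refine ⟨D.subtype _, ?_, ?_⟩
    · simp only [Finset.mem_filter, Finset.mem_univ, true_and]
      intro x hx x' hx' hne
      refine sep_disjoint (fun a b => (hnb a b).1) h1 (Finset.mem_subtype.1 hx) (Finset.mem_subtype.1 hx') ?_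
      exact fun e => hne (Subtype.ext e)
    · refine Finset.subtype_map_of_mem fun C hC => ⟨h1.1 C hC, h2 C hC, h3 C hC⟩
  · intro D hD
    simp only [Finset.mem_filter, Finset.mem_univ, true_and] at hD
    have hS : SepF nb (D.map (Function.Embedding.subtype _)) := by
      refine ⟨?_, ?_⟩
      · intro C hC
        obtain ⟨x, -, rfl⟩ := Finset.mem_map.1 hC
        exact x.2.1
      · intro C hC C' hC' hne a ha b hb hab
        obtain ⟨x, hx, rfl⟩ := Finset.mem_map.1 hC
        obtain ⟨x', hx', rfl⟩ := Finset.mem_map.1 hC'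
        have h1 := hD x hx x' hx' fun e => hne (by rw [e])
        have h2 : Disjoint (sp a) (sp b) := by
          rw [Finset.disjoint_left] at h1 ⊢
          exact fun u hu hu' => h1 (mem_suppC.2 ⟨a, ha, hu⟩) (mem_suppC.2 ⟨b, hb, hu'⟩)
        exact (hnb a b).2 h2 hab
    rw [clM_fam hself (fun a b => (hnb a b).1) hact t hS, Finset.prod_map]
    have e : (∀ u, (∀ i ∈ D, u ∉ suppC sp i.1) → s u = s' u) ↔
        ∀ u, (∀ C ∈ D.map (Function.Embedding.subtype _), u ∉ suppC sp C) → s u = s' u := by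
      refine forall_congr' fun u => ?_
      rw [Finset.forall_mem_map]
      rfl
    by_cases h1 : ∀ u, (∀ i ∈ D, u ∉ suppC sp i.1) → s u = s' u
    · rw [if_pos h1, if_pos (e.1 h1)]
      rfl
    · rw [if_neg h1, if_neg fun h2 => h1 (e.2 h2)]

end fam

/-! ## bridge to the L2 operator norm -/

section bridge

variable {V I : Type} [Fintype V] [DecidableEq V] [Fintype I] [DecidableEq I] {d : ℕ}

open scoped Matrix.Norms.L2Operator in
theorem clF_eq_clM (h : I → Matrix (V → Fin d) (V → Fin d) ℂ) (t : ℝ) (X : Finset I) :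
    clF h t X = clM h t X := rfl

open scoped Matrix.Norms.L2Operator in
theorem clS_eq_clSM (nb : I → Finset I) (h : I → Matrix (V → Fin d) (V → Fin d) ℂ) (t : ℝ) (m : ℕ)
    (A : Finset I) : clS nb h t m A = clSM nb h t m A := rfl

end bridge

/-! ## the torus -/

section torus

variable {N d : ℕ} [NeZero N]

/-- the window of a site -/
noncomputable def spW (N : ℕ) (Bx : Finset (ℤ × ℤ)) (v : Site N) : Finset (Site N) :=
  Bx.image (place N v)

theorem nb_iff (Bx : Finset (ℤ × ℤ)) (a b : Site N) :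
    b ∉ nb N Bx Bx a ↔ Disjoint (spW N Bx a) (spW N Bx b) := by
  unfold nb spW
  simp only [Finset.mem_filter, Finset.mem_univ, true_and, Finset.disjoint_left, Finset.mem_image]
  constructor
  · rintro h u ⟨x, hx, rfl⟩ ⟨y, hy, hxy⟩
    exact h ⟨y, hy, x, hx, hxy⟩
  · rintro h ⟨x, hx, y, hy, hxy⟩
    exact h ⟨y, hy, rfl⟩ ⟨x, hx, hxy⟩

theorem nb_self {Bx : Finset (ℤ × ℤ)} (hB : Bx.Nonempty) (v : Site N) : v ∈ nb N Bx Bx v := by
  obtain ⟨x, hx⟩ := hB
  unfold nb
  simp only [Finset.mem_filter, Finset.mem_univ, true_and]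
  exact ⟨x, hx, x, hx, rfl⟩

theorem act_localTerm {R Bx : Finset (ℤ × ℤ)} (hR : R ⊆ Bx) (K : Matrix (R → Fin d) (R → Fin d) ℂ)
    (v : Site N) : ActOn (spW N Bx v) (localTerm N R K v) := by
  rw [localTerm_eq_opAt]
  exact actOn_opAt K fun p => Finset.mem_image.2 ⟨p, hR p.2, rfl⟩

open Classical in
/-- **the truncated cluster sum of the torus is an operator network** -/
theorem opNet_clSM {R Bx : Finset (ℤ × ℤ)} (hB : Bx.Nonempty) (hR : R ⊆ Bx)
    (K : Matrix (R → Fin d) (R → Fin d) ℂ) (t : ℝ) (m : ℕ) (A : Finset (Site N)) (hd : 1 ≤ d)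
    (hconn : ∀ C, ConnF (nb N Bx Bx) C → LatConn (suppC (spW N Bx) C)) {k c : ℕ}
    (hk : ∀ u, ((Finset.univ : Finset (Finset (Site N))).filter (fun C =>
      (ConnF (nb N Bx Bx) C ∧ C ⊆ A ∧ C.card ≤ m) ∧ u ∈ suppC (spW N Bx) C)).card ≤ k)
    (hc : ∀ C, ConnF (nb N Bx Bx) C → C.card ≤ m → (suppC (spW N Bx) C).card ≤ c) :
    OpNet (1 + k * (d ^ c * d ^ c)) (clSM (nb N Bx Bx) (fun v => localTerm N R K v) t m A) := by
  have hact : ∀ v, ActOn (spW N Bx v) (localTerm N R K v) := act_localTerm hR K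
  refine opNet_families (ι := {C : Finset (Site N) // ConnF (nb N Bx Bx) C ∧ C ⊆ A ∧ C.card ≤ m})
    (fun i => suppC (spW N Bx) i.1) (fun i => hconn i.1 i.2.1)
    (fun i s s' => gC (spW N Bx) (fun v => localTerm N R K v) t i.1 s s')
    (fun i s s' r r' hs => gC_congr hact t i.1 hs) k c ?_ (fun i => hc i.1 i.2.1 i.2.2.2) hd _ ?_
  · intro u
    refine le_trans (le_of_eq ?_) (hk u)
    rw [← Finset.card_map (Function.Embedding.subtype _)]
    congr 1
    ext C
    simp only [Finset.mem_map, Finset.mem_filter, Finset.mem_univ, true_and, Function.Embedding.subtype_apply]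
    constructor
    · rintro ⟨x, hx, rfl⟩
      exact ⟨x.2, hx⟩
    · rintro ⟨h1, h2⟩
      exact ⟨⟨C, h1⟩, h2, rfl⟩
  · intro s s'
    exact clSM_apply (nb_self hB) (nb_iff Bx) hact t m A s s'

end torus

end Pool.Agent.Hhelper68.CS
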