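import Pool.Agent.Hhelper68.CS.OpNet
import Pool.Agent.Hhelper96.UB.Hsq

/-!
Interface between the truncated cluster sum and the approximation of the marginals.
-/

set_option autoImplicit false

open scoped BigOperators
open Matrix

namespace Pool.Agent.Hhelper96.PEPS

/-- The interface: on the torus of side `N`, with `N ^ 2 ≤ 2 ^ m`, the operator `exp (-τ H)` of a
translation invariant Hamiltonian with terms in an `r × r` box is approximated, up to a factor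
`exp (± C N ^ 2 / 2 ^ m)`, by `T Tᴴ`, where `T` is a label network with `κ ^ m` labels per site. -/
def LabNet (d r κ : ℕ) : Prop :=
  ∃ (τ C : ℝ), 0 < τ ∧ 0 ≤ C ∧
    ∀ (N m : ℕ) [NeZero N], r ≤ N → 3 ≤ m → N * N ≤ 2 ^ m →
    ∀ (R : Finset (ℤ × ℤ)) (a b : ℤ),
    (∀ p ∈ R, a ≤ p.1 ∧ p.1 < a + r ∧ b ≤ p.2 ∧ p.2 < b + r) →
    ∀ (K : Matrix (R → Fin d) (R → Fin d) ℂ), K.IsHermitian → hsq K ≤ 1 →
    ∃ T : Matrix (Site N → Fin d) (Site N → Fin d) ℂ,
      (∀ φ : (Site N → Fin d) → ℂ,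
        Real.exp (-(C * (N : ℝ) ^ 2 / 2 ^ m)) *
            ex (NormedSpace.exp ((-τ) • hamiltonian N R K)) φ ≤ ex (T * Tᴴ) φ ∧
        ex (T * Tᴴ) φ ≤ Real.exp (C * (N : ℝ) ^ 2 / 2 ^ m) *
            ex (NormedSpace.exp ((-τ) • hamiltonian N R K)) φ) ∧
      OpNet (κ ^ m) T

/-- the number of labels of `(T Tᴴ) ^ q` -/
def labN (d κ m q : ℕ) : ℕ := (d * κ ^ m) ^ (2 * q)

theorem OpNet.labN {N d κ m : ℕ} [NeZero N] {T : Matrix (Site N → Fin d) (Site N → Fin d) ℂ}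
    (h : OpNet (κ ^ m) T) (q : ℕ) (x : Site N → Fin d) :
    ∃ W : Site N → Fin d → Fin (labN d κ m q) → Fin (labN d κ m q) → Fin (labN d κ m q) → ℂ,
      Hhelper96.PEPS.netT W = ((T * Tᴴ) ^ q).mulVec (Pi.single x 1) :=
  (h.pow_mul_conj q).netT x

end Pool.Agent.Hhelper96.PEPS
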