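import Pool.Agent.Hhelper68.CS.Defs

/-!
Number of the connected sets of a given size through a given element: every set `C` is seen by the
subsets `ω` with `ω ∩ (C ∪ nb C) = C`, and different connected sets through `i` are seen by different
subsets.
-/

set_option autoImplicit false
set_option linter.unusedSectionVars false

open Finset

namespace Pool.Agent.Hhelper68.CS

variable {I : Type} [Fintype I] [DecidableEq I]

/-- connected sets: nonempty, and every nonempty part which is closed under `nb` inside the set is the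
set -/
def Conn (nb : I → Finset I) (C : Finset I) : Prop :=
  C.Nonempty ∧ ∀ A : Finset I, A ⊆ C → A.Nonempty → (∀ a ∈ A, ∀ b ∈ C, b ∈ nb a → b ∈ A) → A = C

/-- the set and its neighbours -/
def hull (nb : I → Finset I) (C : Finset I) : Finset I := C ∪ C.biUnion nb

theorem subset_hull (nb : I → Finset I) (C : Finset I) : C ⊆ hull nb C := subset_union_left

theorem nb_hull {nb : I → Finset I} {C : Finset I} {a b : I} (ha : a ∈ C) (hb : b ∈ nb a) : b ∈ hull nb C :=
  mem_union_right _ (mem_biUnion.2 ⟨a, ha, hb⟩)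

/-- two connected sets with a common element which are cut out by the same set are equal -/
theorem Conn.eq_of {nb : I → Finset I} {C C' ω : Finset I} (hC : Conn nb C) (hC' : Conn nb C') {i : I}
    (hi : i ∈ C) (hi' : i ∈ C') (h : ω ∩ hull nb C = C) (h' : ω ∩ hull nb C' = C') : C = C' := by
  have key : ∀ {C C' : Finset I}, Conn nb C → i ∈ C → i ∈ C' → ω ∩ hull nb C = C →
      ω ∩ hull nb C' = C' → C ∩ C' = C := by
    intro C C' hC hi hi' h h'
    refine hC.2 _ inter_subset_left ⟨i, mem_inter.2 ⟨hi, hi'⟩⟩ ?_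
    intro a ha b hb hab
    refine mem_inter.2 ⟨hb, ?_⟩
    rw [← h']
    refine mem_inter.2 ⟨?_, nb_hull (mem_inter.1 ha).2 hab⟩
    rw [← h] at hb
    exact (mem_inter.1 hb).1
  have e1 := key hC hi hi' h h'
  have e2 := key hC' hi' hi h' h
  rw [← e1, inter_comm, e2]

theorem card_hull_le {nb : I → Finset I} {z : ℕ} (hz : ∀ i, (nb i).card ≤ z) {C : Finset I}
    (hC : Conn nb C) (hn : 2 ≤ C.card) : (hull nb C).card ≤ z * C.card := by
  have h1 : hull nb C = C.biUnion nb := by
    unfold hull
    rw [union_eq_right]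
    intro x hx
    by_contra hcon
    have hno : ∀ y ∈ C, x ∉ nb y := fun y hy hxy => hcon (mem_biUnion.2 ⟨y, hy, hxy⟩)
    have hne : (C.erase x).Nonempty := by
      rw [← card_pos, card_erase_of_mem hx]
      omega
    have h2 := hC.2 (C.erase x) (erase_subset _ _) hne (by
      intro a ha b hb hab
      refine mem_erase.2 ⟨?_, hb⟩
      rintro rfl
      exact hno a (mem_erase.1 ha).2 hab)
    rw [← h2] at hx
    exact (notMem_erase x C) hx
  rw [h1]
  refine card_biUnion_le.trans ?_
  rw [mul_comm]
  exact (sum_le_card_nsmul _ _ z fun y _ => hz y).trans (le_of_eq (smul_eq_mul _ _))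

open Classical in
/-- **the number of connected sets** -/
theorem count_conn {nb : I → Finset I} {z : ℕ} (hz : ∀ i, (nb i).card ≤ z) (i : I) (n : ℕ) :
    ((univ : Finset (Finset I)).filter fun C => Conn nb C ∧ C.card = n ∧ i ∈ C).card ≤ 2 ^ (z * n) := by
  set F := (univ : Finset (Finset I)).filter fun C => Conn nb C ∧ C.card = n ∧ i ∈ C with hF
  have hmem : ∀ C ∈ F, Conn nb C ∧ C.card = n ∧ i ∈ C := fun C hC => (mem_filter.1 hC).2
  rcases Nat.lt_or_ge n 2 with hn | hn
  · -- at most one set
    have h1 : F.card ≤ 1 := by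
      rw [card_le_one]
      intro A hA B hB
      have e : ∀ C ∈ F, C = {i} := by
        intro C hC
        obtain ⟨-, h2, h3⟩ := hmem C hC
        have h4 : C.card ≤ 1 := by omega
        exact eq_singleton_iff_unique_mem.2 ⟨h3, fun x hx => card_le_one.1 h4 x hx i h3⟩
      rw [e A hA, e B hB]
    exact h1.trans Nat.one_le_two_pow
  · let Ω : Finset I → Finset (Finset I) := fun C => ((univ \ hull nb C).powerset).image fun η => C ∪ η
    have hΩ : ∀ C : Finset I, ∀ ω ∈ Ω C, ω ∩ hull nb C = C := by
      intro C ω hω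
      obtain ⟨η, hη, rfl⟩ := mem_image.1 hω
      rw [mem_powerset] at hη
      rw [union_inter_distrib_right, inter_eq_left.2 (subset_hull nb C)]
      have h2 : η ∩ hull nb C = ∅ := by
        rw [← disjoint_iff_inter_eq_empty]
        exact disjoint_of_subset_left hη sdiff_disjoint
      rw [h2, union_empty]
    have hcard : ∀ C ∈ F, 2 ^ (Fintype.card I - z * n) ≤ (Ω C).card := by
      intro C hC
      obtain ⟨h2, h3, h4⟩ := hmem C hC
      have h5 := card_hull_le hz h2 (by omega)
      rw [h3] at h5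
      have h6 : (Ω C).card = 2 ^ (univ \ hull nb C).card := by
        rw [← card_powerset]
        refine card_image_of_injOn ?_
        intro η hη η' hη' he
        have h7 : ∀ ζ ∈ (univ \ hull nb C).powerset, (C ∪ ζ) \ C = ζ := by
          intro ζ hζ
          rw [union_sdiff_left]
          rw [mem_powerset] at hζ
          refine sdiff_eq_self_of_disjoint ?_
          exact disjoint_of_subset_left hζ (disjoint_of_subset_right (subset_hull nb C) sdiff_disjoint)
        have he' : C ∪ η = C ∪ η' := he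
        rw [← h7 η hη, ← h7 η' hη', he']
      rw [h6]
      refine Nat.pow_le_pow_right (by norm_num) ?_
      have h8 := card_sdiff_add_card_eq_card (subset_univ (hull nb C))
      rw [card_univ] at h8
      omega
    have hdisj : (F : Set (Finset I)).PairwiseDisjoint Ω := by
      intro C hC C' hC' hne
      rw [Function.onFun, disjoint_left]
      intro ω hω hω'
      obtain ⟨a1, -, a3⟩ := hmem C hC
      obtain ⟨b1, -, b3⟩ := hmem C' hC'
      exact hne (a1.eq_of b1 a3 b3 (hΩ C ω hω) (hΩ C' ω hω'))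
    have h2 : F.card * 2 ^ (Fintype.card I - z * n) ≤ 2 ^ Fintype.card I := by
      calc F.card * 2 ^ (Fintype.card I - z * n) ≤ ∑ C ∈ F, (Ω C).card := by
            rw [← smul_eq_mul]
            exact card_nsmul_le_sum _ _ _ hcard
        _ = (F.biUnion Ω).card := (card_biUnion hdisj).symm
        _ ≤ (univ : Finset (Finset I)).card := card_le_card (subset_univ _)
        _ = 2 ^ Fintype.card I := by rw [card_univ, Fintype.card_finset]
    rcases Nat.le_total (z * n) (Fintype.card I) with h3 | h3
    · have h4 : 2 ^ Fintype.card I = 2 ^ (z * n) * 2 ^ (Fintype.card I - z * n) := by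
        rw [← pow_add, Nat.add_sub_cancel' h3]
      rw [h4] at h2
      exact Nat.le_of_mul_le_mul_right h2 (by positivity)
    · rw [Nat.sub_eq_zero_of_le h3, pow_zero, mul_one] at h2
      exact h2.trans (Nat.pow_le_pow_right (by norm_num) h3)

open Classical in
/-- the number of connected sets, in the notation of `Defs` -/
theorem card_conn {nb : I → Finset I} {z : ℕ} (hz : ∀ i, (nb i).card ≤ z) (i : I) (n : ℕ) :
    ((univ : Finset (Finset I)).filter fun C => ConnF nb C ∧ C.card = n ∧ i ∈ C).card ≤ 2 ^ (z * n) :=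
  count_conn hz i n

open Classical in
/-- the sum over the big connected sets -/
theorem count_sum {nb : I → Finset I} {z : ℕ} (hz : ∀ i, (nb i).card ≤ z) {x : ℝ} (hx0 : 0 ≤ x)
    (hx : 2 ^ z * x ≤ 1 / 4) (m : ℕ) :
    ∑ C ∈ (univ : Finset (Finset I)).filter (fun C => ConnF nb C ∧ m < C.card), x ^ C.card
      ≤ (Fintype.card I : ℝ) / 4 ^ m := by
  set N := Fintype.card I with hN
  have h1 : ∀ C ∈ (univ : Finset (Finset I)).filter (fun C => ConnF nb C ∧ m < C.card),
      x ^ C.card ≤ ∑ i : I, ∑ n ∈ Ioc m N, if C.card = n ∧ i ∈ C then x ^ n else 0 := by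
    intro C hC
    obtain ⟨-, hc, hm⟩ := mem_filter.1 hC
    obtain ⟨i, hi⟩ := hc.1
    have h2 : ∀ j : I, ∀ n : ℕ, (0 : ℝ) ≤ if C.card = n ∧ j ∈ C then x ^ n else 0 := by
      intro j n
      split_ifs
      · exact pow_nonneg hx0 _
      · exact le_refl _
    calc x ^ C.card = if C.card = C.card ∧ i ∈ C then x ^ C.card else 0 := by
          rw [if_pos ⟨rfl, hi⟩]
      _ ≤ ∑ n ∈ Ioc m N, if C.card = n ∧ i ∈ C then x ^ n else 0 :=
          single_le_sum (f := fun n => if C.card = n ∧ i ∈ C then x ^ n else 0) (fun n _ => h2 i n)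
            (mem_Ioc.2 ⟨hm, card_le_univ C⟩)
      _ ≤ _ := single_le_sum (f := fun i => ∑ n ∈ Ioc m N, if C.card = n ∧ i ∈ C then x ^ n else 0)
            (fun j _ => sum_nonneg fun n _ => h2 j n) (mem_univ i)
  have h3 : ∀ (i : I) (n : ℕ), ∑ C ∈ (univ : Finset (Finset I)).filter (fun C => ConnF nb C ∧ m < C.card),
      (if C.card = n ∧ i ∈ C then x ^ n else 0) ≤ (1 / 4 : ℝ) ^ n := by
    intro i n
    rw [← sum_filter, sum_const, nsmul_eq_mul]
    have h4 : (((univ : Finset (Finset I)).filter (fun C => ConnF nb C ∧ m < C.card)).filter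
        fun C => C.card = n ∧ i ∈ C).card ≤ 2 ^ (z * n) := by
      refine (card_le_card ?_).trans (card_conn hz i n)
      intro C hC
      obtain ⟨h5, h6⟩ := mem_filter.1 hC
      exact mem_filter.2 ⟨mem_univ _, (mem_filter.1 h5).2.1, h6⟩
    have h5 : ((((univ : Finset (Finset I)).filter (fun C => ConnF nb C ∧ m < C.card)).filter
        fun C => C.card = n ∧ i ∈ C).card : ℝ) ≤ 2 ^ (z * n) := by exact_mod_cast h4
    calc _ ≤ (2 : ℝ) ^ (z * n) * x ^ n := mul_le_mul_of_nonneg_right h5 (pow_nonneg hx0 _)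
      _ = (2 ^ z * x) ^ n := by rw [pow_mul, mul_pow]
      _ ≤ (1 / 4) ^ n := pow_le_pow_left₀ (by positivity) hx n
  have h6 : ∀ M : ℕ, ∑ n ∈ Ioc m M, (1 / 4 : ℝ) ^ n ≤ (1 / 4) ^ m - (1 / 4) ^ (max m M) := by
    intro M
    induction M with
    | zero =>
      rw [Ioc_eq_empty (by omega), sum_empty, max_eq_left (Nat.zero_le m), sub_self]
    | succ M ih =>
      rcases Nat.lt_or_ge M m with h7 | h7
      · rw [Ioc_eq_empty (by omega), sum_empty, max_eq_left (by omega), sub_self]
      · rw [sum_Ioc_succ_top h7, max_eq_right (by omega), pow_succ]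
        rw [max_eq_right h7] at ih
        have h8 : (0 : ℝ) ≤ (1 / 4) ^ M := by positivity
        linarith
  calc ∑ C ∈ (univ : Finset (Finset I)).filter (fun C => ConnF nb C ∧ m < C.card), x ^ C.card
      ≤ ∑ C ∈ (univ : Finset (Finset I)).filter (fun C => ConnF nb C ∧ m < C.card),
          ∑ i : I, ∑ n ∈ Ioc m N, (if C.card = n ∧ i ∈ C then x ^ n else 0) := sum_le_sum h1
    _ = ∑ i : I, ∑ n ∈ Ioc m N,
          ∑ C ∈ (univ : Finset (Finset I)).filter (fun C => ConnF nb C ∧ m < C.card),
          (if C.card = n ∧ i ∈ C then x ^ n else 0) := by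
        rw [sum_comm]
        refine sum_congr rfl fun i _ => ?_
        rw [sum_comm]
    _ ≤ ∑ _i : I, ∑ n ∈ Ioc m N, (1 / 4 : ℝ) ^ n :=
        sum_le_sum fun i _ => sum_le_sum fun n _ => h3 i n
    _ ≤ ∑ _i : I, (1 / 4 : ℝ) ^ m := by
        refine sum_le_sum fun i _ => (h6 N).trans ?_
        have : (0 : ℝ) ≤ (1 / 4) ^ (max m N) := by positivity
        linarith
    _ = (N : ℝ) / 4 ^ m := by
        rw [sum_const, card_univ, nsmul_eq_mul, one_div, inv_pow, div_eq_mul_inv]

end Pool.Agent.Hhelper68.CS
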