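import Pool.Agent.Hhelper68.CS.FamNet
import Pool.Agent.Hhelper68.CS.Count
import Pool.Agent.Hhelper96.PEPS.Local

/-!
# Supports of connected clusters of a box (helper87, for helper68 and helper82)

`Bx` = a box `[a, a + r) x [b, b + r)`, clusters `C` = connected sets of positions for `nb N Bx Bx`, support of `C` =
`C.biUnion fun v => Bx.image (place N v)`.
* `latConn_supp` (g1), `card_supp_le` (g2), `card_supp_le'` ;
* `card_clusters` (hk), `card_clusters_sub` : the same for the subtype of the clusters of size at most `m`.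
-/

set_option autoImplicit false
set_option linter.unusedSectionVars false

open Finset Pool.Agent.Hhelper96.PEPS

namespace Pool.Agent.Hhelper68.CS

/-- the box -/
noncomputable def box (a b : ℤ) (r : ℕ) : Finset (ℤ × ℤ) := Finset.Ico a (a + r) ×ˢ Finset.Ico b (b + r)

theorem mem_box {a b : ℤ} {r : ℕ} {p : ℤ × ℤ} : p ∈ box a b r ↔ (a ≤ p.1 ∧ p.1 < a + r) ∧ (b ≤ p.2 ∧ p.2 < b + r) := by
  unfold box
  rw [Finset.mem_product, Finset.mem_Ico, Finset.mem_Ico]

theorem card_box (a b : ℤ) (r : ℕ) : (box a b r).card = r ^ 2 := by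
  unfold box
  rw [Finset.card_product, Int.card_Ico, Int.card_Ico]
  have h1 : (a + r - a).toNat = r := by simp
  have h2 : (b + r - b).toNat = r := by simp
  rw [h1, h2, sq]

variable {N : ℕ} [NeZero N]

theorem place_left (v : Site N) (i j : ℤ) : place N v (i + 1, j) - (1, 0) = place N v (i, j) := by
  unfold place
  ext
  · simp
    ring
  · simp

theorem place_down (v : Site N) (i j : ℤ) : place N v (i, j + 1) - (0, 1) = place N v (i, j) := by
  unfold place
  ext
  · simp
  · simp
    ring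

/-- **(g1)** -/
theorem latConn_supp {a b : ℤ} {r : ℕ} (hr : 1 ≤ r) {C : Finset (Site N)}
    (hC : ConnF (nb N (box a b r) (box a b r)) C) :
    LatConn (C.biUnion fun v => (box a b r).image (place N v)) := by
  classical
  set S := C.biUnion fun v => (box a b r).image (place N v) with hS
  have hmem : ∀ v ∈ C, ∀ p ∈ box a b r, place N v p ∈ S := fun v hv p hp =>
    Finset.mem_biUnion.2 ⟨v, hv, Finset.mem_image_of_mem _ hp⟩
  have hab : ((a, b) : ℤ × ℤ) ∈ box a b r := mem_box.2 ⟨⟨le_rfl, by
    have : (1 : ℤ) ≤ (r : ℤ) := by exact_mod_cast hr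
    show a < a + r
    linarith⟩, le_rfl, by
    have : (1 : ℤ) ≤ (r : ℤ) := by exact_mod_cast hr
    show b < b + r
    linarith⟩
  refine ⟨?_, fun P hP h1 h2 => ?_⟩
  · obtain ⟨v, hv⟩ := hC.1
    exact ⟨_, hmem v hv _ hab⟩
  -- the property is constant on the windows
  have row : ∀ v ∈ C, ∀ n : ℕ, ∀ j : ℤ, (a + (n : ℤ), j) ∈ box a b r → (P (place N v (a + (n : ℤ), j)) ↔ P (place N v (a, j))) := by
    intro v hv n j
    induction n with
    | zero => intro _; simp
    | succ n ih =>
      intro hn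
      have hn' := mem_box.1 hn
      simp only at hn'
      have hn0 : ((a + (n : ℤ), j) : ℤ × ℤ) ∈ box a b r := by
        refine mem_box.2 ⟨⟨?_, ?_⟩, hn'.2⟩
        · show a ≤ a + (n : ℤ)
          linarith [Int.natCast_nonneg n]
        · show a + (n : ℤ) < a + r
          have := hn'.1.2
          push_cast at this
          linarith
      have e : ((a + ((n + 1 : ℕ) : ℤ), j) : ℤ × ℤ) = ((a + (n : ℤ)) + 1, j) := by
        push_cast
        rw [add_assoc]
      have h3 := h1 (place N v ((a + (n : ℤ)) + 1, j)) (by rw [← e]; exact hmem v hv _ hn)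
        (by rw [place_left]; exact hmem v hv _ hn0)
      rw [place_left] at h3
      rw [e, h3]
      exact ih hn0
  have col : ∀ v ∈ C, ∀ n : ℕ, (a, b + (n : ℤ)) ∈ box a b r → (P (place N v (a, b + (n : ℤ))) ↔ P (place N v (a, b))) := by
    intro v hv n
    induction n with
    | zero => intro _; simp
    | succ n ih =>
      intro hn
      have hn' := mem_box.1 hn
      simp only at hn'
      have hn0 : ((a, b + (n : ℤ)) : ℤ × ℤ) ∈ box a b r := by
        refine mem_box.2 ⟨hn'.1, ?_, ?_⟩
        · show b ≤ b + (n : ℤ)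
          linarith [Int.natCast_nonneg n]
        · show b + (n : ℤ) < b + r
          have := hn'.2.2
          push_cast at this
          linarith
      have e : ((a, b + ((n + 1 : ℕ) : ℤ)) : ℤ × ℤ) = (a, (b + (n : ℤ)) + 1) := by
        push_cast
        rw [add_assoc]
      have h3 := h2 (place N v (a, (b + (n : ℤ)) + 1)) (by rw [← e]; exact hmem v hv _ hn)
        (by rw [place_down]; exact hmem v hv _ hn0)
      rw [place_down] at h3
      rw [e, h3]
      exact ih hn0
  have const : ∀ v ∈ C, ∀ p ∈ box a b r, (P (place N v p) ↔ P (place N v (a, b))) := by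
    intro v hv p hp
    obtain ⟨⟨p1, p2⟩, p3, p4⟩ := mem_box.1 hp
    obtain ⟨n, hn⟩ := Int.eq_ofNat_of_zero_le (show 0 ≤ p.1 - a by linarith)
    obtain ⟨k, hk⟩ := Int.eq_ofNat_of_zero_le (show 0 ≤ p.2 - b by linarith)
    have e : p = (a + (n : ℤ), b + (k : ℤ)) := Prod.ext (by simp only; linarith) (by simp only; linarith)
    have hp0 : ((a, b + (k : ℤ)) : ℤ × ℤ) ∈ box a b r := by
      rw [e] at hp
      refine mem_box.2 ⟨(mem_box.1 hab).1, (mem_box.1 hp).2⟩
    have hp' := hp
    rw [e] at hp'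
    rw [e, row v hv n _ hp', col v hv k hp0]
  -- the windows with the property
  obtain ⟨u0, hu0, hPu0⟩ := hP
  obtain ⟨v0, hv0, hu0'⟩ := Finset.mem_biUnion.1 hu0
  obtain ⟨p0, hp0, rfl⟩ := Finset.mem_image.1 hu0'
  have hA : (C.filter fun v => P (place N v (a, b))) = C := by
    refine hC.2 _ (Finset.filter_subset _ _) ⟨v0, Finset.mem_filter.2 ⟨hv0, (const v0 hv0 p0 hp0).1 hPu0⟩⟩ ?_
    intro v hv w hw hwv
    obtain ⟨hv1, hv2⟩ := Finset.mem_filter.1 hv
    unfold nb at hwv
    obtain ⟨-, p, hp, q, hq, he⟩ := Finset.mem_filter.1 hwv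
    refine Finset.mem_filter.2 ⟨hw, (const w hw p hp).1 ?_⟩
    rw [he]
    exact (const v hv1 q hq).2 hv2
  intro u hu
  obtain ⟨v, hv, hu'⟩ := Finset.mem_biUnion.1 hu
  obtain ⟨p, hp, rfl⟩ := Finset.mem_image.1 hu'
  rw [← hA] at hv
  obtain ⟨hv1, hv2⟩ := Finset.mem_filter.1 hv
  exact (const v hv1 p hp).2 hv2

/-- **(g2)** -/
theorem card_supp_le (a b : ℤ) (r : ℕ) (C : Finset (Site N)) :
    (C.biUnion fun v => (box a b r).image (place N v)).card ≤ r ^ 2 * C.card := by
  classical
  refine Finset.card_biUnion_le.trans ?_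
  rw [mul_comm]
  refine (Finset.sum_le_card_nsmul _ _ (r ^ 2) fun v _ => ?_).trans (le_of_eq (smul_eq_mul _ _))
  exact Finset.card_image_le.trans (card_box a b r).le

theorem card_supp_le' (a b : ℤ) (r : ℕ) {C : Finset (Site N)} {m : ℕ} (hC : C.card ≤ m) :
    (C.biUnion fun v => (box a b r).image (place N v)).card ≤ r ^ 2 * m :=
  (card_supp_le a b r C).trans (Nat.mul_le_mul_left _ hC)

open Classical in
/-- **(hk)** -/
theorem card_clusters (a b : ℤ) (r m : ℕ) (u : Site N) :
    ((univ : Finset (Finset (Site N))).filter fun C => ConnF (nb N (box a b r) (box a b r)) C ∧ C.card ≤ m ∧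
      u ∈ C.biUnion fun v => (box a b r).image (place N v)).card ≤ r ^ 2 * m * 2 ^ (r ^ 4 * m) := by
  set Bx := box a b r with hBx
  have hz : ∀ i, (nb N Bx Bx i).card ≤ r ^ 4 := fun i => by
    refine (card_nb_le Bx Bx i).trans (le_of_eq ?_)
    rw [hBx, card_box, ← pow_add]
  have hsub : ((univ : Finset (Finset (Site N))).filter fun C => ConnF (nb N Bx Bx) C ∧ C.card ≤ m ∧
      u ∈ C.biUnion fun v => Bx.image (place N v)) ⊆
      (Bx ×ˢ Finset.range m).biUnion fun x => univ.filter fun C => ConnF (nb N Bx Bx) C ∧ C.card = x.2 + 1 ∧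
        place N u (-x.1) ∈ C := by
    intro C hC
    obtain ⟨-, h1, h2, h3⟩ := Finset.mem_filter.1 hC
    obtain ⟨v, hv, h4⟩ := Finset.mem_biUnion.1 h3
    obtain ⟨p, hp, rfl⟩ := Finset.mem_image.1 h4
    have h5 : 0 < C.card := Finset.card_pos.2 h1.1
    refine Finset.mem_biUnion.2 ⟨(p, C.card - 1), Finset.mem_product.2 ⟨hp, Finset.mem_range.2 (by omega)⟩,
      Finset.mem_filter.2 ⟨mem_univ _, h1, by simp only; omega, ?_⟩⟩
    have h6 : place N (place N v p) (-p) = v := by
      unfold place
      ext <;> simp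
    simp only
    rw [h6]
    exact hv
  refine (Finset.card_le_card hsub).trans (Finset.card_biUnion_le.trans ?_)
  have h1 : ∀ x ∈ Bx ×ˢ Finset.range m, (univ.filter fun C => ConnF (nb N Bx Bx) C ∧ C.card = x.2 + 1 ∧
      place N u (-x.1) ∈ C).card ≤ 2 ^ (r ^ 4 * m) := by
    intro x hx
    have h2 := Finset.mem_range.1 (Finset.mem_product.1 hx).2
    refine (card_conn hz (place N u (-x.1)) (x.2 + 1)).trans (Nat.pow_le_pow_right (by norm_num) ?_)
    exact Nat.mul_le_mul_left _ (by omega)
  refine (Finset.sum_le_card_nsmul _ _ _ h1).trans (le_of_eq ?_)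
  rw [smul_eq_mul, Finset.card_product, Finset.card_range, hBx, card_box]

open Classical in
/-- (hk) for the subtype of the clusters of size at most `m` -/
theorem card_clusters_sub (a b : ℤ) (r m : ℕ) (u : Site N) :
    ((univ : Finset {C : Finset (Site N) // ConnF (nb N (box a b r) (box a b r)) C ∧ C.card ≤ m}).filter
      fun C => u ∈ C.1.biUnion fun v => (box a b r).image (place N v)).card ≤ r ^ 2 * m * 2 ^ (r ^ 4 * m) := by
  refine le_trans (Finset.card_le_card_of_injOn (fun C => C.1) (fun C hC => ?_) fun C _ C' _ e => Subtype.ext e)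
    (card_clusters a b r m u)
  have h1 := (Finset.mem_filter.1 (Finset.mem_coe.1 hC)).2
  exact Finset.mem_coe.2 (Finset.mem_filter.2 ⟨mem_univ _, C.2.1, C.2.2, h1⟩)

end Pool.Agent.Hhelper68.CS
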