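import Pool.Agent.Hhelper68.CS.Close
import Pool.Agent.Hhelper68.CS.Glue
import Pool.Agent.Hhelper68.CS.GlueC
import Pool.Agent.Hhelper68.CS.MatS
import Pool.Agent.Hhelper68.CS.Iface
import Pool.Agent.Hhelper96.UB.Content

/-!
The interface `LabNet` holds.
-/

set_option autoImplicit false
set_option linter.unusedSectionVars false

open scoped BigOperators Matrix.Norms.L2Operator
open Matrix

namespace Pool.Agent.Hhelper96.PEPS

open Pool.Agent.Hhelper68.CS Pool.Agent.Hhelper17.PE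

/-- the number of labels -/
theorem lab_count {d r m : ℕ} (hd : 1 ≤ d) (hm : 1 ≤ m) :
    1 + (r ^ 2 * m * 2 ^ (r ^ 4 * m)) * (d ^ (r ^ 2 * m) * d ^ (r ^ 2 * m)) ≤
      (2 * ((r ^ 2 + 1) * 2 * 2 ^ (r ^ 4) * (d ^ (r ^ 2) * d ^ (r ^ 2)))) ^ m := by
  obtain ⟨X, hX⟩ : ∃ X, X = (r ^ 2 + 1) * 2 * 2 ^ (r ^ 4) * (d ^ (r ^ 2) * d ^ (r ^ 2)) := ⟨_, rfl⟩
  rw [← hX]
  have hX1 : 1 ≤ X := by
    rw [hX]
    have h1 : 0 < d ^ (r ^ 2) := pow_pos hd _
    change 0 < _
    positivity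
  have h1 : r ^ 2 ≤ (r ^ 2 + 1) ^ m :=
    (Nat.le_succ _).trans (Nat.le_self_pow (by omega) _)
  have h2 : m ≤ 2 ^ m := Nat.lt_two_pow_self.le
  have h3 : (r ^ 2 * m * 2 ^ (r ^ 4 * m)) * (d ^ (r ^ 2 * m) * d ^ (r ^ 2 * m)) ≤ X ^ m := by
    calc (r ^ 2 * m * 2 ^ (r ^ 4 * m)) * (d ^ (r ^ 2 * m) * d ^ (r ^ 2 * m))
        ≤ ((r ^ 2 + 1) ^ m * 2 ^ m * 2 ^ (r ^ 4 * m)) * (d ^ (r ^ 2 * m) * d ^ (r ^ 2 * m)) :=
          Nat.mul_le_mul_right _ (Nat.mul_le_mul_right _ (Nat.mul_le_mul h1 h2))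
      _ = X ^ m := by
          rw [hX]
          simp only [mul_pow, ← pow_mul]
  have h4 : 1 ≤ X ^ m := Nat.one_le_pow _ _ hX1
  have h5 : 2 ≤ 2 ^ m := Nat.le_self_pow (by omega) 2
  rw [mul_pow]
  calc 1 + (r ^ 2 * m * 2 ^ (r ^ 4 * m)) * (d ^ (r ^ 2 * m) * d ^ (r ^ 2 * m)) ≤ 2 * X ^ m := by
        omega
    _ ≤ 2 ^ m * X ^ m := Nat.mul_le_mul_right _ h5

/-- **The interface holds.** -/
theorem labNet (d r : ℕ) (hd : 1 ≤ d) (hr : 1 ≤ r) : ∃ κ, LabNet d r κ := by
  classical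
  obtain ⟨t₀, ht₀, hclose⟩ := clS_close (r ^ 4)
  refine ⟨2 * ((r ^ 2 + 1) * 2 * 2 ^ (r ^ 4) * (d ^ (r ^ 2) * d ^ (r ^ 2))), 2 * t₀, 4,
    by positivity, by norm_num, ?_⟩
  intro N m _ hrN hm3 hNm R a b hR K hK hK1
  have hRB : R ⊆ box a b r := by
    intro p hp
    have := hR p hp
    exact mem_box.2 ⟨⟨this.1, this.2.1⟩, this.2.2.1, this.2.2.2⟩
  have hB : (box a b r).Nonempty := by
    rw [← Finset.card_pos, card_box]
    positivity
  have hinj : ∀ v : Site N, Function.Injective (fun p : R => place N v p) :=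
    fun v => place_injective hrN R a b hR v
  obtain ⟨h, hh⟩ : ∃ h : Site N → Matrix (Site N → Fin d) (Site N → Fin d) ℂ,
      h = fun v => localTerm N R K v := ⟨_, rfl⟩
  have hherm : ∀ v, (h v).IsHermitian := fun v => by
    rw [hh]
    exact localTerm_isHermitian hK v
  have hne : Nonempty (Site N → Fin d) := ⟨fun _ => ⟨0, hd⟩⟩
  have hs : ∀ v : Site N, (nb N (box a b r) (box a b r) v).card ≤ r ^ 4 := fun v => by
    refine (card_nb_le _ _ v).trans (le_of_eq ?_)
    rw [card_box, ← pow_add]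
  have hn : ∀ v, ‖h v‖ ≤ 1 := fun v => norm_le_one (fun φ => by
    rw [hh]
    exact sqn_localTerm_le R K hK1 v (hinj v) φ)
  have hself : ∀ v : Site N, v ∈ nb N (box a b r) (box a b r) v := fun v => nb_self hB v
  have hsymm : ∀ v w : Site N, w ∈ nb N (box a b r) (box a b r) v →
      v ∈ nb N (box a b r) (box a b r) w := by
    intro v w hw
    by_contra hcon
    rw [nb_iff] at hcon
    exact ((nb_iff _ _ _).2 hcon.symm) hw
  have hnb : ∀ v w : Site N, w ∉ nb N (box a b r) (box a b r) v → Commute (h v) (h w) := by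
    intro v w hw
    rw [nb_iff, Finset.disjoint_left] at hw
    rw [hh]
    change localTerm N R K v * localTerm N R K w = localTerm N R K w * localTerm N R K v
    rw [localTerm_eq_opAt, localTerm_eq_opAt]
    apply opAt_comm_of_disjoint (hinj v) (hinj w)
    intro f f' heq
    apply hw (a := place N v f)
    · exact Finset.mem_image_of_mem _ (hRB f.2)
    · rw [heq]
      exact Finset.mem_image_of_mem _ (hRB f'.2)
  have hcardI : Fintype.card (Site N) = N * N := by
    rw [Fintype.card_prod, ZMod.card]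
  obtain ⟨η, hη0, hη1, hη2, hη3⟩ := hclose (Matrix (Site N → Fin d) (Site N → Fin d) ℂ) (Site N)
    (nb N (box a b r) (box a b r)) h m hs hn hnb hself hsymm hm3 (by rw [hcardI]; exact hNm)
    t₀ ht₀.le le_rfl
  refine ⟨clS (nb N (box a b r) (box a b r)) h t₀ m Finset.univ, ?_, ?_⟩
  · intro φ
    have hH : (hamiltonian N R K).IsHermitian := hamiltonian_isHermitian hK
    have e1 : (((2 * t₀) / 2 : ℝ) : ℂ) = (t₀ : ℂ) := by
      congr 1
      ring
    have e2 : hamiltonian N R K = ∑ i, h i := by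
      rw [hh]
      rfl
    have h1 := sandwich_of_close hH (clS_herm hherm (nb N (box a b r) (box a b r)) t₀ m
      Finset.univ) (t := 2 * t₀) hη0 hη1 (by rw [e1, e2]; exact hη3) φ
    have h2 : 4 * η ≤ 4 * (N : ℝ) ^ 2 / 2 ^ m := by
      rw [hcardI] at hη2
      push_cast at hη2
      have e3 : 4 * (N : ℝ) ^ 2 / 2 ^ m = 4 * ((N : ℝ) * N / 2 ^ m) := by ring
      rw [e3]
      linarith
    have h3 : 0 ≤ ex (NormedSpace.exp ((-(2 * t₀)) • hamiltonian N R K)) φ := by
      have h4 := h1.2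
      have h5 : 0 ≤ ex (clS (nb N (box a b r) (box a b r)) h t₀ m Finset.univ *
          (clS (nb N (box a b r) (box a b r)) h t₀ m Finset.univ)ᴴ) φ := by
        rw [ex_mul_conj]
        exact sqn_nonneg _
      exact nonneg_of_mul_nonneg_right (h5.trans h4) (Real.exp_pos _)
    constructor
    · refine le_trans ?_ h1.1
      apply mul_le_mul_of_nonneg_right _ h3
      apply Real.exp_le_exp.2
      linarith
    · refine h1.2.trans ?_
      apply mul_le_mul_of_nonneg_right _ h3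
      apply Real.exp_le_exp.2
      linarith
  · have h1 := opNet_clSM (N := N) (Bx := box a b r) hB hRB K t₀ m Finset.univ hd
      (fun C hC => latConn_supp hr hC) (k := r ^ 2 * m * 2 ^ (r ^ 4 * m)) (c := r ^ 2 * m)
      (fun u => by
        refine le_trans (Finset.card_le_card ?_) (card_clusters a b r m u)
        intro C hC
        rw [Finset.mem_filter] at hC ⊢
        exact ⟨Finset.mem_univ _, hC.2.1.1, hC.2.1.2.2, hC.2.2⟩)
      (fun C _ hC => card_supp_le' a b r hC)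
    rw [hh, clS_eq_clSM]
    exact h1.mono (lab_count hd (by omega))

end Pool.Agent.Hhelper96.PEPS
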