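import Pool.Agent.Hhelper17.PE.Maj

/-!
Analytic part of the cluster expansion: iterated differences of `exp (-t K(c)) exp (t H)` in the
coefficients `c` of the local terms.
-/

set_option autoImplicit false
set_option linter.unusedSectionVars false

open scoped BigOperators
open Pool.Agent.Hhelper17.PE

namespace Pool.Agent.Hhelper68.CS

section schwarz

variable {𝔸 : Type} [NormedRing 𝔸] [NormedAlgebra ℂ 𝔸] [CompleteSpace 𝔸]

theorem diff_le {g : ℂ → 𝔸} (hg : Differentiable ℂ g) {ρ M : ℝ} (hρ : 1 ≤ ρ)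
    (hM : ∀ w : ℂ, ‖w‖ ≤ ρ → ‖g w‖ ≤ M) : ‖g 1 - g 0‖ ≤ M * (2 / ρ) := by
  have hρ0 : 0 < ρ := by linarith
  have h1 : ‖dslope g 0 1‖ ≤ M * (2 / ρ) := by
    apply Complex.norm_le_of_forall_mem_frontier_norm_le (U := Metric.ball (0 : ℂ) ρ)
      Metric.isBounded_ball (dslope_diff hg).diffContOnCl
    · intro y hy
      rw [frontier_ball (0 : ℂ) hρ0.ne', mem_sphere_zero_iff_norm] at hy
      have h2 : (y - 0) • dslope g 0 y = g y - g 0 := sub_smul_dslope g 0 y
      have h3 : ρ * ‖dslope g 0 y‖ = ‖g y - g 0‖ := by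
        rw [← h2, norm_smul, sub_zero, hy]
      have h4 := norm_sub_le (g y) (g 0)
      have h5 := hM y hy.le
      have h6 := hM 0 (by rw [norm_zero]; exact hρ0.le)
      have h7 : M * (2 / ρ) = 2 * M / ρ := by ring
      rw [h7, le_div_iff₀ hρ0]
      linarith
    · rw [closure_ball (0 : ℂ) hρ0.ne', mem_closedBall_zero_iff, norm_one]
      exact hρ
  have h2 : (1 - 0 : ℂ) • dslope g 0 1 = g 1 - g 0 := sub_smul_dslope g 0 1
  rw [sub_zero, one_smul] at h2
  rwa [← h2]

variable {I : Type} [DecidableEq I]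

/-- the coefficients: `1` on `Y`, `0` on `B - Y`, unchanged outside of `B` -/
def cf (B Y : Finset I) (c : I → ℂ) (j : I) : ℂ := if j ∈ B then (if j ∈ Y then 1 else 0) else c j

/-- iterated differences of a function of several complex variables -/
theorem iter_diff {f : (I → ℂ) → 𝔸}
    (hf : ∀ (c : I → ℂ) (i : I), Differentiable ℂ (fun w : ℂ => f (Function.update c i w)))
    {ρ M : ℝ} (hρ : 1 ≤ ρ) (B : Finset I) : ∀ c₀ : I → ℂ,
    (∀ c : I → ℂ, (∀ j, j ∉ B → c j = c₀ j) → (∀ j ∈ B, ‖c j‖ ≤ ρ) → ‖f c‖ ≤ M) →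
    ‖∑ Y ∈ B.powerset, ((-1 : ℂ) ^ (B \ Y).card) • f (cf B Y c₀)‖ ≤ M * (2 / ρ) ^ B.card := by
  induction B using Finset.induction_on with
  | empty =>
    intro c₀ hM
    have h1 := hM c₀ (fun _ _ => rfl) (fun j hj => absurd hj (Finset.notMem_empty j))
    have h2 : cf ∅ ∅ c₀ = c₀ := by
      funext j
      simp [cf]
    simpa [h2] using h1
  | insert i B hi ih =>
    intro c₀ hM
    obtain ⟨g, hg⟩ : ∃ g : ℂ → 𝔸, g = fun w => ∑ Y ∈ B.powerset, ((-1 : ℂ) ^ (B \ Y).card) •
      f (cf B Y (Function.update c₀ i w)) := ⟨_, rfl⟩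
    have hupd : ∀ (Y : Finset I) (w : ℂ), cf B Y (Function.update c₀ i w) =
        Function.update (cf B Y c₀) i w := by
      intro Y w
      funext j
      by_cases hj : j = i
      · subst hj
        simp [cf, hi]
      · simp [cf, hj]
    have hgd : Differentiable ℂ g := by
      rw [hg]
      apply Differentiable.fun_sum
      intro Y _
      have h1 := hf (cf B Y c₀) i
      have h2 : (fun w => f (cf B Y (Function.update c₀ i w))) =
          fun w => f (Function.update (cf B Y c₀) i w) := by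
        funext w
        rw [hupd]
      rw [← h2] at h1
      exact h1.const_smul ((-1 : ℂ) ^ (B \ Y).card)
    have hgM : ∀ w : ℂ, ‖w‖ ≤ ρ → ‖g w‖ ≤ M * (2 / ρ) ^ B.card := by
      intro w hw
      rw [hg]
      apply ih (Function.update c₀ i w)
      intro c hc hcρ
      apply hM c
      · intro j hj
        rw [Finset.mem_insert, not_or] at hj
        rw [hc j hj.2, Function.update_of_ne hj.1]
      · intro j hj
        rcases Finset.mem_insert.1 hj with h | h
        · rw [h, hc i hi, Function.update_self]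
          exact hw
        · exact hcρ j h
    have h1 := diff_le hgd hρ hgM
    have h2 : ∑ Y ∈ (insert i B).powerset, ((-1 : ℂ) ^ (insert i B \ Y).card) •
        f (cf (insert i B) Y c₀) = g 1 - g 0 := by
      rw [Finset.sum_powerset_insert hi, hg]
      simp only
      rw [add_comm, sub_eq_add_neg, ← Finset.sum_neg_distrib]
      congr 1
      · refine Finset.sum_congr rfl (fun Y hY => ?_)
        rw [Finset.mem_powerset] at hY
        have hiY : i ∉ Y := fun h => hi (hY h)
        congr 1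
        · congr 2
          ext j
          simp only [Finset.mem_sdiff, Finset.mem_insert]
          constructor
          · rintro ⟨h3 | h3, h4⟩
            · exact absurd (Or.inl h3) h4
            · exact ⟨h3, fun h5 => h4 (Or.inr h5)⟩
          · rintro ⟨h3, h4⟩
            refine ⟨Or.inr h3, ?_⟩
            rintro (h5 | h5)
            · exact hi (h5 ▸ h3)
            · exact h4 h5
        · congr 1
          funext j
          by_cases hj : j = i
          · subst hj
            simp [cf, hi]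
          · simp [cf, hj]
      · refine Finset.sum_congr rfl (fun Y hY => ?_)
        rw [Finset.mem_powerset] at hY
        have hiY : i ∉ Y := fun h => hi (hY h)
        have h3 : (insert i B \ Y).card = (B \ Y).card + 1 := by
          rw [Finset.insert_sdiff_of_notMem _ hiY, Finset.card_insert_of_notMem]
          simp [hi]
        rw [h3, pow_succ, mul_neg_one, neg_smul]
        congr 2
        congr 1
        funext j
        by_cases hj : j = i
        · subst hj
          simp [cf, hi, hiY]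
        · simp [cf, hj]
    rw [h2, Finset.card_insert_of_notMem hi, pow_succ, ← mul_assoc]
    exact h1

end schwarz

section gen

variable {𝔸 : Type} [NormedRing 𝔸] [NormedAlgebra ℂ 𝔸] [CompleteSpace 𝔸]

theorem exp_neg_mul_exp (z : ℂ) (K : 𝔸) :
    NormedSpace.exp (z • K) * NormedSpace.exp ((-z) • K) = 1 := by
  let _i : NormedAlgebra ℚ 𝔸 := NormedAlgebra.restrictScalars ℚ ℂ 𝔸
  have h1 : NormedSpace.exp (z • K + (-z) • K) =
      NormedSpace.exp (z • K) * NormedSpace.exp ((-z) • K) :=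
    NormedSpace.exp_add_of_commute ((Commute.refl K).smul_left z |>.smul_right (-z))
  rw [← h1, ← add_smul, add_neg_cancel, zero_smul, NormedSpace.exp_zero]

/-- Duhamel and Gronwall -/
theorem exp_prod_le [NormOneClass 𝔸] (K W : 𝔸) {t M : ℝ} (ht : 0 ≤ t)
    (hM : ∀ u : ℝ, 0 ≤ u → u ≤ t →
      ‖NormedSpace.exp ((-(u : ℂ)) • K) * W * NormedSpace.exp ((u : ℂ) • K)‖ ≤ M) :
    ‖NormedSpace.exp ((-(t : ℂ)) • K) * NormedSpace.exp ((t : ℂ) • (K + W))‖ ≤
      Real.exp (M * t) := by
  obtain ⟨y, hy⟩ : ∃ y : ℝ → 𝔸, y = fun u : ℝ => NormedSpace.exp ((-(u : ℂ)) • K) *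
    NormedSpace.exp ((u : ℂ) • (K + W)) := ⟨_, rfl⟩
  have hder : ∀ u : ℝ, HasDerivAt y (NormedSpace.exp ((-(u : ℂ)) • K) * W *
      NormedSpace.exp ((u : ℂ) • K) * y u) u := by
    intro u
    have h1 := hasDerivAt_exp_r (-1) K (u : ℂ)
    have h2 := hasDerivAt_exp_l 1 (K + W) (u : ℂ)
    have h3' : HasDerivAt (fun z : ℂ => NormedSpace.exp (((-1 : ℂ) * z) • K) *
        NormedSpace.exp (((1 : ℂ) * z) • (K + W))) _ (u : ℂ) := h1.mul h2
    have h4 : HasDerivAt (fun x : ℝ => (x : ℂ)) 1 u := Complex.ofRealCLM.hasDerivAt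
    have h3 := h3'.scomp u h4
    have e1 : y = fun u : ℝ => NormedSpace.exp (((-1 : ℂ) * (u : ℂ)) • K) *
        NormedSpace.exp (((1 : ℂ) * (u : ℂ)) • (K + W)) := by
      rw [hy]
      funext u
      rw [neg_one_mul, one_mul]
    rw [e1]
    refine h3.congr_deriv ?_
    simp only [neg_one_mul, one_mul, one_smul, neg_smul]
    have e2 : NormedSpace.exp ((u : ℂ) • K) * NormedSpace.exp (-((u : ℂ) • K)) = 1 := by
      have := exp_neg_mul_exp (u : ℂ) K
      rwa [neg_smul] at this
    have e3 : NormedSpace.exp (-((u : ℂ) • K)) * W * NormedSpace.exp ((u : ℂ) • K) *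
        (NormedSpace.exp (-((u : ℂ) • K)) * NormedSpace.exp ((u : ℂ) • (K + W))) =
        NormedSpace.exp (-((u : ℂ) • K)) * W * (NormedSpace.exp ((u : ℂ) • K) *
          NormedSpace.exp (-((u : ℂ) • K))) * NormedSpace.exp ((u : ℂ) • (K + W)) := by
      simp only [mul_assoc]
    rw [e3, e2, mul_one]
    simp only [mul_add, add_mul, mul_assoc, neg_mul]
    abel
  have hcont : ContinuousOn y (Set.Icc 0 t) := fun u _ => (hder u).continuousAt.continuousWithinAt
  have h1 := norm_le_gronwallBound_of_norm_deriv_right_le (f := y)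
    (f' := fun u => NormedSpace.exp ((-(u : ℂ)) • K) * W *
      NormedSpace.exp ((u : ℂ) • K) * y u) (δ := 1) (K := M) (ε := 0) (a := 0) (b := t) hcont
    (fun u _ => (hder u).hasDerivWithinAt) (by rw [hy]; simp [NormedSpace.exp_zero]) (by
      intro u hu
      rw [add_zero]
      refine (norm_mul_le _ _).trans ?_
      exact mul_le_mul_of_nonneg_right (hM u hu.1 hu.2.le) (norm_nonneg _)) t ⟨ht, le_rfl⟩
  rw [gronwallBound_ε0, one_mul, sub_zero] at h1
  rw [hy] at h1
  exact h1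

variable {I : Type} [Fintype I] [DecidableEq I] (h : I → 𝔸) (nb : I → Finset I)

/-- conjugation of a local term by the exponential of a sum with bounded coefficients -/
theorem norm_conj_le {s : ℕ} (hs : ∀ i, (nb i).card ≤ s) (hn : ∀ i, ‖h i‖ ≤ 1)
    (hnb : ∀ i j, j ∉ nb i → Commute (h i) (h j)) (c : I → ℂ) {ρ : ℝ} (hρ : 0 < ρ)
    (hc : ∀ i, ‖c i‖ ≤ ρ) (i : I) {u : ℂ} (hu : ‖u‖ * ρ * (2 * s) ≤ 1 / 2) :
    ‖NormedSpace.exp (u • ∑ j, c j • h j) * h i * NormedSpace.exp ((-u) • ∑ j, c j • h j)‖ ≤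
      2 := by
  obtain ⟨h', hh'⟩ : ∃ h' : I → 𝔸, h' = fun j => (c j / ρ) • h j := ⟨_, rfl⟩
  have hρc : (ρ : ℂ) ≠ 0 := by exact_mod_cast hρ.ne'
  have hn' : ∀ j, ‖h' j‖ ≤ 1 := by
    intro j
    rw [hh']
    simp only
    rw [norm_smul, norm_div, Complex.norm_real, Real.norm_of_nonneg hρ.le]
    have h1 : ‖c j‖ / ρ ≤ 1 := by
      rw [div_le_one hρ]; exact hc j
    calc ‖c j‖ / ρ * ‖h j‖ ≤ 1 * 1 := mul_le_mul h1 (hn j) (norm_nonneg _) zero_le_one
      _ = 1 := one_mul 1
  have hnb' : ∀ i j, j ∉ nb i → Commute (h' i) (h' j) := by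
    intro i j hj
    rw [hh']
    exact ((hnb i j hj).smul_left _).smul_right _
  have hsum : ∑ j, c j • h j = (ρ : ℂ) • ∑ j, h' j := by
    rw [Finset.smul_sum]
    refine Finset.sum_congr rfl (fun j _ => ?_)
    rw [hh']
    simp only
    rw [smul_smul, mul_div_cancel₀ _ hρc]
  obtain ⟨K, hK⟩ : ∃ K : Fin 1 → 𝔸, K = fun _ => ∑ j ∈ Finset.univ, h' j := ⟨_, rfl⟩
  have hmaj : Maj K (h i) 1 (2 * s) := by
    intro W
    have h2 := adl_le h' (fun _ : Fin 1 => Finset.univ) nb hs hn' hnb' W 1 (h i) (nb i)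
      (by rw [one_mul]; exact hs i) (fun j hj => by
        rw [hh']
        exact (hnb i j hj).symm.smul_left _)
    rw [Nat.one_ascFactorial] at h2
    rw [hK]
    refine h2.trans ?_
    have h3 := hn i
    gcongr
  have ha : ‖u * ρ‖ * (2 * s) ≤ 1 / 2 := by
    rw [norm_mul, Complex.norm_real, Real.norm_of_nonneg hρ.le]
    exact hu
  have h2 := Maj.conj K zero_le_one (by positivity) hmaj (u * ρ) (by linarith) 0 []
  have e1 : adl K [] (NormedSpace.exp ((u * ρ) • K 0) * h i * NormedSpace.exp ((-(u * ρ)) • K 0)) =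
      NormedSpace.exp (u • ∑ j, c j • h j) * h i * NormedSpace.exp ((-u) • ∑ j, c j • h j) := by
    have e2 : -(u * (ρ : ℂ)) = (-u) * ρ := by ring
    rw [hsum, smul_smul, smul_smul, e2, hK]
    rfl
  rw [e1, List.length_nil, pow_zero, Nat.factorial_zero, Nat.cast_one, mul_one, mul_one] at h2
  refine h2.trans ?_
  rw [div_le_iff₀ (by linarith)]
  linarith

/-- the bound of the comparison of two exponentials -/
theorem comp_le [NormOneClass 𝔸] {s : ℕ} (hs : ∀ i, (nb i).card ≤ s) (hn : ∀ i, ‖h i‖ ≤ 1)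
    (hnb : ∀ i j, j ∉ nb i → Commute (h i) (h j)) (c : I → ℂ) {ρ : ℝ} (hρ : 1 ≤ ρ)
    (hc : ∀ i, ‖c i‖ ≤ ρ) (A S : Finset I)
    (hcS : ∀ i, i ∉ S → c i = if i ∈ A then 1 else 0) {t : ℝ} (ht : 0 ≤ t)
    (htr : t * ρ * (2 * s) ≤ 1 / 2) :
    ‖NormedSpace.exp ((-(t : ℂ)) • ∑ i, c i • h i) *
      NormedSpace.exp ((t : ℂ) • ∑ i ∈ A, h i)‖ ≤ Real.exp (2 * (1 + ρ) * S.card * t) := by
  have hρ0 : 0 < ρ := by linarith
  obtain ⟨W, hW⟩ : ∃ W : 𝔸, W = ∑ i ∈ S, ((if i ∈ A then 1 else 0) - c i) • h i := ⟨_, rfl⟩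
  have hKW : ∑ i ∈ A, h i = ∑ i, c i • h i + W := by
    have h1 : ∑ i ∈ A, h i = ∑ i, (if i ∈ A then (1 : ℂ) else 0) • h i := by
      rw [← Finset.sum_filter_add_sum_filter_not Finset.univ (fun i => i ∈ A)]
      have h2 : ∑ i ∈ Finset.univ.filter (fun i => ¬ i ∈ A), (if i ∈ A then (1 : ℂ) else 0) • h i =
          0 := by
        apply Finset.sum_eq_zero
        intro i hi
        rw [if_neg (Finset.mem_filter.1 hi).2, zero_smul]
      rw [h2, add_zero]
      have h3 : Finset.univ.filter (fun i => i ∈ A) = A := by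
        ext i; simp
      rw [h3]
      refine Finset.sum_congr rfl (fun i hi => ?_)
      rw [if_pos hi, one_smul]
    have h2 : W = ∑ i, ((if i ∈ A then (1 : ℂ) else 0) - c i) • h i := by
      rw [hW]
      apply Finset.sum_subset (Finset.subset_univ S)
      intro i _ hi
      rw [hcS i hi, sub_self, zero_smul]
    rw [h1, h2, ← Finset.sum_add_distrib]
    refine Finset.sum_congr rfl (fun i _ => ?_)
    rw [← add_smul]
    congr 1
    ring
  rw [hKW]
  refine (exp_prod_le (∑ i, c i • h i) W (M := 2 * (1 + ρ) * S.card) ht ?_)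
  intro u hu hut
  have h1 : NormedSpace.exp ((-(u : ℂ)) • ∑ i, c i • h i) * W *
      NormedSpace.exp ((u : ℂ) • ∑ i, c i • h i) =
      ∑ i ∈ S, ((if i ∈ A then 1 else 0) - c i) • (NormedSpace.exp ((-(u : ℂ)) • ∑ i, c i • h i) *
        h i * NormedSpace.exp ((-(-(u : ℂ))) • ∑ i, c i • h i)) := by
    rw [hW, Finset.mul_sum, Finset.sum_mul, neg_neg]
    refine Finset.sum_congr rfl (fun i _ => ?_)
    rw [mul_smul_comm, smul_mul_assoc]
  rw [h1]
  refine (norm_sum_le _ _).trans ?_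
  have h2 : ∀ i ∈ S, ‖((if i ∈ A then 1 else 0) - c i) •
      (NormedSpace.exp ((-(u : ℂ)) • ∑ i, c i • h i) *
        h i * NormedSpace.exp ((-(-(u : ℂ))) • ∑ i, c i • h i))‖ ≤ (1 + ρ) * 2 := by
    intro i _
    rw [norm_smul]
    have h3 : ‖-(u : ℂ)‖ * ρ * (2 * s) ≤ 1 / 2 := by
      rw [norm_neg, Complex.norm_real, Real.norm_of_nonneg hu]
      refine le_trans ?_ htr
      have h4 : (0 : ℝ) ≤ ρ * (2 * s) := by positivity
      nlinarith
    have h4 := norm_conj_le h nb hs hn hnb c hρ0 hc i h3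
    have h5 : ‖(if i ∈ A then (1 : ℂ) else 0) - c i‖ ≤ 1 + ρ := by
      refine (norm_sub_le _ _).trans ?_
      have h6 : ‖(if i ∈ A then (1 : ℂ) else 0)‖ ≤ 1 := by
        by_cases hi : i ∈ A
        · rw [if_pos hi, norm_one]
        · rw [if_neg hi, norm_zero]; exact zero_le_one
      exact add_le_add h6 (hc i)
    exact mul_le_mul h5 h4 (norm_nonneg _) (by linarith)
  refine (Finset.sum_le_card_nsmul _ _ _ h2).trans (le_of_eq ?_)
  rw [nsmul_eq_mul]
  ring

/-- **The cluster bound.** -/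
theorem clus_le [NormOneClass 𝔸] {s : ℕ} (hs : ∀ i, (nb i).card ≤ s) (hn : ∀ i, ‖h i‖ ≤ 1)
    (hnb : ∀ i j, j ∉ nb i → Commute (h i) (h j)) (hself : ∀ i, i ∈ nb i) {ρ : ℝ} (hρ : 1 ≤ ρ)
    (A B : Finset I) {t : ℝ} (ht : 0 ≤ t) (htr : t * ρ * (2 * s) ≤ 1 / 2) :
    ‖∑ Y ∈ B.powerset, ((-1 : ℂ) ^ (B \ Y).card) •
      (NormedSpace.exp ((-(t : ℂ)) • ∑ i ∈ (A \ B.biUnion nb) ∪ Y, h i) *
      NormedSpace.exp ((t : ℂ) • ∑ i ∈ A, h i))‖ ≤
      (Real.exp (2 * (1 + ρ) * s * t) * (2 / ρ)) ^ B.card := by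
  obtain ⟨c₀, hc₀⟩ : ∃ c₀ : I → ℂ, c₀ = fun i => if i ∈ A \ B.biUnion nb then 1 else 0 :=
    ⟨_, rfl⟩
  have hBN : ∀ i ∈ B, i ∈ B.biUnion nb := fun i hi => Finset.mem_biUnion.2 ⟨i, hi, hself i⟩
  have hdiff : ∀ (c : I → ℂ) (i : I), Differentiable ℂ (fun w : ℂ =>
      NormedSpace.exp ((-(t : ℂ)) • ∑ j, Function.update c i w j • h j) *
      NormedSpace.exp ((t : ℂ) • ∑ i ∈ A, h i)) := by
    intro c i
    apply Differentiable.mul_const
    have h1 : ∀ w : ℂ, (-(t : ℂ)) • ∑ j, Function.update c i w j • h j =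
        (-(t : ℂ)) • (∑ j, (if j = i then 0 else c j) • h j) + w • ((-(t : ℂ)) • h i) := by
      intro w
      have h2 : ∑ j, Function.update c i w j • h j =
          ∑ j, (if j = i then 0 else c j) • h j + w • h i := by
        have h3 : w • h i = ∑ j, (if j = i then w else 0) • h j := by
          rw [Finset.sum_eq_single i]
          · rw [if_pos rfl]
          · intro j _ hj
            rw [if_neg hj, zero_smul]
          · intro hcon
            exact absurd (Finset.mem_univ i) hcon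
        rw [h3, ← Finset.sum_add_distrib]
        refine Finset.sum_congr rfl (fun j _ => ?_)
        by_cases hj : j = i
        · subst hj
          simp
        · simp [hj]
      rw [h2, smul_add, smul_comm]
    simp only [h1]
    intro w
    have h2 : AnalyticAt ℂ (NormedSpace.exp : 𝔸 → 𝔸)
        ((-(t : ℂ)) • (∑ j, (if j = i then 0 else c j) • h j) + w • ((-(t : ℂ)) • h i)) :=
      NormedSpace.exp_analytic _
    exact h2.differentiableAt.comp w (by fun_prop)
  have hcard : ((B.biUnion nb).card : ℝ) ≤ B.card * s := by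
    have h1 : (B.biUnion nb).card ≤ B.card * s :=
      Finset.card_biUnion_le_card_mul _ _ _ (fun i _ => hs i)
    exact_mod_cast h1
  have h1 := iter_diff (f := fun c => NormedSpace.exp ((-(t : ℂ)) • ∑ j, c j • h j) *
      NormedSpace.exp ((t : ℂ) • ∑ i ∈ A, h i)) hdiff hρ
    (M := Real.exp (2 * (1 + ρ) * (B.card * s) * t)) B c₀ (by
      intro c hc hcρ
      refine (comp_le h nb hs hn hnb c hρ ?_ A (B.biUnion nb) ?_ ht htr).trans ?_
      · intro i
        by_cases hi : i ∈ B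
        · exact hcρ i hi
        · rw [hc i hi, hc₀]
          simp only
          split_ifs
          · rw [norm_one]; exact hρ
          · rw [norm_zero]; linarith
      · intro i hi
        have hiB : i ∉ B := fun h => hi (hBN i h)
        rw [hc i hiB, hc₀]
        simp only
        by_cases hA : i ∈ A
        · rw [if_pos hA, if_pos (Finset.mem_sdiff.2 ⟨hA, hi⟩)]
        · rw [if_neg hA, if_neg (fun h => hA (Finset.mem_sdiff.1 h).1)]
      · apply Real.exp_le_exp.2
        apply mul_le_mul_of_nonneg_right _ ht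
        apply mul_le_mul_of_nonneg_left hcard
        linarith)
  have h2 : Real.exp (2 * (1 + ρ) * (B.card * s) * t) * (2 / ρ) ^ B.card =
      (Real.exp (2 * (1 + ρ) * s * t) * (2 / ρ)) ^ B.card := by
    rw [mul_pow, ← Real.exp_nat_mul]
    congr 2
    ring
  rw [← h2]
  refine le_trans (le_of_eq ?_) h1
  congr 1
  refine Finset.sum_congr rfl (fun Y hY => ?_)
  rw [Finset.mem_powerset] at hY
  congr 4
  have h3 : ∑ j, cf B Y c₀ j • h j = ∑ j, (if j ∈ (A \ B.biUnion nb) ∪ Y then (1 : ℂ) else 0) • h j := by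
    refine Finset.sum_congr rfl (fun j _ => ?_)
    congr 1
    unfold cf
    by_cases hj : j ∈ B
    · rw [if_pos hj]
      by_cases hjY : j ∈ Y
      · rw [if_pos hjY, if_pos (Finset.mem_union_right _ hjY)]
      · rw [if_neg hjY, if_neg]
        rw [Finset.mem_union, not_or]
        exact ⟨fun h => (Finset.mem_sdiff.1 h).2 (hBN j hj), hjY⟩
    · rw [if_neg hj, hc₀]
      simp only
      have hjY : j ∉ Y := fun h => hj (hY h)
      by_cases hA : j ∈ A \ B.biUnion nb
      · rw [if_pos hA, if_pos (Finset.mem_union_left _ hA)]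
      · rw [if_neg hA, if_neg]
        rw [Finset.mem_union, not_or]
        exact ⟨hA, hjY⟩
  rw [h3, ← Finset.sum_filter_add_sum_filter_not Finset.univ
    (fun j => j ∈ (A \ B.biUnion nb) ∪ Y)]
  have h4 : ∑ j ∈ Finset.univ.filter (fun j => ¬ j ∈ (A \ B.biUnion nb) ∪ Y),
      (if j ∈ (A \ B.biUnion nb) ∪ Y then (1 : ℂ) else 0) • h j = 0 := by
    apply Finset.sum_eq_zero
    intro j hj
    rw [if_neg (Finset.mem_filter.1 hj).2, zero_smul]
  have h5 : Finset.univ.filter (fun j => j ∈ (A \ B.biUnion nb) ∪ Y) =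
      (A \ B.biUnion nb) ∪ Y := by
    ext j; simp
  rw [h4, add_zero, h5]
  refine Finset.sum_congr rfl (fun j hj => ?_)
  rw [if_pos hj, one_smul]

end gen

end Pool.Agent.Hhelper68.CS
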