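import Pool.Agent.Hhelper68.CS.Defs

/-!
# The components of a set (helper87, for helper68)

* `ClX nb X A` : `A` is a subset of `X` closed under `nb` inside `X`;
* `sepF_exists` : every set is the union of a separated family of connected sets;
* `sepF_unique` : the family is unique.
-/

set_option autoImplicit false
set_option linter.unusedSectionVars false

namespace Pool.Agent.Hhelper68.CS

open Finset

variable {I : Type} [Fintype I] [DecidableEq I] {nb : I → Finset I}

/-- closed subsets -/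
def ClX (nb : I → Finset I) (X A : Finset I) : Prop := A ⊆ X ∧ ∀ a ∈ A, ∀ b ∈ X, b ∈ nb a → b ∈ A

/-- a member of a separated family is closed in the union -/
theorem ClX_of_sep {D : Finset (Finset I)} (hD : SepF nb D) {C : Finset I} (hC : C ∈ D) : ClX nb (D.biUnion id) C := by
  refine ⟨fun x hx => Finset.mem_biUnion.2 ⟨C, hC, hx⟩, fun a ha b hb hab => ?_⟩
  obtain ⟨C', hC', hbC'⟩ := Finset.mem_biUnion.1 hb
  by_cases h : C = C'
  · rw [h]
    exact hbC'
  · exact absurd hab (hD.2 C hC C' hC' h a ha b hbC')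

/-- a component of a nonempty set -/
theorem exists_comp {X : Finset I} (hX : X.Nonempty) : ∃ C, ConnF nb C ∧ ClX nb X C := by
  classical
  set S : Finset (Finset I) := X.powerset.filter fun A => A.Nonempty ∧ ClX nb X A with hS
  have hne : S.Nonempty := ⟨X, Finset.mem_filter.2 ⟨Finset.mem_powerset_self X, hX, Finset.Subset.refl _,
    fun _ _ _ hb _ => hb⟩⟩
  obtain ⟨C, hC, hmin⟩ := Finset.exists_min_image S Finset.card hne
  obtain ⟨-, h1, h2⟩ := Finset.mem_filter.1 hC
  refine ⟨C, ⟨h1, fun A hA hAn hcl => ?_⟩, h2⟩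
  have h3 : A ∈ S := by
    refine Finset.mem_filter.2 ⟨Finset.mem_powerset.2 (hA.trans h2.1), hAn, hA.trans h2.1, fun a ha b hb hab => ?_⟩
    exact hcl a ha b (h2.2 a (hA ha) b hb hab) hab
  exact Finset.eq_of_subset_of_card_le hA (hmin A h3)

/-- **every set is the union of a separated family** -/
theorem sepF_exists (_hself : ∀ i, i ∈ nb i) (hsymm : ∀ i j, j ∈ nb i → i ∈ nb j) (X : Finset I) :
    ∃ D, SepF nb D ∧ D.biUnion id = X := by
  classical
  induction hn : X.card using Nat.strong_induction_on generalizing X with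
  | _ n ih =>
    rcases X.eq_empty_or_nonempty with hX | hX
    · subst hX
      exact ⟨∅, ⟨fun C hC => absurd hC (Finset.notMem_empty C), fun C hC => absurd hC (Finset.notMem_empty C)⟩, by simp⟩
    · obtain ⟨C, hC, hcl⟩ := exists_comp (nb := nb) hX
      have hlt : (X \ C).card < n := by
        rw [← hn]
        refine Finset.card_lt_card (Finset.ssubset_iff_subset_ne.2 ⟨Finset.sdiff_subset, fun hh => ?_⟩)
        obtain ⟨a, ha⟩ := hC.1
        have h1 : a ∈ X \ C := by
          rw [hh]
          exact hcl.1 ha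
        exact (Finset.mem_sdiff.1 h1).2 ha
      obtain ⟨D0, hD0, hU⟩ := ih _ hlt (X \ C) rfl
      have hsub : ∀ C' ∈ D0, C' ⊆ X \ C := fun C' hC' x hx => by
        rw [← hU]
        exact Finset.mem_biUnion.2 ⟨C', hC', hx⟩
      have h1 : ∀ C' ∈ D0, ∀ a ∈ C, ∀ b ∈ C', b ∉ nb a := by
        intro C' hC' a ha b hb hab
        have h2 := Finset.mem_sdiff.1 (hsub C' hC' hb)
        exact h2.2 (hcl.2 a ha b h2.1 hab)
      refine ⟨insert C D0, ⟨fun C' hC' => ?_, fun C1 hC1 C2 hC2 hne a ha b hb => ?_⟩, ?_⟩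
      · rcases Finset.mem_insert.1 hC' with h2 | h2
        · rw [h2]
          exact hC
        · exact hD0.1 C' h2
      · rcases Finset.mem_insert.1 hC1 with h2 | h2
        · rcases Finset.mem_insert.1 hC2 with h3 | h3
          · exact absurd (h2.trans h3.symm) hne
          · rw [h2] at ha
            exact h1 C2 h3 a ha b hb
        · rcases Finset.mem_insert.1 hC2 with h3 | h3
          · rw [h3] at hb
            exact fun hab => h1 C1 h2 b hb a ha (hsymm a b hab)
          · exact hD0.2 C1 h2 C2 h3 hne a ha b hb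
      · rw [Finset.biUnion_insert, hU]
        exact Finset.union_sdiff_of_subset hcl.1

/-- one inclusion -/
theorem sepF_sub {D D' : Finset (Finset I)} (hD : SepF nb D) (hD' : SepF nb D')
    (hU : D.biUnion id = D'.biUnion id) : D ⊆ D' := by
  intro C hC
  obtain ⟨a, ha⟩ := (hD.1 C hC).1
  have h1 : a ∈ D'.biUnion id := by
    rw [← hU]
    exact Finset.mem_biUnion.2 ⟨C, hC, ha⟩
  obtain ⟨C', hC', ha'⟩ := Finset.mem_biUnion.1 h1
  have c1 := ClX_of_sep hD hC
  have c2 := ClX_of_sep hD' hC'
  rw [hU] at c1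
  have e1 : C ∩ C' = C := (hD.1 C hC).2 (C ∩ C') Finset.inter_subset_left ⟨a, Finset.mem_inter.2 ⟨ha, ha'⟩⟩
    fun x hx y hy hxy => Finset.mem_inter.2 ⟨hy, c2.2 x (Finset.mem_inter.1 hx).2 y (c1.1 hy) hxy⟩
  have e2 : C ∩ C' = C' := (hD'.1 C' hC').2 (C ∩ C') Finset.inter_subset_right ⟨a, Finset.mem_inter.2 ⟨ha, ha'⟩⟩
    fun x hx y hy hxy => Finset.mem_inter.2 ⟨c1.2 x (Finset.mem_inter.1 hx).1 y (c2.1 hy) hxy, hy⟩
  rw [← e1, e2]
  exact hC'

/-- **the family is unique** -/
theorem sepF_unique {D D' : Finset (Finset I)} (hD : SepF nb D) (hD' : SepF nb D')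
    (hU : D.biUnion id = D'.biUnion id) : D = D' :=
  Finset.Subset.antisymm (sepF_sub hD hD' hU) (sepF_sub hD' hD hU.symm)

end Pool.Agent.Hhelper68.CS
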