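import Pool.Agent.Hhelper68.CS.Sum
import Pool.Agent.Hhelper68.CS.Comp
import Pool.Agent.Hhelper68.CS.Count

/-!
The truncated cluster sum, times the inverse exponential, is close to one.
-/

set_option autoImplicit false
set_option linter.unusedSectionVars false

open scoped BigOperators

namespace Pool.Agent.Hhelper68.CS

section close

variable {I : Type} [Fintype I] [DecidableEq I] {nb : I → Finset I}
variable {𝔸 : Type} [NormedRing 𝔸] [NormedAlgebra ℂ 𝔸] [CompleteSpace 𝔸] (h : I → 𝔸)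

/-- the cluster bound -/
theorem clF_bound [NormOneClass 𝔸] {s : ℕ} (hs : ∀ i, (nb i).card ≤ s) (hn : ∀ i, ‖h i‖ ≤ 1)
    (hnb : ∀ i j, j ∉ nb i → Commute (h i) (h j)) (hself : ∀ i, i ∈ nb i) {ρ : ℝ} (hρ : 1 ≤ ρ)
    (A B : Finset I) {t : ℝ} (ht : 0 ≤ t) (htr : t * ρ * (2 * s) ≤ 1 / 2) :
    ‖clF h t B * FE h t (awy nb A B) * EE h t A‖ ≤
      (Real.exp (2 * (1 + ρ) * s * t) * (2 / ρ)) ^ B.card := by
  have h1 := clus_le h nb hs hn hnb hself hρ A B ht htr
  rw [clF_mul_FE h (far_awy h hself hnb A B), Finset.sum_mul]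
  refine le_trans (le_of_eq ?_) h1
  congr 1
  refine Finset.sum_congr rfl (fun Y _ => ?_)
  rw [smul_mul_assoc]
  rfl

theorem clF_comm_clS (hself : ∀ i, i ∈ nb i) (hnb : ∀ i j, j ∉ nb i → Commute (h i) (h j))
    (t : ℝ) (m : ℕ) (A B : Finset I) :
    Commute (clF h t B) (clS nb h t m (awy nb A B)) := by
  rw [clS_def]
  refine Commute.sum_right _ _ _ (fun D hD => ?_)
  rw [mem_smallF] at hD
  apply clF_comm
  apply (far_awy h hself hnb A B).mono h (Finset.Subset.refl _)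
  intro j hj
  simp only [Finset.mem_biUnion, id] at hj
  obtain ⟨C, hC, hj⟩ := hj
  exact hD.2.1 C hC hj

/-- the induction -/
theorem clS_norm [NormOneClass 𝔸] (hself : ∀ i, i ∈ nb i)
    (hsymm : ∀ i j, j ∈ nb i → i ∈ nb j)
    (hnb : ∀ i j, j ∉ nb i → Commute (h i) (h j)) (t : ℝ) (m : ℕ) {δ σ : ℝ}
    (_hδ0 : 0 ≤ δ) (hδ : ∀ A B : Finset I, ‖clF h t B * FE h t (awy nb A B) * EE h t A‖ ≤ δ ^ B.card)
    (hσ : ∀ A, ∑ D ∈ (bigF nb m A).erase ∅, δ ^ (D.biUnion id).card ≤ σ) (hσ2 : σ ≤ 1 / 2) :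
    ∀ A : Finset I, ‖clS nb h t m A * EE h t A - 1‖ ≤ 2 * σ := by
  classical
  intro A
  induction A using Finset.strongInduction with
  | H A ih =>
    have hrec := recur h hself hsymm hnb (fun X => sepF_exists hself hsymm X)
      (fun D D' hD hD' hU => sepF_unique hD hD' hU) t m A
    have h1 : clS nb h t m A * EE h t A - 1 = -∑ D ∈ (bigF nb m A).erase ∅,
        (clF h t (D.biUnion id) * clS nb h t m (awy nb A (D.biUnion id))) * EE h t A := by
      have h2 := FE_mul_EE h t A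
      rw [hrec, add_mul, Finset.sum_mul] at h2
      rw [← h2]
      abel
    rw [h1, norm_neg]
    have h3 : ∀ D ∈ (bigF nb m A).erase ∅,
        ‖(clF h t (D.biUnion id) * clS nb h t m (awy nb A (D.biUnion id))) * EE h t A‖ ≤
          2 * δ ^ (D.biUnion id).card := by
      intro D hD
      rw [Finset.mem_erase, mem_bigF] at hD
      obtain ⟨hne, hs, hA, -⟩ := hD
      obtain ⟨B, hB⟩ : ∃ B, B = D.biUnion id := ⟨_, rfl⟩
      rw [← hB]
      have hBA : B ⊆ A := by
        rw [hB]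
        intro j hj
        simp only [Finset.mem_biUnion, id] at hj
        obtain ⟨C, hC, hj⟩ := hj
        exact hA C hC hj
      obtain ⟨C, hC⟩ := Finset.nonempty_iff_ne_empty.2 hne
      obtain ⟨j, hj⟩ := (hs.1 C hC).1
      have hjB : j ∈ B := by
        rw [hB]
        simp only [Finset.mem_biUnion, id]
        exact ⟨C, hC, hj⟩
      have hss : awy nb A B ⊂ A := by
        rw [Finset.ssubset_iff_of_subset (by unfold awy; exact Finset.sdiff_subset)]
        refine ⟨j, hBA hjB, fun hcon => ?_⟩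
        exact Finset.disjoint_left.1 (far_awy h hself hnb A B).1 hjB hcon
      have h4 := ih (awy nb A B) hss
      have h5 : ‖clS nb h t m (awy nb A B) * EE h t (awy nb A B)‖ ≤ 2 := by
        have h6 := norm_add_le (clS nb h t m (awy nb A B) * EE h t (awy nb A B) - 1) 1
        rw [sub_add_cancel, norm_one] at h6
        linarith
      have hc1 := clF_comm_clS h hself hnb t m A B
      have hc2 : Commute (clF h t B) (EE h t (awy nb A B)) := by
        rw [EE_eq]
        exact clF_comm_FE h (far_awy h hself hnb A B)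
      have h7 : (clF h t B * clS nb h t m (awy nb A B)) * EE h t A =
          (clS nb h t m (awy nb A B) * EE h t (awy nb A B)) *
            (clF h t B * FE h t (awy nb A B) * EE h t A) := by
        have h8 : (clS nb h t m (awy nb A B) * EE h t (awy nb A B)) *
            (clF h t B * FE h t (awy nb A B) * EE h t A) =
            ((clS nb h t m (awy nb A B) * EE h t (awy nb A B)) * clF h t B) *
              FE h t (awy nb A B) * EE h t A := by
          simp only [mul_assoc]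
        rw [h8, ← (hc1.mul_right hc2).eq]
        have h9 : clF h t B * (clS nb h t m (awy nb A B) * EE h t (awy nb A B)) *
            FE h t (awy nb A B) * EE h t A = clF h t B * clS nb h t m (awy nb A B) *
            (EE h t (awy nb A B) * FE h t (awy nb A B)) * EE h t A := by
          simp only [mul_assoc]
        rw [h9, EE_mul_FE, mul_one]
      rw [h7]
      refine (norm_mul_le _ _).trans ?_
      exact mul_le_mul h5 (hδ A B) (norm_nonneg _) (by norm_num)
    refine (norm_sum_le _ _).trans ((Finset.sum_le_sum h3).trans ?_)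
    rw [← Finset.mul_sum]
    exact mul_le_mul_of_nonneg_left (hσ A) (by norm_num)

open Classical in
/-- the sum over the families of big clusters -/
theorem big_sum (hself : ∀ i, i ∈ nb i) (m : ℕ) {δ : ℝ} (hδ0 : 0 ≤ δ) (A : Finset I) :
    ∑ D ∈ (bigF nb m A).erase ∅, δ ^ (D.biUnion id).card ≤
      Real.exp (∑ C ∈ (Finset.univ : Finset (Finset I)).filter
        (fun C => ConnF nb C ∧ m < C.card), δ ^ C.card) - 1 := by
  obtain ⟨K, hK⟩ : ∃ K, K = (Finset.univ : Finset (Finset I)).filter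
    (fun C => ConnF nb C ∧ m < C.card) := ⟨_, rfl⟩
  rw [← hK]
  have h1 : ∀ D ∈ (bigF nb m A).erase ∅, δ ^ (D.biUnion id).card = ∏ C ∈ D, δ ^ C.card := by
    intro D hD
    rw [Finset.mem_erase, mem_bigF] at hD
    rw [Finset.prod_pow_eq_pow_sum]
    congr 1
    rw [Finset.card_biUnion]
    · rfl
    · intro C hC C' hC' hne
      change Disjoint C C'
      rw [Finset.disjoint_left]
      intro j hj hj'
      exact hD.2.1.2 C hC C' hC' hne j hj j hj' (hself j)
  have h2 : (bigF nb m A).erase ∅ ⊆ K.powerset.erase ∅ := by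
    intro D hD
    rw [Finset.mem_erase, mem_bigF] at hD
    rw [Finset.mem_erase, Finset.mem_powerset]
    refine ⟨hD.1, fun C hC => ?_⟩
    rw [hK, Finset.mem_filter]
    exact ⟨Finset.mem_univ _, hD.2.1.1 C hC, hD.2.2.2 C hC⟩
  have h3 : ∑ D ∈ K.powerset.erase ∅, ∏ C ∈ D, δ ^ C.card = ∏ C ∈ K, (1 + δ ^ C.card) - 1 := by
    have h4 := Finset.prod_one_add (s := K) (f := fun C => δ ^ C.card)
    have h5 := Finset.add_sum_erase K.powerset (fun D => ∏ C ∈ D, δ ^ C.card)
      (Finset.empty_mem_powerset K)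
    simp only [Finset.prod_empty] at h5
    rw [h4, ← h5]
    ring
  have h6 : ∏ C ∈ K, (1 + δ ^ C.card) ≤ Real.exp (∑ C ∈ K, δ ^ C.card) := by
    rw [Real.exp_sum]
    apply Finset.prod_le_prod
    · intro C _
      positivity
    · intro C _
      have := Real.add_one_le_exp (δ ^ C.card)
      linarith
  calc ∑ D ∈ (bigF nb m A).erase ∅, δ ^ (D.biUnion id).card
      = ∑ D ∈ (bigF nb m A).erase ∅, ∏ C ∈ D, δ ^ C.card := Finset.sum_congr rfl h1
    _ ≤ ∑ D ∈ K.powerset.erase ∅, ∏ C ∈ D, δ ^ C.card := by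
        apply Finset.sum_le_sum_of_subset_of_nonneg h2
        intro D _ _
        exact Finset.prod_nonneg (fun C _ => by positivity)
    _ = ∏ C ∈ K, (1 + δ ^ C.card) - 1 := h3
    _ ≤ _ := by linarith

/-- **The truncated cluster sum is close to the exponential.** -/
theorem clS_close (s : ℕ) : ∃ t₀ : ℝ, 0 < t₀ ∧
    ∀ (𝔸 : Type) [NormedRing 𝔸] [NormedAlgebra ℂ 𝔸] [CompleteSpace 𝔸] [NormOneClass 𝔸]
      (I : Type) [Fintype I] [DecidableEq I] (nb : I → Finset I) (h : I → 𝔸) (m : ℕ),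
      (∀ i, (nb i).card ≤ s) → (∀ i, ‖h i‖ ≤ 1) →
      (∀ i j, j ∉ nb i → Commute (h i) (h j)) → (∀ i, i ∈ nb i) →
      (∀ i j, j ∈ nb i → i ∈ nb j) → 3 ≤ m → Fintype.card I ≤ 2 ^ m →
      ∀ t : ℝ, 0 ≤ t → t ≤ t₀ → ∃ η : ℝ, 0 ≤ η ∧ η ≤ 1 / 2 ∧ η ≤ Fintype.card I / 2 ^ m ∧
        ‖clS nb h t m Finset.univ * NormedSpace.exp ((t : ℂ) • ∑ i, h i) - 1‖ ≤ η := by
  classical
  obtain ⟨ρ, hρd⟩ : ∃ ρ : ℝ, ρ = 2 ^ (s + 4) := ⟨_, rfl⟩
  have hρ16 : 16 ≤ ρ := by
    rw [hρd]
    calc (16 : ℝ) = 2 ^ 4 := by norm_num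
      _ ≤ 2 ^ (s + 4) := pow_le_pow_right₀ (by norm_num) (by omega)
  have hρ : 1 ≤ ρ := by linarith
  refine ⟨1 / (4 * (1 + ρ) * (s + 1)), by positivity, ?_⟩
  intro 𝔸 _ _ _ _ I _ _ nb h m hs hn hnb hself hsymm hm hcard t ht htt
  have hs0 : (0 : ℝ) ≤ s := by positivity
  have htt' : t * (4 * (1 + ρ) * (s + 1)) ≤ 1 := by
    rwa [le_div_iff₀ (by positivity)] at htt
  have htr : t * ρ * (2 * s) ≤ 1 / 2 := by
    have h1 : t * ρ * (2 * s) * 2 ≤ t * (4 * (1 + ρ) * (s + 1)) := by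
      have : t * (4 * (1 + ρ) * (s + 1)) - t * ρ * (2 * s) * 2 = t * (4 * s + 4 + 4 * ρ) := by ring
      have h2 : 0 ≤ t * (4 * s + 4 + 4 * ρ) := by positivity
      linarith
    linarith
  obtain ⟨δ, hδ⟩ : ∃ δ : ℝ, δ = 1 / 2 ^ (s + 2) := ⟨_, rfl⟩
  have hδ0 : 0 ≤ δ := by rw [hδ]; positivity
  have hδ1 : Real.exp (2 * (1 + ρ) * s * t) * (2 / ρ) ≤ δ := by
    have h1 : 2 * (1 + ρ) * s * t ≤ 1 / 2 := by
      have h2 : 2 * (1 + ρ) * s * t * 2 ≤ t * (4 * (1 + ρ) * (s + 1)) := by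
        have : t * (4 * (1 + ρ) * (s + 1)) - 2 * (1 + ρ) * s * t * 2 = t * (4 * (1 + ρ)) := by ring
        have h3 : 0 ≤ t * (4 * (1 + ρ)) := by positivity
        linarith
      linarith
    have h2 : Real.exp (2 * (1 + ρ) * s * t) ≤ 2 := by
      refine (Real.exp_le_exp.2 h1).trans ?_
      have h3 := Real.exp_bound_div_one_sub_of_interval (x := 1 / 2) (by norm_num) (by norm_num)
      norm_num at h3
      norm_num
      exact h3
    calc Real.exp (2 * (1 + ρ) * s * t) * (2 / ρ) ≤ 2 * (2 / ρ) :=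
          mul_le_mul_of_nonneg_right h2 (by positivity)
      _ = δ := by
        rw [hδ, hρd, pow_add, pow_add]
        field_simp
  obtain ⟨x, hx⟩ : ∃ x : ℝ, x = ∑ C ∈ (Finset.univ : Finset (Finset I)).filter
      (fun C => ConnF nb C ∧ m < C.card), δ ^ C.card := ⟨_, rfl⟩
  have hx0 : 0 ≤ x := by rw [hx]; positivity
  have hx1 : x ≤ (Fintype.card I : ℝ) / 4 ^ m := by
    rw [hx]
    apply count_sum hs hδ0
    rw [hδ, pow_add]
    have : (0 : ℝ) < 2 ^ s := by positivity
    field_simp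
    norm_num
  obtain ⟨c, hc⟩ : ∃ c : ℝ, c = (Fintype.card I : ℝ) / 2 ^ m := ⟨_, rfl⟩
  have h2m : (8 : ℝ) ≤ 2 ^ m := by
    calc (8 : ℝ) = 2 ^ 3 := by norm_num
      _ ≤ 2 ^ m := pow_le_pow_right₀ (by norm_num) hm
  have hc0 : 0 ≤ c := by rw [hc]; positivity
  have hc1 : c ≤ 1 := by
    rw [hc, div_le_one (by positivity)]
    exact_mod_cast hcard
  have hx2 : x * 8 ≤ c := by
    have h1 : (Fintype.card I : ℝ) / 4 ^ m * 2 ^ m = c := by
      rw [hc]
      have h4 : (4 : ℝ) ^ m = 2 ^ m * 2 ^ m := by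
        rw [← mul_pow]; norm_num
      rw [h4]
      field_simp
    calc x * 8 ≤ (Fintype.card I : ℝ) / 4 ^ m * 2 ^ m :=
          mul_le_mul hx1 h2m (by norm_num) (by positivity)
      _ = c := h1
  have hσ : ∀ A, ∑ D ∈ (bigF nb m A).erase ∅, δ ^ (D.biUnion id).card ≤ 2 * x := by
    intro A
    refine (big_sum hself m hδ0 A).trans ?_
    rw [← hx]
    have h1 := Real.abs_exp_sub_one_sub_id_le (x := x) (by rw [abs_of_nonneg hx0]; linarith)
    have h2 := (abs_le.1 h1).2
    nlinarith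
  have hmain := clS_norm h hself hsymm hnb t m hδ0 (fun A B => by
    refine (clF_bound h hs hn hnb hself hρ A B ht htr).trans ?_
    exact pow_le_pow_left₀ (by positivity) hδ1 _) hσ (by linarith) Finset.univ
  refine ⟨2 * (2 * x), by positivity, by linarith, by rw [← hc]; linarith, hmain⟩

end close

end Pool.Agent.Hhelper68.CS
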