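import Mathlib

/-!
# Number of connected sets (helper87, for helper68)

`nb i` = the neighbours of `i`, at most `z` of them.  `ConnF nb C` : `C` is not empty, and every nonempty subset of `C` which is
closed under `nb` inside `C` is `C`.
* `card_conn` : at most `2 ^ (z n)` connected sets with `n` elements contain `i`;
* `card_connR` : the same for a relation.
-/

set_option autoImplicit false

namespace Pool.Agent.Hhelper68.CS.Count87

open Finset

variable {I : Type*} [Fintype I] [DecidableEq I]

/-- connected sets -/
def ConnF (nb : I → Finset I) (C : Finset I) : Prop :=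
  C.Nonempty ∧ ∀ A : Finset I, A ⊆ C → A.Nonempty → (∀ a ∈ A, ∀ b ∈ C, b ∈ nb a → b ∈ A) → A = C

open Classical in
/-- the exploration: `P` explored, `F` found, `X` excluded -/
theorem explore (nb : I → Finset I) (z : ℕ) (hz : ∀ i, (nb i).card ≤ z) (n : ℕ) :
    ∀ (k : ℕ) (P F X : Finset I), Disjoint P F → (P ∪ F).Nonempty → P.card + k = n →
      (∀ p ∈ P, nb p ⊆ P ∪ F ∪ X) →
      (univ.filter fun C : Finset I => ConnF nb C ∧ C.card = n ∧ P ∪ F ⊆ C ∧ Disjoint C X).card ≤ 2 ^ (z * k) := by
  intro k
  induction k with
  | zero =>
    intro P F X hPF hne hk hP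
    rw [mul_zero, pow_zero, Finset.card_le_one]
    have key : ∀ C ∈ univ.filter fun C : Finset I => ConnF nb C ∧ C.card = n ∧ P ∪ F ⊆ C ∧ Disjoint C X, P = C := by
      intro C hC
      obtain ⟨-, -, h2, h3, -⟩ := Finset.mem_filter.1 hC
      exact Finset.eq_of_subset_of_card_le (Finset.subset_union_left.trans h3) (by omega)
    intro C hC C' hC'
    rw [← key C hC, ← key C' hC']
  | succ k ih =>
    intro P F X hPF hne hk hP
    rcases F.eq_empty_or_nonempty with hF | ⟨v, hv⟩
    · subst hF
      rw [Finset.union_empty] at hne
      refine le_trans ?_ (Nat.one_le_two_pow)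
      rw [Finset.card_le_one]
      have key : ∀ C ∈ univ.filter fun C : Finset I => ConnF nb C ∧ C.card = n ∧ P ∪ ∅ ⊆ C ∧ Disjoint C X, P = C := by
        intro C hC
        obtain ⟨-, h1, -, h3, h4⟩ := Finset.mem_filter.1 hC
        rw [Finset.union_empty] at h3
        refine h1.2 P h3 hne fun a ha b hb hab => ?_
        have h5 := hP a ha hab
        rw [Finset.union_empty, Finset.mem_union] at h5
        rcases h5 with h6 | h6
        · exact h6
        · exact absurd h6 (Finset.disjoint_left.1 h4 hb)
      intro C hC C' hC'
      rw [← key C hC, ← key C' hC']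
    · have hvP : v ∉ P := fun hh => Finset.disjoint_left.1 hPF hh hv
      set U := nb v \ (P ∪ F) with hU
      have hUz : U.card ≤ z := (Finset.card_le_card Finset.sdiff_subset).trans (hz v)
      have hsub : (univ.filter fun C : Finset I => ConnF nb C ∧ C.card = n ∧ P ∪ F ⊆ C ∧ Disjoint C X) ⊆
          U.powerset.biUnion fun S => univ.filter fun C : Finset I => ConnF nb C ∧ C.card = n ∧
            insert v P ∪ (F.erase v ∪ S) ⊆ C ∧ Disjoint C (X ∪ (U \ S)) := by
        intro C hC
        obtain ⟨-, h1, h2, h3, h4⟩ := Finset.mem_filter.1 hC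
        refine Finset.mem_biUnion.2 ⟨U ∩ C, Finset.mem_powerset.2 Finset.inter_subset_left, Finset.mem_filter.2
          ⟨mem_univ _, h1, h2, ?_, ?_⟩⟩
        · intro x hx
          rcases Finset.mem_union.1 hx with h5 | h5
          · rcases Finset.mem_insert.1 h5 with h6 | h6
            · rw [h6]
              exact h3 (Finset.mem_union_right _ hv)
            · exact h3 (Finset.mem_union_left _ h6)
          · rcases Finset.mem_union.1 h5 with h6 | h6
            · exact h3 (Finset.mem_union_right _ (Finset.mem_of_mem_erase h6))
            · exact (Finset.mem_inter.1 h6).2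
        · rw [Finset.disjoint_union_right]
          refine ⟨h4, Finset.disjoint_left.2 fun x hx hx' => ?_⟩
          obtain ⟨h5, h6⟩ := Finset.mem_sdiff.1 hx'
          exact h6 (Finset.mem_inter.2 ⟨h5, hx⟩)
      refine (Finset.card_le_card hsub).trans (Finset.card_biUnion_le.trans ?_)
      have hb : ∀ S ∈ U.powerset, (univ.filter fun C : Finset I => ConnF nb C ∧ C.card = n ∧
            insert v P ∪ (F.erase v ∪ S) ⊆ C ∧ Disjoint C (X ∪ (U \ S))).card ≤ 2 ^ (z * k) := by
        intro S hS
        have hSU := Finset.mem_powerset.1 hS
        refine ih (insert v P) (F.erase v ∪ S) (X ∪ (U \ S)) ?_ ⟨v, ?_⟩ ?_ ?_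
        · rw [Finset.disjoint_union_right]
          constructor
          · refine Finset.disjoint_left.2 fun x hx hx' => ?_
            rcases Finset.mem_insert.1 hx with h5 | h5
            · exact (Finset.mem_erase.1 hx').1 h5
            · exact Finset.disjoint_left.1 hPF h5 (Finset.mem_of_mem_erase hx')
          · refine Finset.disjoint_left.2 fun x hx hx' => ?_
            have h6 := (Finset.mem_sdiff.1 (hSU hx')).2
            rcases Finset.mem_insert.1 hx with h5 | h5
            · rw [h5] at h6
              exact h6 (Finset.mem_union_right _ hv)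
            · exact h6 (Finset.mem_union_left _ h5)
        · exact Finset.mem_union_left _ (Finset.mem_insert_self v P)
        · rw [Finset.card_insert_of_notMem hvP]
          omega
        · intro p hp x hx
          rcases Finset.mem_insert.1 hp with h5 | h5
          · rw [h5] at hx
            by_cases h6 : x ∈ P ∪ F
            · rcases Finset.mem_union.1 h6 with h7 | h7
              · exact Finset.mem_union_left _ (Finset.mem_union_left _ (Finset.mem_insert_of_mem h7))
              · by_cases h8 : x = v
                · rw [h8]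
                  exact Finset.mem_union_left _ (Finset.mem_union_left _ (Finset.mem_insert_self v P))
                · exact Finset.mem_union_left _ (Finset.mem_union_right _ (Finset.mem_union_left _
                    (Finset.mem_erase.2 ⟨h8, h7⟩)))
            · have h7 : x ∈ U := Finset.mem_sdiff.2 ⟨hx, h6⟩
              by_cases h8 : x ∈ S
              · exact Finset.mem_union_left _ (Finset.mem_union_right _ (Finset.mem_union_right _ h8))
              · exact Finset.mem_union_right _ (Finset.mem_union_right _ (Finset.mem_sdiff.2 ⟨h7, h8⟩))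
          · have h6 := hP p h5 hx
            rcases Finset.mem_union.1 h6 with h7 | h7
            · rcases Finset.mem_union.1 h7 with h8 | h8
              · exact Finset.mem_union_left _ (Finset.mem_union_left _ (Finset.mem_insert_of_mem h8))
              · by_cases h9 : x = v
                · rw [h9]
                  exact Finset.mem_union_left _ (Finset.mem_union_left _ (Finset.mem_insert_self v P))
                · exact Finset.mem_union_left _ (Finset.mem_union_right _ (Finset.mem_union_left _
                    (Finset.mem_erase.2 ⟨h9, h8⟩)))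
            · exact Finset.mem_union_right _ (Finset.mem_union_left _ h7)
      refine (Finset.sum_le_card_nsmul _ _ _ hb).trans ?_
      rw [Finset.card_powerset, smul_eq_mul, Nat.mul_succ, pow_add, mul_comm (2 ^ (z * k))]
      exact Nat.mul_le_mul_right _ (Nat.pow_le_pow_right (by norm_num) hUz)

open Classical in
/-- **at most `2 ^ (z n)` connected sets with `n` elements contain `i`** -/
theorem card_conn (nb : I → Finset I) {z : ℕ} (hz : ∀ i, (nb i).card ≤ z) (i : I) (n : ℕ) :
    (univ.filter fun C : Finset I => ConnF nb C ∧ C.card = n ∧ i ∈ C).card ≤ 2 ^ (z * n) := by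
  have h1 := explore nb z hz n n ∅ {i} ∅ (Finset.disjoint_empty_left _) ⟨i, by simp⟩ (by simp) (by simp)
  refine le_trans (Finset.card_le_card fun C hC => ?_) h1
  obtain ⟨-, h2, h3, h4⟩ := Finset.mem_filter.1 hC
  exact Finset.mem_filter.2 ⟨mem_univ _, h2, h3, by simpa using h4, Finset.disjoint_empty_right _⟩

/-- connected sets of a relation -/
def ConnR (nb : I → I → Prop) (C : Finset I) : Prop :=
  C.Nonempty ∧ ∀ A : Finset I, A ⊆ C → A.Nonempty → (∀ a ∈ A, ∀ b ∈ C, nb a b → b ∈ A) → A = C

open Classical in
/-- the same for a relation -/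
theorem card_connR (nb : I → I → Prop) {z : ℕ} (hz : ∀ i, (univ.filter fun j => nb i j).card ≤ z) (i : I) (n : ℕ) :
    (univ.filter fun C : Finset I => ConnR nb C ∧ C.card = n ∧ i ∈ C).card ≤ 2 ^ (z * n) := by
  refine le_trans (Finset.card_le_card fun C hC => ?_) (card_conn (fun a => univ.filter fun j => nb a j) hz i n)
  obtain ⟨-, h2, h3, h4⟩ := Finset.mem_filter.1 hC
  refine Finset.mem_filter.2 ⟨mem_univ _, ⟨h2.1, fun A h5 h6 h7 => h2.2 A h5 h6 fun a ha b hb hab => ?_⟩, h3, h4⟩
  exact h7 a ha b hb (Finset.mem_filter.2 ⟨mem_univ _, hab⟩)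

end Pool.Agent.Hhelper68.CS.Count87
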