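import Pool.Agent.Hhelper68.CS.OpNet

/-!
The sum over families of disjoint clusters of a product of local kernels is an operator network.
-/

set_option autoImplicit false
set_option linter.unusedSectionVars false

open scoped BigOperators ComplexOrder
open Matrix

namespace Pool.Agent.Hhelper96.PEPS

section fam

variable {N d : ℕ} [NeZero N]

/-- a set of sites, connected by the steps `(1, 0)` and `(0, 1)` -/
def LatConn (S : Finset (Site N)) : Prop :=
  S.Nonempty ∧ ∀ P : Site N → Prop, (∃ u ∈ S, P u) →
    (∀ u ∈ S, u - (1, 0) ∈ S → (P u ↔ P (u - (1, 0)))) →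
    (∀ u ∈ S, u - (0, 1) ∈ S → (P u ↔ P (u - (0, 1)))) → ∀ u ∈ S, P u

variable {ι : Type} [Fintype ι] [DecidableEq ι]

/-- a label: a cluster together with two configurations -/
abbrev FLab (N d : ℕ) (ι : Type) : Type := Option (ι × (Site N → Fin d) × (Site N → Fin d))

/-- the configurations of a label are constant outside of the support -/
def canon (supp : ι → Finset (Site N)) (z : Fin d)
    (x : ι × (Site N → Fin d) × (Site N → Fin d)) : Prop :=
  ∀ u, u ∉ supp x.1 → x.2.1 u = z ∧ x.2.2 u = z

/-- the local checks -/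
def chk (supp : ι → Finset (Site N)) (z : Fin d) (v : Site N) (a b : Fin d)
    (l m c : FLab N d ι) : Prop :=
  (c = none → a = b) ∧
  (∀ x, c = some x → v ∈ supp x.1 ∧ canon supp z x ∧ x.2.1 v = a ∧ x.2.2 v = b) ∧
  (∀ x, l = some x → v ∈ supp x.1 → c = some x) ∧
  (∀ x, c = some x → v - (1, 0) ∈ supp x.1 → l = some x) ∧
  (∀ x, m = some x → v ∈ supp x.1 → c = some x) ∧
  (∀ x, c = some x → v - (0, 1) ∈ supp x.1 → m = some x)

/-- the factor carried by the first site of a cluster -/
noncomputable def rtf (root : ι → Site N) (g : ι → (Site N → Fin d) → (Site N → Fin d) → ℂ)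
    (v : Site N) : FLab N d ι → ℂ
  | none => 1
  | some x => open Classical in if v = root x.1 then g x.1 x.2.1 x.2.2 else 1

open Classical in
/-- restriction of a configuration to a support -/
noncomputable def rst (S : Finset (Site N)) (z : Fin d) (s : Site N → Fin d) : Site N → Fin d :=
  fun u => if u ∈ S then s u else z

/-- the checks make the label constant on the supports -/
theorem chk_const {supp : ι → Finset (Site N)} {z : Fin d} (hconn : ∀ i, LatConn (supp i))
    {s s' : Site N → Fin d} {y : Site N → FLab N d ι}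
    (hy : ∀ v, chk supp z v (s v) (s' v) (y (v - (1, 0))) (y (v - (0, 1))) (y v))
    {v : Site N} {x : ι × (Site N → Fin d) × (Site N → Fin d)} (hv : y v = some x) :
    ∀ u ∈ supp x.1, y u = some x := by
  refine (hconn x.1).2 (fun u => y u = some x) ⟨v, ((hy v).2.1 x hv).1, hv⟩ ?_ ?_
  · intro u hu hu'
    exact ⟨fun h => (hy u).2.2.2.1 x h hu', fun h => (hy u).2.2.1 x h hu⟩
  · intro u hu hu'
    exact ⟨fun h => (hy u).2.2.2.2.2 x h hu', fun h => (hy u).2.2.2.2.1 x h hu⟩

open Classical in
/-- the label configuration of a family -/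
noncomputable def famLab (supp : ι → Finset (Site N)) (z : Fin d) (s s' : Site N → Fin d)
    (D : Finset ι) (v : Site N) : FLab N d ι :=
  if h : ∃ i ∈ D, v ∈ supp i then
    some (h.choose, rst (supp h.choose) z s, rst (supp h.choose) z s') else none

theorem famLab_of_mem {supp : ι → Finset (Site N)} {z : Fin d} {s s' : Site N → Fin d}
    {D : Finset ι} (hD : ∀ i ∈ D, ∀ j ∈ D, i ≠ j → Disjoint (supp i) (supp j)) {v : Site N}
    {i : ι} (hi : i ∈ D) (hv : v ∈ supp i) :
    famLab supp z s s' D v = some (i, rst (supp i) z s, rst (supp i) z s') := by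
  have h : ∃ i ∈ D, v ∈ supp i := ⟨i, hi, hv⟩
  have h1 : h.choose = i := by
    by_contra hne
    exact Finset.disjoint_left.1 (hD _ h.choose_spec.1 i hi hne) h.choose_spec.2 hv
  unfold famLab
  rw [dif_pos h, h1]

theorem famLab_of_notMem {supp : ι → Finset (Site N)} {z : Fin d} {s s' : Site N → Fin d}
    {D : Finset ι} {v : Site N} (hv : ∀ i ∈ D, v ∉ supp i) :
    famLab supp z s s' D v = none := by
  unfold famLab
  rw [dif_neg]
  rintro ⟨i, hi, h⟩
  exact hv i hi h

theorem famLab_cases {supp : ι → Finset (Site N)} {z : Fin d} {s s' : Site N → Fin d}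
    {D : Finset ι} (hD : ∀ i ∈ D, ∀ j ∈ D, i ≠ j → Disjoint (supp i) (supp j)) (v : Site N) :
    (∃ i ∈ D, v ∈ supp i ∧
      famLab supp z s s' D v = some (i, rst (supp i) z s, rst (supp i) z s')) ∨
    ((∀ i ∈ D, v ∉ supp i) ∧ famLab supp z s s' D v = none) := by
  by_cases h : ∃ i ∈ D, v ∈ supp i
  · obtain ⟨i, hi, hv⟩ := h
    exact Or.inl ⟨i, hi, hv, famLab_of_mem hD hi hv⟩
  · push Not at h
    exact Or.inr ⟨h, famLab_of_notMem h⟩

theorem famLab_some {supp : ι → Finset (Site N)} {z : Fin d} {s s' : Site N → Fin d}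
    {D : Finset ι} (hD : ∀ i ∈ D, ∀ j ∈ D, i ≠ j → Disjoint (supp i) (supp j)) {v : Site N}
    {x : ι × (Site N → Fin d) × (Site N → Fin d)} (h : famLab supp z s s' D v = some x) :
    x.1 ∈ D ∧ v ∈ supp x.1 ∧ x = (x.1, rst (supp x.1) z s, rst (supp x.1) z s') := by
  rcases famLab_cases (z := z) (s := s) (s' := s') hD v with ⟨i, hi, hv, h1⟩ | ⟨_, h1⟩
  · rw [h1, Option.some.injEq] at h
    subst h
    exact ⟨hi, hv, rfl⟩
  · rw [h1] at h
    exact absurd h (by simp)

open Classical in
/-- the network of a sum over families of disjoint clusters -/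
theorem opNet_families (supp : ι → Finset (Site N)) (hconn : ∀ i, LatConn (supp i))
    (g : ι → (Site N → Fin d) → (Site N → Fin d) → ℂ)
    (hg : ∀ i s s' t t', (∀ u ∈ supp i, s u = t u ∧ s' u = t' u) → g i s s' = g i t t')
    (k c : ℕ) (hk : ∀ v, (Finset.univ.filter (fun i => v ∈ supp i)).card ≤ k)
    (hc : ∀ i, (supp i).card ≤ c) (hd : 1 ≤ d)
    (O : Matrix (Site N → Fin d) (Site N → Fin d) ℂ)
    (hO : ∀ s s', O s s' = ∑ D ∈ (Finset.univ : Finset (Finset ι)).filter
        (fun D => ∀ i ∈ D, ∀ j ∈ D, i ≠ j → Disjoint (supp i) (supp j)),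
      if ∀ u, (∀ i ∈ D, u ∉ supp i) → s u = s' u then ∏ i ∈ D, g i s s' else 0) :
    OpNet (1 + k * (d ^ c * d ^ c)) O := by
  obtain ⟨z, hz⟩ : ∃ z : Fin d, z = ⟨0, hd⟩ := ⟨_, rfl⟩
  obtain ⟨root, hroot⟩ : ∃ root : ι → Site N, ∀ i, root i ∈ supp i := by
    choose root hroot using fun i => (hconn i).1
    exact ⟨root, hroot⟩
  -- the admissible labels
  obtain ⟨B, hB⟩ : ∃ B : Site N → Finset (ι × (Site N → Fin d) × (Site N → Fin d)),
    B = fun v => Finset.univ.filter (fun x => v ∈ supp x.1 ∧ canon supp z x) := ⟨_, rfl⟩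
  obtain ⟨A, hA⟩ : ∃ A : Site N → Finset (FLab N d ι), A = fun v =>
    insert none ((B v).image some) := ⟨_, rfl⟩
  have hAcard : ∀ v, (A v).card ≤ 1 + k * (d ^ c * d ^ c) := by
    intro v
    have h1 : (B v).card ≤ k * (d ^ c * d ^ c) := by
      -- restriction to the support
      obtain ⟨F, hF⟩ : ∃ F : (i : ι) → Finset (Site N → Fin d), F = fun i =>
        Finset.univ.filter (fun a : Site N → Fin d => ∀ u, u ∉ supp i → a u = z) := ⟨_, rfl⟩
      have hFc : ∀ i, (F i).card ≤ d ^ c := by
        intro i
        have h2 : (F i).card ≤ Fintype.card (supp i → Fin d) := by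
          rw [← Finset.card_univ]
          apply Finset.card_le_card_of_injOn (fun a (u : supp i) => a u)
          · intro a _
            exact Finset.mem_univ _
          · intro a ha a' ha' h
            rw [hF] at ha ha'
            simp only [Finset.coe_filter, Finset.mem_univ, true_and, Set.mem_ofPred_eq] at ha ha'
            funext u
            by_cases hu : u ∈ supp i
            · exact congrFun h ⟨u, hu⟩
            · rw [ha u hu, ha' u hu]
        rw [Fintype.card_fun, Fintype.card_fin, Fintype.card_coe] at h2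
        exact h2.trans (Nat.pow_le_pow_right hd (hc i))
      have h3 : B v ⊆ (Finset.univ.filter (fun i => v ∈ supp i)).biUnion
          (fun i => ({i} : Finset ι) ×ˢ (F i ×ˢ F i)) := by
        intro x hx
        rw [hB] at hx
        simp only [Finset.mem_filter, Finset.mem_univ, true_and] at hx
        simp only [Finset.mem_biUnion, Finset.mem_filter, Finset.mem_univ, true_and,
          Finset.mem_product, Finset.mem_singleton]
        refine ⟨x.1, hx.1, rfl, ?_, ?_⟩
        · rw [hF]
          simp only [Finset.mem_filter, Finset.mem_univ, true_and]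
          exact fun u hu => (hx.2 u hu).1
        · rw [hF]
          simp only [Finset.mem_filter, Finset.mem_univ, true_and]
          exact fun u hu => (hx.2 u hu).2
      calc (B v).card ≤ _ := Finset.card_le_card h3
        _ ≤ (Finset.univ.filter (fun i => v ∈ supp i)).card * (d ^ c * d ^ c) := by
          apply Finset.card_biUnion_le_card_mul
          intro i _
          rw [Finset.card_product, Finset.card_product, Finset.card_singleton, one_mul]
          exact Nat.mul_le_mul (hFc i) (hFc i)
        _ ≤ k * (d ^ c * d ^ c) := Nat.mul_le_mul_right _ (hk v)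
    calc (A v).card ≤ ((B v).image some).card + 1 := by
          rw [hA]; exact Finset.card_insert_le _ _
      _ ≤ (B v).card + 1 := by gcongr; exact Finset.card_image_le
      _ ≤ 1 + k * (d ^ c * d ^ c) := by omega
  refine opNet_of_labels A _ hAcard
    (fun v a b l m c => if chk supp z v a b l m c then rtf root g v c else 0) ?_ O ?_
  · intro v a b l m c hcA
    beta_reduce
    rw [if_neg]
    intro hchk
    apply hcA
    rw [hA]
    simp only [Finset.mem_insert, Finset.mem_image]
    cases c with
    | none => exact Or.inl rfl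
    | some x =>
      refine Or.inr ⟨x, ?_, rfl⟩
      rw [hB]
      simp only [Finset.mem_filter, Finset.mem_univ, true_and]
      have := hchk.2.1 x rfl
      exact ⟨this.1, this.2.1⟩
  intro s s'
  rw [hO, ← Finset.sum_filter]
  -- only the consistent label configurations contribute
  have hR : ∑ y : Site N → FLab N d ι, ∏ v, (if chk supp z v (s v) (s' v) (y (v - (1, 0)))
        (y (v - (0, 1))) (y v) then rtf root g v (y v) else 0) =
      ∑ y ∈ Finset.univ.filter (fun y : Site N → FLab N d ι => ∀ v, chk supp z v (s v) (s' v)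
        (y (v - (1, 0))) (y (v - (0, 1))) (y v)), ∏ v, rtf root g v (y v) := by
    rw [Finset.sum_filter]
    refine Finset.sum_congr rfl (fun y _ => ?_)
    by_cases h : ∀ v, chk supp z v (s v) (s' v) (y (v - (1, 0))) (y (v - (0, 1))) (y v)
    · rw [if_pos h]
      exact Finset.prod_congr rfl (fun v _ => if_pos (h v))
    · rw [if_neg h]
      push Not at h
      obtain ⟨v, hv⟩ := h
      exact Finset.prod_eq_zero (Finset.mem_univ v) (if_neg hv)
  rw [hR]
  refine Finset.sum_bij' (fun D _ => famLab supp z s s' D)
    (fun y _ => Finset.univ.filter (fun i => ∃ v x, y v = some x ∧ x.1 = i)) ?_ ?_ ?_ ?_ ?_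
  · -- the labels of a family are consistent
    intro D hD
    simp only [Finset.mem_filter, Finset.mem_univ, true_and] at hD ⊢
    obtain ⟨hD, hoff⟩ := hD
    intro v
    refine ⟨?_, ?_, ?_, ?_, ?_, ?_⟩
    · intro h
      rcases famLab_cases (z := z) (s := s) (s' := s') hD v with ⟨i, hi, hv, h1⟩ | ⟨h1, _⟩
      · rw [h1] at h
        exact absurd h (by simp)
      · exact hoff v h1
    · intro x hx
      obtain ⟨h1, h2, h3⟩ := famLab_some hD hx
      refine ⟨h2, ?_, ?_, ?_⟩
      · intro u hu
        rw [h3]
        simp only [rst]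
        rw [if_neg hu, if_neg hu]
        exact ⟨rfl, rfl⟩
      · rw [h3]
        simp only [rst]
        rw [if_pos h2]
      · rw [h3]
        simp only [rst]
        rw [if_pos h2]
    · intro x hx hv
      obtain ⟨h1, h2, h3⟩ := famLab_some hD hx
      rw [famLab_of_mem hD h1 hv, ← h3]
    · intro x hx hv
      obtain ⟨h1, h2, h3⟩ := famLab_some hD hx
      rw [famLab_of_mem hD h1 hv, ← h3]
    · intro x hx hv
      obtain ⟨h1, h2, h3⟩ := famLab_some hD hx
      rw [famLab_of_mem hD h1 hv, ← h3]
    · intro x hx hv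
      obtain ⟨h1, h2, h3⟩ := famLab_some hD hx
      rw [famLab_of_mem hD h1 hv, ← h3]
  · -- the clusters of a consistent label configuration
    intro y hy
    simp only [Finset.mem_filter, Finset.mem_univ, true_and] at hy ⊢
    refine ⟨?_, ?_⟩
    · rintro i ⟨v, x, hx, rfl⟩ j ⟨v', x', hx', rfl⟩ hne
      rw [Finset.disjoint_left]
      intro u hu hu'
      have h1 := chk_const hconn hy hx u hu
      rw [chk_const hconn hy hx' u hu', Option.some.injEq] at h1
      exact hne (by rw [h1])
    · intro u hu
      apply (hy u).1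
      cases h : y u with
      | none => rfl
      | some x => exact absurd ((hy u).2.1 x h).1 (hu x.1 ⟨u, x, h, rfl⟩)
  · intro D hD
    simp only [Finset.mem_filter, Finset.mem_univ, true_and] at hD
    obtain ⟨hD, -⟩ := hD
    ext i
    simp only [Finset.mem_filter, Finset.mem_univ, true_and]
    constructor
    · rintro ⟨v, x, hx, rfl⟩
      exact (famLab_some hD hx).1
    · intro hi
      exact ⟨root i, _, famLab_of_mem hD hi (hroot i), rfl⟩
  · intro y hy
    simp only [Finset.mem_filter, Finset.mem_univ, true_and] at hy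
    have hdisj : ∀ i ∈ Finset.univ.filter (fun i => ∃ v x, y v = some x ∧ x.1 = i),
        ∀ j ∈ Finset.univ.filter (fun i => ∃ v x, y v = some x ∧ x.1 = i), i ≠ j →
        Disjoint (supp i) (supp j) := by
      simp only [Finset.mem_filter, Finset.mem_univ, true_and]
      rintro i ⟨v, x, hx, rfl⟩ j ⟨v', x', hx', rfl⟩ hne
      rw [Finset.disjoint_left]
      intro u hu hu'
      have h1 := chk_const hconn hy hx u hu
      rw [chk_const hconn hy hx' u hu', Option.some.injEq] at h1
      exact hne (by rw [h1])
    funext v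
    cases h : y v with
    | none =>
      apply famLab_of_notMem
      intro i hi hv
      simp only [Finset.mem_filter, Finset.mem_univ, true_and] at hi
      obtain ⟨v', x, hx, rfl⟩ := hi
      rw [chk_const hconn hy hx v hv] at h
      exact absurd h (by simp)
    | some x =>
      have h1 : x.1 ∈ Finset.univ.filter (fun i => ∃ v x, y v = some x ∧ x.1 = i) := by
        simp only [Finset.mem_filter, Finset.mem_univ, true_and]
        exact ⟨v, x, h, rfl⟩
      have h2 := (hy v).2.1 x h
      rw [famLab_of_mem hdisj h1 h2.1, Option.some.injEq]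
      have h3 := chk_const hconn hy h
      refine Prod.ext rfl (Prod.ext ?_ ?_)
      · funext u
        simp only [rst]
        by_cases hu : u ∈ supp x.1
        · rw [if_pos hu]
          exact (((hy u).2.1 x (h3 u hu)).2.2.1).symm
        · rw [if_neg hu]
          exact (h2.2.1 u hu).1.symm
      · funext u
        simp only [rst]
        by_cases hu : u ∈ supp x.1
        · rw [if_pos hu]
          exact (((hy u).2.1 x (h3 u hu)).2.2.2).symm
        · rw [if_neg hu]
          exact (h2.2.1 u hu).2.symm
  · intro D hD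
    simp only [Finset.mem_filter, Finset.mem_univ, true_and] at hD
    obtain ⟨hD, -⟩ := hD
    have hinj : ∀ i ∈ D, ∀ j ∈ D, root i = root j → i = j := by
      intro i hi j hj h
      by_contra hne
      exact Finset.disjoint_left.1 (hD i hi j hj hne) (hroot i) (by rw [h]; exact hroot j)
    have h1 : ∏ i ∈ D, g i s s' = ∏ v ∈ D.image root, rtf root g v (famLab supp z s s' D v) := by
      rw [Finset.prod_image hinj]
      refine Finset.prod_congr rfl (fun i hi => ?_)
      rw [famLab_of_mem hD hi (hroot i)]
      simp only [rtf, if_true]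
      apply hg
      intro u hu
      simp only [rst]
      rw [if_pos hu, if_pos hu]
      exact ⟨rfl, rfl⟩
    rw [h1]
    apply Finset.prod_subset (Finset.subset_univ _)
    intro v _ hv
    rcases famLab_cases (z := z) (s := s) (s' := s') hD v with ⟨i, hi, hvi, h2⟩ | ⟨_, h2⟩
    · rw [h2]
      simp only [rtf]
      rw [if_neg]
      intro h3
      exact hv (Finset.mem_image.2 ⟨i, hi, h3.symm⟩)
    · rw [h2]
      rfl

end fam

end Pool.Agent.Hhelper96.PEPS
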