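import Pool.Agent.Hhelper96.PEPS.TorusNet

/-!
Operators on the torus given by label networks: change of labels, products, powers.
-/

set_option autoImplicit false
set_option linter.unusedSectionVars false

open scoped BigOperators ComplexOrder
open Matrix

namespace Pool.Agent.Hhelper96.PEPS

section opnet

variable {N d : ℕ} [NeZero N]

/-- operators given by label networks with `k` labels per site -/
def OpNet (k : ℕ) (O : Matrix (Site N → Fin d) (Site N → Fin d) ℂ) : Prop :=
  ∃ w : Site N → Fin d → Fin d → Fin k → Fin k → Fin k → ℂ, ∀ s s', O s s' =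
    ∑ y : Site N → Fin k, ∏ v, w v (s v) (s' v) (y (v - (1, 0))) (y (v - (0, 1))) (y v)

/-- a function of three optional labels -/
def lab3 {Y : Type} (f : Y → Y → Y → ℂ) : Option Y → Option Y → Option Y → ℂ
  | some l, some m, some c => f l m c
  | _, _, _ => 0

theorem lab3_some {Y : Type} (f : Y → Y → Y → ℂ) (l m c : Y) :
    lab3 f (some l) (some m) (some c) = f l m c := rfl

theorem lab3_none {Y : Type} (f : Y → Y → Y → ℂ) (l m : Option Y) : lab3 f l m none = 0 := by
  cases l <;> cases m <;> rfl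

/-- change of the labels: only the labels in `A v` matter at the site `v` -/
theorem opNet_of_labels {Y : Type} [Fintype Y] [DecidableEq Y] (A : Site N → Finset Y) (k : ℕ)
    (hk : ∀ v, (A v).card ≤ k) (w : Site N → Fin d → Fin d → Y → Y → Y → ℂ)
    (hw : ∀ v a b l m c, c ∉ A v → w v a b l m c = 0)
    (O : Matrix (Site N → Fin d) (Site N → Fin d) ℂ)
    (hO : ∀ s s', O s s' =
      ∑ y : Site N → Y, ∏ v, w v (s v) (s' v) (y (v - (1, 0))) (y (v - (0, 1))) (y v)) :
    OpNet k O := by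
  classical
  obtain ⟨dec, hdec⟩ : ∃ dec : Site N → Fin k → Option Y, dec = fun v (c : Fin k) =>
    if h : (c : ℕ) < (A v).card then some ((A v).equivFin.symm ⟨c, h⟩ : Y) else none := ⟨_, rfl⟩
  obtain ⟨enc, henc⟩ : ∃ enc : (v : Site N) → (y : Y) → y ∈ A v → Fin k, enc = fun v y hy =>
    Fin.castLE (hk v) ((A v).equivFin ⟨y, hy⟩) := ⟨_, rfl⟩
  have hde : ∀ v y (hy : y ∈ A v), dec v (enc v y hy) = some y := by
    intro v y hy
    rw [hdec, henc]
    simp
  have hed : ∀ v c y, dec v c = some y → ∃ hy : y ∈ A v, enc v y hy = c := by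
    intro v c y h
    rw [hdec] at h
    simp only at h
    by_cases h1 : (c : ℕ) < (A v).card
    · rw [dif_pos h1, Option.some.injEq] at h
      have h2 : y ∈ A v := by rw [← h]; exact ((A v).equivFin.symm ⟨c, h1⟩).2
      refine ⟨h2, ?_⟩
      rw [henc]
      subst h
      simp
    · rw [dif_neg h1] at h
      exact absurd h (by simp)
  have hinj : ∀ v y y' (hy : y ∈ A v) (hy' : y' ∈ A v), enc v y hy = enc v y' hy' → y = y' := by
    intro v y y' hy hy' h
    have h1 := hde v y hy
    rw [h, hde v y' hy'] at h1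
    exact (Option.some.inj h1).symm
  refine ⟨fun v a b l m c => lab3 (w v a b) (dec (v - (1, 0)) l) (dec (v - (0, 1)) m) (dec v c),
    ?_⟩
  intro s s'
  rw [hO]
  have hmem : ∀ y : Site N → Y,
      ∏ v, w v (s v) (s' v) (y (v - (1, 0))) (y (v - (0, 1))) (y v) ≠ 0 → ∀ v, y v ∈ A v := by
    intro y hy v
    by_contra hcon
    exact hy (Finset.prod_eq_zero (Finset.mem_univ v) (hw _ _ _ _ _ _ hcon))
  refine Finset.sum_bij_ne_zero (fun y _ hy v => enc v (y v) (hmem y hy v)) ?_ ?_ ?_ ?_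
  · intro y _ _
    exact Finset.mem_univ _
  · intro y _ hy y' _ hy' h
    funext v
    exact hinj v _ _ _ _ (congrFun h v)
  · intro x _ hx
    have h1 : ∀ v, ∃ y, dec v (x v) = some y := by
      intro v
      by_contra hcon
      push Not at hcon
      apply hx
      apply Finset.prod_eq_zero (Finset.mem_univ v)
      have h2 : dec v (x v) = none := by
        cases h3 : dec v (x v) with
        | none => rfl
        | some y => exact absurd h3 (hcon y)
      beta_reduce
      rw [h2, lab3_none]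
    choose y hy using h1
    have h2 : ∀ v, ∃ h : y v ∈ A v, enc v (y v) h = x v := fun v => hed v _ _ (hy v)
    have h3 : ∏ v, w v (s v) (s' v) (y (v - (1, 0))) (y (v - (0, 1))) (y v) ≠ 0 := by
      intro h
      apply hx
      rw [← h]
      refine Finset.prod_congr rfl (fun v _ => ?_)
      beta_reduce
      rw [hy, hy, hy, lab3_some]
    refine ⟨y, Finset.mem_univ _, h3, ?_⟩
    funext v
    exact (h2 v).2
  · intro y _ hy
    refine Finset.prod_congr rfl (fun v _ => ?_)
    beta_reduce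
    rw [hde, hde, hde, lab3_some]

/-- labels in a finite type -/
theorem opNet_of_fintype {Y : Type} [Fintype Y] (k : ℕ) (hk : Fintype.card Y ≤ k)
    (w : Site N → Fin d → Fin d → Y → Y → Y → ℂ)
    (O : Matrix (Site N → Fin d) (Site N → Fin d) ℂ)
    (hO : ∀ s s', O s s' =
      ∑ y : Site N → Y, ∏ v, w v (s v) (s' v) (y (v - (1, 0))) (y (v - (0, 1))) (y v)) :
    OpNet k O := by
  classical
  exact opNet_of_labels (fun _ => Finset.univ) k (fun _ => by rwa [Finset.card_univ]) w
    (fun _ _ _ _ _ c hc => absurd (Finset.mem_univ c) hc) O hO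

theorem OpNet.mono {k k' : ℕ} {O : Matrix (Site N → Fin d) (Site N → Fin d) ℂ} (h : OpNet k O)
    (hk : k ≤ k') : OpNet k' O := by
  obtain ⟨w, hw⟩ := h
  exact opNet_of_fintype k' (by rwa [Fintype.card_fin]) w O hw

/-- products -/
theorem OpNet.mul {k₁ k₂ : ℕ} {O₁ O₂ : Matrix (Site N → Fin d) (Site N → Fin d) ℂ}
    (h₁ : OpNet k₁ O₁) (h₂ : OpNet k₂ O₂) : OpNet (d * (k₁ * k₂)) (O₁ * O₂) := by
  classical
  obtain ⟨w₁, hw₁⟩ := h₁
  obtain ⟨w₂, hw₂⟩ := h₂
  refine opNet_of_fintype (Y := Fin d × (Fin k₁ × Fin k₂)) _ (by simp)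
    (fun v a b l m c => w₁ v a c.1 l.2.1 m.2.1 c.2.1 * w₂ v c.1 b l.2.2 m.2.2 c.2.2) _ ?_
  intro s s'
  have h1 : (O₁ * O₂) s s' = ∑ x : (Site N → Fin d) × ((Site N → Fin k₁) × (Site N → Fin k₂)),
      ∏ v, (w₁ v (s v) (x.1 v) (x.2.1 (v - (1, 0))) (x.2.1 (v - (0, 1))) (x.2.1 v) *
        w₂ v (x.1 v) (s' v) (x.2.2 (v - (1, 0))) (x.2.2 (v - (0, 1))) (x.2.2 v)) := by
    rw [Fintype.sum_prod_type, Matrix.mul_apply]
    refine Finset.sum_congr rfl (fun t _ => ?_)
    rw [hw₁, hw₂, Fintype.sum_prod_type, Finset.sum_mul_sum]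
    refine Finset.sum_congr rfl (fun y₁ _ => Finset.sum_congr rfl (fun y₂ _ => ?_))
    rw [Finset.prod_mul_distrib]
  rw [h1]
  symm
  apply Fintype.sum_equiv ((Equiv.arrowProdEquivProdArrow (Site N) (fun _ => Fin d)
    (fun _ => Fin k₁ × Fin k₂)).trans (Equiv.prodCongr (Equiv.refl _)
      (Equiv.arrowProdEquivProdArrow (Site N) (fun _ => Fin k₁) (fun _ => Fin k₂))))
  intro i
  rfl

/-- the adjoint -/
theorem OpNet.conjTranspose {k : ℕ} {O : Matrix (Site N → Fin d) (Site N → Fin d) ℂ}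
    (h : OpNet k O) : OpNet k Oᴴ := by
  obtain ⟨w, hw⟩ := h
  refine ⟨fun v a b l m c => star (w v b a l m c), ?_⟩
  intro s s'
  rw [Matrix.conjTranspose_apply, hw, star_sum]
  refine Finset.sum_congr rfl (fun y _ => ?_)
  rw [star_prod]

/-- the identity -/
theorem opNet_one : OpNet 1 (1 : Matrix (Site N → Fin d) (Site N → Fin d) ℂ) := by
  classical
  refine ⟨fun v a b _ _ _ => if a = b then 1 else 0, ?_⟩
  intro s s'
  rw [Fintype.sum_unique, Matrix.one_apply]
  by_cases h : s = s'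
  · subst h
    simp
  · rw [if_neg h]
    symm
    obtain ⟨v, hv⟩ : ∃ v, s v ≠ s' v := by
      by_contra hcon
      push Not at hcon
      exact h (funext hcon)
    exact Finset.prod_eq_zero (Finset.mem_univ v) (if_neg hv)

/-- powers -/
theorem OpNet.pow {k : ℕ} {O : Matrix (Site N → Fin d) (Site N → Fin d) ℂ} (h : OpNet k O)
    (q : ℕ) : OpNet ((d * k) ^ q) (O ^ q) := by
  induction q with
  | zero => rw [pow_zero, pow_zero]; exact opNet_one
  | succ q ih =>
    rw [pow_succ O]
    have h1 := ih.mul h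
    have e : d * ((d * k) ^ q * k) = (d * k) ^ (q + 1) := by ring
    rwa [e] at h1

/-- powers of `T Tᴴ` -/
theorem OpNet.pow_mul_conj {k : ℕ} {T : Matrix (Site N → Fin d) (Site N → Fin d) ℂ}
    (h : OpNet k T) (q : ℕ) : OpNet ((d * k) ^ (2 * q)) ((T * Tᴴ) ^ q) := by
  have h1 := (h.mul h.conjTranspose).pow q
  have e : (d * (d * (k * k))) ^ q = (d * k) ^ (2 * q) := by rw [pow_mul]; ring
  rwa [e] at h1

/-- operator networks applied to basis vectors are label networks -/
theorem OpNet.netT {k : ℕ} {O : Matrix (Site N → Fin d) (Site N → Fin d) ℂ} (h : OpNet k O)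
    (x : Site N → Fin d) : ∃ W : Site N → Fin d → Fin k → Fin k → Fin k → ℂ,
      Hhelper96.PEPS.netT W = O.mulVec (Pi.single x 1) := by
  classical
  obtain ⟨w, hw⟩ := h
  refine ⟨fun v a => w v a (x v), ?_⟩
  funext s
  rw [Matrix.mulVec_single_one]
  unfold Hhelper96.PEPS.netT
  rw [Matrix.col_apply, hw]

end opnet

end Pool.Agent.Hhelper96.PEPS
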