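import Pool.Agent.Hhelper68.CS.Defs
import Pool.Agent.Hhelper68.CS.Ana

/-!
The truncated cluster sum approximates the exponential up to a factor close to one.
-/

set_option autoImplicit false
set_option linter.unusedSectionVars false

open scoped BigOperators

namespace Pool.Agent.Hhelper68.CS

section mob

variable {I : Type} [DecidableEq I] {𝔸 : Type} [AddCommGroup 𝔸] [Module ℂ 𝔸]

/-- Möbius inversion -/
theorem mob (A : Finset I) : ∀ F : Finset I → 𝔸,
    ∑ X ∈ A.powerset, ∑ Y ∈ X.powerset, ((-1 : ℂ) ^ (X \ Y).card) • F Y = F A := by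
  induction A using Finset.induction_on with
  | empty => intro F; simp
  | insert i A hi ih =>
    intro F
    have h0 : ∀ X ∈ A.powerset, ∑ Y ∈ (insert i X).powerset,
        ((-1 : ℂ) ^ (insert i X \ Y).card) • F Y =
        ∑ Y ∈ X.powerset, ((-1 : ℂ) ^ (X \ Y).card) • F (insert i Y) -
          ∑ Y ∈ X.powerset, ((-1 : ℂ) ^ (X \ Y).card) • F Y := by
      intro X hX
      rw [Finset.mem_powerset] at hX
      have hiX : i ∉ X := fun h => hi (hX h)
      rw [Finset.sum_powerset_insert hiX, add_comm, sub_eq_add_neg, ← Finset.sum_neg_distrib]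
      congr 1
      · refine Finset.sum_congr rfl (fun Y hY => ?_)
        rw [Finset.mem_powerset] at hY
        congr 2
        congr 1
        ext j
        simp only [Finset.mem_sdiff, Finset.mem_insert]
        constructor
        · rintro ⟨h3 | h3, h4⟩
          · exact absurd (Or.inl h3) h4
          · exact ⟨h3, fun h5 => h4 (Or.inr h5)⟩
        · rintro ⟨h3, h4⟩
          refine ⟨Or.inr h3, ?_⟩
          rintro (h5 | h5)
          · exact hiX (h5 ▸ h3)
          · exact h4 h5
      · refine Finset.sum_congr rfl (fun Y hY => ?_)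
        rw [Finset.mem_powerset] at hY
        have hiY : i ∉ Y := fun h => hiX (hY h)
        have h3 : (insert i X \ Y).card = (X \ Y).card + 1 := by
          rw [Finset.insert_sdiff_of_notMem _ hiY, Finset.card_insert_of_notMem]
          simp [hiX]
        rw [h3, pow_succ, mul_neg_one, neg_smul]
    rw [Finset.sum_powerset_insert hi, ← Finset.sum_add_distrib]
    have h1 := ih (fun Y => F (insert i Y))
    rw [← h1]
    refine Finset.sum_congr rfl (fun X hX => ?_)
    rw [h0 X hX]
    abel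

end mob

section alg

variable {I : Type} [Fintype I] [DecidableEq I] (nb : I → Finset I)
variable {𝔸 : Type} [NormedRing 𝔸] [NormedAlgebra ℂ 𝔸] [CompleteSpace 𝔸] (h : I → 𝔸)

/-- the exponential of a set of terms -/
noncomputable def FE (t : ℝ) (Y : Finset I) : 𝔸 := NormedSpace.exp ((-(t : ℂ)) • ∑ i ∈ Y, h i)

/-- the inverse exponential -/
noncomputable def EE (t : ℝ) (Y : Finset I) : 𝔸 := NormedSpace.exp ((t : ℂ) • ∑ i ∈ Y, h i)

theorem clF_def (t : ℝ) (X : Finset I) :
    clF h t X = ∑ Y ∈ X.powerset, ((-1 : ℂ) ^ (X \ Y).card) • FE h t Y := rfl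

theorem FE_mul_EE (t : ℝ) (Y : Finset I) : FE h t Y * EE h t Y = 1 :=
  Pool.Agent.Hhelper17.PE.exp_neg_mul _ _

theorem EE_mul_FE (t : ℝ) (Y : Finset I) : EE h t Y * FE h t Y = 1 :=
  Pool.Agent.Hhelper17.PE.exp_mul_neg _ _

theorem FE_empty (t : ℝ) : FE h t ∅ = 1 := by
  unfold FE
  rw [Finset.sum_empty, smul_zero, NormedSpace.exp_zero]

theorem clF_empty (t : ℝ) : clF h t ∅ = 1 := by
  rw [clF_def, Finset.powerset_empty, Finset.sum_singleton]
  simp [FE_empty]

/-- two sets of indices whose terms commute -/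
def Far (X₁ X₂ : Finset I) : Prop := Disjoint X₁ X₂ ∧ ∀ i ∈ X₁, ∀ j ∈ X₂, Commute (h i) (h j)

theorem Far.symm {X₁ X₂ : Finset I} (hf : Far h X₁ X₂) : Far h X₂ X₁ :=
  ⟨hf.1.symm, fun i hi j hj => (hf.2 j hj i hi).symm⟩

theorem Far.mono {X₁ X₂ Y₁ Y₂ : Finset I} (hf : Far h X₁ X₂) (h₁ : Y₁ ⊆ X₁) (h₂ : Y₂ ⊆ X₂) :
    Far h Y₁ Y₂ :=
  ⟨Finset.disjoint_of_subset_left h₁ (Finset.disjoint_of_subset_right h₂ hf.1),
    fun i hi j hj => hf.2 i (h₁ hi) j (h₂ hj)⟩

theorem FE_union {t : ℝ} {Y₁ Y₂ : Finset I} (hf : Far h Y₁ Y₂) :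
    FE h t (Y₁ ∪ Y₂) = FE h t Y₁ * FE h t Y₂ := by
  let _i : NormedAlgebra ℚ 𝔸 := NormedAlgebra.restrictScalars ℚ ℂ 𝔸
  unfold FE
  rw [Finset.sum_union hf.1, smul_add]
  apply NormedSpace.exp_add_of_commute
  apply Commute.smul_left
  apply Commute.smul_right
  exact Commute.sum_left _ _ _ (fun i hi => Commute.sum_right _ _ _ (fun j hj => hf.2 i hi j hj))

theorem FE_comm {t t' : ℝ} {Y₁ Y₂ : Finset I} (hf : Far h Y₁ Y₂) :
    Commute (FE h t Y₁) (FE h t' Y₂) := by
  unfold FE
  apply Commute.exp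
  apply Commute.smul_left
  apply Commute.smul_right
  exact Commute.sum_left _ _ _ (fun i hi => Commute.sum_right _ _ _ (fun j hj => hf.2 i hi j hj))

theorem EE_eq (t : ℝ) (Y : Finset I) : EE h t Y = FE h (-t) Y := by
  unfold EE FE
  push_cast
  rw [neg_neg]

theorem clF_comm_FE {t t' : ℝ} {X Y : Finset I} (hf : Far h X Y) :
    Commute (clF h t X) (FE h t' Y) := by
  rw [clF_def]
  refine Commute.sum_left _ _ _ (fun Z hZ => ?_)
  rw [Finset.mem_powerset] at hZ
  exact (FE_comm h (hf.mono h hZ (Finset.Subset.refl _))).smul_left _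

theorem clF_comm {t t' : ℝ} {X Y : Finset I} (hf : Far h X Y) :
    Commute (clF h t X) (clF h t' Y) := by
  rw [clF_def h t' Y]
  refine Commute.sum_right _ _ _ (fun Z hZ => ?_)
  rw [Finset.mem_powerset] at hZ
  exact (clF_comm_FE h (hf.mono h (Finset.Subset.refl _) hZ)).smul_right _

theorem clF_mul_FE {t : ℝ} {B A' : Finset I} (hf : Far h B A') :
    clF h t B * FE h t A' = ∑ Y ∈ B.powerset, ((-1 : ℂ) ^ (B \ Y).card) • FE h t (A' ∪ Y) := by
  rw [clF_def, Finset.sum_mul]
  refine Finset.sum_congr rfl (fun Y hY => ?_)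
  rw [Finset.mem_powerset] at hY
  rw [smul_mul_assoc, Finset.union_comm, FE_union h (hf.mono h hY (Finset.Subset.refl _))]

theorem clF_union {t : ℝ} {X₁ X₂ : Finset I} (hf : Far h X₁ X₂) :
    clF h t (X₁ ∪ X₂) = clF h t X₁ * clF h t X₂ := by
  rw [clF_def, clF_def, clF_def, Finset.sum_mul_sum, ← Finset.sum_product']
  symm
  refine Finset.sum_bij' (fun x _ => x.1 ∪ x.2) (fun Y _ => (Y ∩ X₁, Y ∩ X₂)) ?_ ?_ ?_ ?_ ?_
  · intro x hx
    rw [Finset.mem_product, Finset.mem_powerset, Finset.mem_powerset] at hx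
    rw [Finset.mem_powerset]
    exact Finset.union_subset_union hx.1 hx.2
  · intro Y _
    rw [Finset.mem_product, Finset.mem_powerset, Finset.mem_powerset]
    exact ⟨Finset.inter_subset_right, Finset.inter_subset_right⟩
  · intro x hx
    rw [Finset.mem_product, Finset.mem_powerset, Finset.mem_powerset] at hx
    have h1 : x.1 ∩ X₂ = ∅ := Finset.disjoint_iff_inter_eq_empty.1
      (Finset.disjoint_of_subset_left hx.1 hf.1)
    have h2 : x.2 ∩ X₁ = ∅ := Finset.disjoint_iff_inter_eq_empty.1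
      (Finset.disjoint_of_subset_left hx.2 hf.1.symm)
    refine Prod.ext ?_ ?_
    · simp only
      rw [Finset.union_inter_distrib_right, h2, Finset.union_empty, Finset.inter_eq_left.2 hx.1]
    · simp only
      rw [Finset.union_inter_distrib_right, h1, Finset.empty_union, Finset.inter_eq_left.2 hx.2]
  · intro Y hY
    rw [Finset.mem_powerset] at hY
    simp only
    rw [← Finset.inter_union_distrib_left, Finset.inter_eq_left.2 hY]
  · intro x hx
    rw [Finset.mem_product, Finset.mem_powerset, Finset.mem_powerset] at hx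
    rw [FE_union h (hf.mono h hx.1 hx.2), smul_mul_smul_comm, ← pow_add]
    congr 2
    rw [← Finset.card_union_of_disjoint]
    · congr 1
      ext j
      have hd := Finset.disjoint_left.1 hf.1
      simp only [Finset.mem_union, Finset.mem_sdiff]
      constructor
      · rintro (⟨h1, h2⟩ | ⟨h1, h2⟩)
        · refine ⟨Or.inl h1, ?_⟩
          rintro (h3 | h3)
          · exact h2 h3
          · exact hd h1 (hx.2 h3)
        · refine ⟨Or.inr h1, ?_⟩
          rintro (h3 | h3)
          · exact hd (hx.1 h3) h1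
          · exact h2 h3
      · rintro ⟨h1 | h1, h2⟩
        · exact Or.inl ⟨h1, fun h3 => h2 (Or.inl h3)⟩
        · exact Or.inr ⟨h1, fun h3 => h2 (Or.inr h3)⟩
    · exact Finset.disjoint_of_subset_left Finset.sdiff_subset
        (Finset.disjoint_of_subset_right Finset.sdiff_subset hf.1)

open Classical in
/-- the families of big clusters -/
noncomputable def bigF (m : ℕ) (A : Finset I) : Finset (Finset (Finset I)) :=
  (Finset.univ : Finset (Finset (Finset I))).filter
    (fun D => SepF nb D ∧ (∀ C ∈ D, C ⊆ A) ∧ ∀ C ∈ D, m < C.card)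

open Classical in
/-- the families of small clusters -/
noncomputable def smallF (m : ℕ) (A : Finset I) : Finset (Finset (Finset I)) :=
  (Finset.univ : Finset (Finset (Finset I))).filter
    (fun D => SepF nb D ∧ (∀ C ∈ D, C ⊆ A) ∧ ∀ C ∈ D, C.card ≤ m)

theorem clS_def (t : ℝ) (m : ℕ) (A : Finset I) :
    clS nb h t m A = ∑ D ∈ smallF nb m A, clF h t (D.biUnion id) := rfl

variable {nb}

theorem mem_bigF {m : ℕ} {A : Finset I} {D : Finset (Finset I)} :
    D ∈ bigF nb m A ↔ SepF nb D ∧ (∀ C ∈ D, C ⊆ A) ∧ ∀ C ∈ D, m < C.card := by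
  classical
  unfold bigF
  simp

theorem mem_smallF {m : ℕ} {A : Finset I} {D : Finset (Finset I)} :
    D ∈ smallF nb m A ↔ SepF nb D ∧ (∀ C ∈ D, C ⊆ A) ∧ ∀ C ∈ D, C.card ≤ m := by
  classical
  unfold smallF
  simp

/-- the part of `A` far from `B` -/
def awy (nb : I → Finset I) (A B : Finset I) : Finset I := A \ B.biUnion nb

theorem far_awy (hself : ∀ i, i ∈ nb i) (hnb : ∀ i j, j ∉ nb i → Commute (h i) (h j))
    (A B : Finset I) : Far h B (awy nb A B) := by
  refine ⟨?_, ?_⟩
  · rw [Finset.disjoint_left]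
    intro i hi hi'
    exact (Finset.mem_sdiff.1 hi').2 (Finset.mem_biUnion.2 ⟨i, hi, hself i⟩)
  · intro i hi j hj
    exact hnb i j (fun hcon => (Finset.mem_sdiff.1 hj).2 (Finset.mem_biUnion.2 ⟨i, hi, hcon⟩))

/-- splitting a family into its big and its small clusters -/
theorem split_fam (hself : ∀ i, i ∈ nb i) (hsymm : ∀ i j, j ∈ nb i → i ∈ nb j)
    (m : ℕ) (A : Finset I) (f : Finset (Finset I) → 𝔸) :
    ∑ D ∈ smallF nb (Fintype.card I) A, f D =
      ∑ D ∈ bigF nb m A, ∑ D' ∈ smallF nb m (awy nb A (D.biUnion id)), f (D ∪ D') := by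
  classical
  rw [Finset.sum_sigma']
  refine Finset.sum_bij' (fun D _ => ⟨D.filter (fun C => m < C.card),
      D.filter (fun C => C.card ≤ m)⟩) (fun x _ => x.1 ∪ x.2) ?_ ?_ ?_ ?_ ?_
  · intro D hD
    rw [mem_smallF] at hD
    obtain ⟨hs, hA, -⟩ := hD
    rw [Finset.mem_sigma, mem_bigF, mem_smallF]
    refine ⟨⟨⟨fun C hC => hs.1 C (Finset.mem_filter.1 hC).1, fun C hC C' hC' =>
      hs.2 C (Finset.mem_filter.1 hC).1 C' (Finset.mem_filter.1 hC').1⟩, fun C hC =>
      hA C (Finset.mem_filter.1 hC).1, fun C hC => (Finset.mem_filter.1 hC).2⟩,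
      ⟨fun C hC => hs.1 C (Finset.mem_filter.1 hC).1, fun C hC C' hC' =>
      hs.2 C (Finset.mem_filter.1 hC).1 C' (Finset.mem_filter.1 hC').1⟩, ?_, fun C hC =>
      (Finset.mem_filter.1 hC).2⟩
    intro C hC j hj
    rw [Finset.mem_filter] at hC
    unfold awy
    rw [Finset.mem_sdiff]
    refine ⟨hA C hC.1 hj, ?_⟩
    intro hcon
    simp only [Finset.mem_biUnion, Finset.mem_filter, id] at hcon
    obtain ⟨i, ⟨C', ⟨hC', hm⟩, hi⟩, hji⟩ := hcon
    exact hs.2 C' hC' C hC.1 (by rintro rfl; omega) i hi j hj hji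
  · intro x hx
    rw [Finset.mem_sigma, mem_bigF, mem_smallF] at hx
    obtain ⟨⟨hs1, hA1, hm1⟩, hs2, hA2, hm2⟩ := hx
    rw [mem_smallF]
    have hfar : ∀ C ∈ x.1, ∀ C' ∈ x.2, ∀ a ∈ C, ∀ b ∈ C', b ∉ nb a := by
      intro C hC C' hC' a ha b hb hcon
      have h1 := hA2 C' hC' hb
      unfold awy at h1
      rw [Finset.mem_sdiff] at h1
      apply h1.2
      simp only [Finset.mem_biUnion, id]
      exact ⟨a, ⟨C, hC, ha⟩, hcon⟩
    refine ⟨⟨?_, ?_⟩, ?_, ?_⟩
    · intro C hC
      rcases Finset.mem_union.1 hC with h1 | h1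
      · exact hs1.1 C h1
      · exact hs2.1 C h1
    · intro C hC C' hC' hne a ha b hb
      rcases Finset.mem_union.1 hC with h1 | h1
      · rcases Finset.mem_union.1 hC' with h2 | h2
        · exact hs1.2 C h1 C' h2 hne a ha b hb
        · exact hfar C h1 C' h2 a ha b hb
      · rcases Finset.mem_union.1 hC' with h2 | h2
        · exact fun hcon => hfar C' h2 C h1 b hb a ha (hsymm a b hcon)
        · exact hs2.2 C h1 C' h2 hne a ha b hb
    · intro C hC
      rcases Finset.mem_union.1 hC with h1 | h1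
      · exact hA1 C h1
      · exact (hA2 C h1).trans Finset.sdiff_subset
    · intro C _
      exact Finset.card_le_univ C
  · intro D _
    ext C
    simp only [Finset.mem_union, Finset.mem_filter]
    constructor
    · rintro (h1 | h1) <;> exact h1.1
    · intro h1
      rcases Nat.lt_or_ge m C.card with h2 | h2
      · exact Or.inl ⟨h1, h2⟩
      · exact Or.inr ⟨h1, h2⟩
  · intro x hx
    rw [Finset.mem_sigma, mem_bigF, mem_smallF] at hx
    obtain ⟨⟨-, -, hm1⟩, -, -, hm2⟩ := hx
    have e1 : (x.1 ∪ x.2).filter (fun C => m < C.card) = x.1 := by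
      ext C
      simp only [Finset.mem_union, Finset.mem_filter]
      constructor
      · rintro ⟨h1 | h1, h2⟩
        · exact h1
        · have := hm2 C h1; omega
      · intro h1
        exact ⟨Or.inl h1, hm1 C h1⟩
    have e2 : (x.1 ∪ x.2).filter (fun C => C.card ≤ m) = x.2 := by
      ext C
      simp only [Finset.mem_union, Finset.mem_filter]
      constructor
      · rintro ⟨h1 | h1, h2⟩
        · have := hm1 C h1; omega
        · exact h1
      · intro h1
        exact ⟨Or.inr h1, hm2 C h1⟩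
    rw [e1, e2]
  · intro D _
    congr 1
    ext C
    simp only [Finset.mem_union, Finset.mem_filter]
    constructor
    · intro h1
      rcases Nat.lt_or_ge m C.card with h2 | h2
      · exact Or.inl ⟨h1, h2⟩
      · exact Or.inr ⟨h1, h2⟩
    · rintro (h1 | h1) <;> exact h1.1

/-- the exponential is the sum over all families -/
theorem FE_eq (hex : ∀ X : Finset I, ∃ D, SepF nb D ∧ D.biUnion id = X)
    (huq : ∀ D D' : Finset (Finset I), SepF nb D → SepF nb D' → D.biUnion id = D'.biUnion id →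
      D = D') (t : ℝ) (A : Finset I) :
    FE h t A = clS nb h t (Fintype.card I) A := by
  classical
  rw [← mob A (FE h t), clS_def]
  symm
  choose G hG1 hG2 using hex
  refine Finset.sum_bij' (fun D _ => D.biUnion id) (fun X _ => G X) ?_ ?_ ?_ ?_ ?_
  · intro D hD
    rw [mem_smallF] at hD
    rw [Finset.mem_powerset]
    intro j hj
    simp only [Finset.mem_biUnion, id] at hj
    obtain ⟨C, hC, hj⟩ := hj
    exact hD.2.1 C hC hj
  · intro X hX
    rw [Finset.mem_powerset] at hX
    rw [mem_smallF]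
    refine ⟨hG1 X, ?_, fun C _ => Finset.card_le_univ C⟩
    intro C hC j hj
    apply hX
    rw [← hG2 X]
    simp only [Finset.mem_biUnion, id]
    exact ⟨C, hC, hj⟩
  · intro D hD
    rw [mem_smallF] at hD
    exact huq _ _ (hG1 _) hD.1 (hG2 _)
  · intro X _
    exact hG2 X
  · intro D _
    rfl

/-- the recursion -/
theorem recur (hself : ∀ i, i ∈ nb i) (hsymm : ∀ i j, j ∈ nb i → i ∈ nb j)
    (hnb : ∀ i j, j ∉ nb i → Commute (h i) (h j))
    (hex : ∀ X : Finset I, ∃ D, SepF nb D ∧ D.biUnion id = X)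
    (huq : ∀ D D' : Finset (Finset I), SepF nb D → SepF nb D' → D.biUnion id = D'.biUnion id →
      D = D') (t : ℝ) (m : ℕ) (A : Finset I) :
    FE h t A = clS nb h t m A + ∑ D ∈ (bigF nb m A).erase ∅,
      clF h t (D.biUnion id) * clS nb h t m (awy nb A (D.biUnion id)) := by
  classical
  rw [FE_eq h hex huq, clS_def, split_fam hself hsymm m A]
  have h0 : (∅ : Finset (Finset I)) ∈ bigF nb m A := by
    rw [mem_bigF]
    refine ⟨⟨?_, ?_⟩, ?_, ?_⟩ <;> intro C hC <;> exact absurd hC (Finset.notMem_empty C)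
  have h1 : ∀ D ∈ bigF nb m A, ∑ D' ∈ smallF nb m (awy nb A (D.biUnion id)),
      clF h t ((D ∪ D').biUnion id) =
      clF h t (D.biUnion id) * clS nb h t m (awy nb A (D.biUnion id)) := by
    intro D _
    rw [clS_def, Finset.mul_sum]
    refine Finset.sum_congr rfl (fun D' hD' => ?_)
    rw [mem_smallF] at hD'
    rw [Finset.union_biUnion]
    apply clF_union
    apply (far_awy h hself hnb A (D.biUnion id)).mono h (Finset.Subset.refl _)
    intro j hj
    simp only [Finset.mem_biUnion, id] at hj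
    obtain ⟨C, hC, hj⟩ := hj
    exact hD'.2.1 C hC hj
  rw [Finset.sum_congr rfl h1, ← Finset.add_sum_erase _ _ h0, Finset.biUnion_empty, clF_empty,
    one_mul]
  congr 2
  unfold awy
  rw [Finset.biUnion_empty, Finset.sdiff_empty]

end alg

end Pool.Agent.Hhelper68.CS
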