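import Pool.Agent.Hhelper68.CS.Iface
import Pool.Agent.Hhelper96.PEPS.Energy
import Pool.Agent.Hhelper96.UB.Sandwich

/-!
Low energy label networks from the partition function, for the cluster sum engine.
-/

set_option autoImplicit false
set_option linter.unusedSectionVars false

open scoped BigOperators Topology ComplexOrder
open Matrix

namespace Pool.Agent.Hhelper96.PEPS

section lattice

variable {d : ℕ}

open Classical in
/-- Low energy label networks from the partition function. -/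
theorem thermal_content4 (r κ : ℕ) (hr : 1 ≤ r) (hd : 1 ≤ d) (hE : LabNet d r κ) :
    ∃ (τ C : ℝ), 0 < τ ∧ 0 ≤ C ∧
      ∀ (N m : ℕ) [NeZero N], r ≤ N → 3 ≤ m → N * N ≤ 2 ^ m →
      ∀ (W : Finset (ℤ × ℤ)) (a b : ℤ),
      (∀ p ∈ W, a ≤ p.1 ∧ p.1 < a + r ∧ b ≤ p.2 ∧ p.2 < b + r) →
      ∀ (g : Matrix (W → Fin d) (W → Fin d) ℂ) (hg : g.IsHermitian) (c : ℝ), 1 ≤ c →
      hsq (((c⁻¹ : ℝ) : ℂ) • g) ≤ 1 → ∀ (q : ℕ), 1 ≤ q → ∀ E₀ : ℝ,
      (∃ j, (hamiltonian_isHermitian (L := N) hg).eigenvalues j = E₀) →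
      (∀ j, E₀ ≤ (hamiltonian_isHermitian (L := N) hg).eigenvalues j) →
      ∃ Wt : Site N → Fin d → Fin (labN d κ m q) → Fin (labN d κ m q) → Fin (labN d κ m q) → ℂ,
        netT Wt ≠ 0 ∧
        ex (hamiltonian N W g) (netT Wt) / sqn (netT Wt) ≤ E₀ + C * c * (N : ℝ) ^ 2 / 2 ^ m +
          Real.log (∑ j, Real.exp (-(q * τ / c) *
            ((hamiltonian_isHermitian (L := N) hg).eigenvalues j - E₀))) / (q * τ / c) := by
  have _ := hr
  obtain ⟨τ, C, hτ, hC, hE⟩ := hE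
  refine ⟨τ, 4 * C / τ, hτ, by positivity, ?_⟩
  intro N m _ hrN hm hNm W a b hW g hg c hc hK1 q hq E₀ hE₀ hmin
  have hc0 : 0 < c := by linarith
  have hK : (((c⁻¹ : ℝ) : ℂ) • g).IsHermitian := by
    unfold Matrix.IsHermitian
    rw [Matrix.conjTranspose_smul, hg.eq, Complex.star_def, Complex.conj_ofReal]
  have hsum : hamiltonian N W (((c⁻¹ : ℝ) : ℂ) • g) = ((c⁻¹ : ℝ) : ℂ) • hamiltonian N W g := by
    unfold hamiltonian
    rw [Finset.smul_sum]
    refine Finset.sum_congr rfl (fun v _ => ?_)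
    rw [localTerm_eq_opAt, localTerm_eq_opAt, opAt_smul]
  have hreal : ∀ (x : ℝ) (A : Matrix (Site N → Fin d) (Site N → Fin d) ℂ),
      x • A = ((x : ℝ) : ℂ) • A := by
    intro x A
    ext i j
    simp [Matrix.smul_apply]
  have hexp : (-τ) • hamiltonian N W (((c⁻¹ : ℝ) : ℂ) • g) =
      (-(τ / c)) • hamiltonian N W g := by
    rw [hsum, hreal, hreal, smul_smul]
    congr 1
    push_cast
    field_simp
  have hne : Nonempty (Site N → Fin d) := ⟨fun _ => ⟨0, hd⟩⟩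
  obtain ⟨T, hsand, hnet⟩ := hE N m hrN hm hNm W a b hW (((c⁻¹ : ℝ) : ℂ) • g) hK hK1
  rw [hexp] at hsand
  have hκ : 0 ≤ C * (N : ℝ) ^ 2 / 2 ^ m := by positivity
  obtain ⟨x, hx0, hx⟩ := thermal_of_sandwich (hamiltonian_isHermitian (L := N) hg)
    (s := τ / c) (by positivity) hκ hsand q hq E₀ hE₀ hmin
  obtain ⟨Wt, hWt⟩ := hnet.labN q x
  refine ⟨Wt, by rw [hWt]; exact hx0, ?_⟩
  rw [hWt]
  have e1 : (q : ℝ) * (τ / c) = q * τ / c := by ring
  have e2 : 4 * (C * (N : ℝ) ^ 2 / 2 ^ m) / (τ / c) = 4 * C / τ * c * (N : ℝ) ^ 2 / 2 ^ m := by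
    field_simp
  rw [e1, e2] at hx
  exact hx

end lattice

end Pool.Agent.Hhelper96.PEPS
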